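import Pool.Agent.helper68.HDefs

/-! Functoriality of pull-backs, and concordance is an equivalence relation implied by
homotopy. -/

open Filter Topology Set

namespace Pool.Agent.helper68
namespace GammaStructure

variable {X Y Z : Type*} [TopologicalSpace X] [TopologicalSpace Y] [TopologicalSpace Z]

theorem pullback_isFI_iff (Ω : GammaStructure X) (φ : C(Y, X)) (y : Y) (G : Y × ℝ → ℝ) :
    (Ω.pullback φ).IsFI y G ↔
      ∃ F, Ω.IsFI (φ y) F ∧ ∀ᶠ z in 𝓝 (y, (0 : ℝ)), G z = F (φ z.1, z.2) := Iff.rfl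

theorem pullback_comp (Ω : GammaStructure X) (φ : C(Y, X)) (ψ : C(Z, Y)) :
    (Ω.pullback φ).pullback ψ = Ω.pullback (φ.comp ψ) := by
  ext z G
  simp only [pullback_isFI_iff]
  constructor
  · rintro ⟨F', ⟨F, hF, e⟩, e'⟩
    refine ⟨F, hF, ?_⟩
    filter_upwards [e', (tendsto_map ψ z 0).eventually e] with w a1 a2
    rw [a1, a2]; rfl
  · rintro ⟨F, hF, e⟩
    exact ⟨fun w => F (φ w.1, w.2), ⟨F, hF, Eventually.of_forall fun _ => rfl⟩, e⟩

theorem pullback_congr_near (Ω : GammaStructure X) {φ ψ : C(Y, X)} {y : Y}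
    (h : ∀ᶠ y' in 𝓝 y, φ y' = ψ y') (G : Y × ℝ → ℝ) :
    (Ω.pullback φ).IsFI y G ↔ (Ω.pullback ψ).IsFI y G := by
  simp only [pullback_isFI_iff]
  have h1 : ∀ᶠ z in 𝓝 (y, (0 : ℝ)), φ z.1 = ψ z.1 :=
    (continuous_fst.tendsto (y, (0 : ℝ))).eventually h
  have h2 := h.self_of_nhds
  constructor
  · rintro ⟨F, hF, e⟩
    refine ⟨F, h2 ▸ hF, ?_⟩
    filter_upwards [e, h1] with z a1 a2
    rw [a1, a2]
  · rintro ⟨F, hF, e⟩
    refine ⟨F, h2 ▸ hF, ?_⟩
    filter_upwards [e, h1] with z a1 a2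
    rw [a1, a2]

theorem pullback_const (Ω : GammaStructure X) (b : X) :
    Ω.pullback (ContinuousMap.const Y b) = trivial Y := by
  ext y G
  rw [pullback_isFI_iff]
  constructor
  · rintro ⟨F, hF, e⟩
    exact ⟨fun t => F (b, t), (Ω.regular _ _ hF).self_of_nhds.2, e⟩
  · rintro ⟨g, hg, e⟩
    obtain ⟨F0, hF0⟩ := Ω.exists_fi b
    have h0 : IsADiffAt (fun t => F0 (b, t)) 0 := (Ω.regular _ _ hF0).self_of_nhds.2
    obtain ⟨k, hk, hk0, hl, hr⟩ := h0.exists_inv
    refine ⟨fun z => g (k (F0 z)), (Ω.compat _ _ _ hF0).2 ⟨fun u => g (k u), ?_,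
      Eventually.of_forall fun _ => rfl⟩, ?_⟩
    · exact IsADiffAt.comp (by rw [hk0]; exact hg) hk
    · have h1 : Tendsto (fun z : Y × ℝ => z.2) (𝓝 (y, 0)) (𝓝 0) :=
        continuous_snd.tendsto (y, (0:ℝ))
      filter_upwards [e, h1.eventually hl] with z a1 a2
      rw [a1]
      show g z.2 = g (k (F0 (b, z.2)))
      rw [a2]

theorem Concordant.symm {ξ η : GammaStructure X} (h : Concordant ξ η) : Concordant η ξ := by
  obtain ⟨Ξ, h0, h1⟩ := h
  refine ⟨Ξ.pullback ⟨fun p => (p.1, unitInterval.symm p.2), by fun_prop⟩, ?_, ?_⟩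
  · rw [pullback_comp, ← h1]
    congr 1
    ext x <;> simp
  · rw [pullback_comp, ← h0]
    congr 1
    ext x <;> simp

/-- first reparametrization -/
noncomputable def rho1 : C(X × unitInterval, X × unitInterval) :=
  ⟨fun p => (p.1, Set.projIcc 0 1 zero_le_one (3 * (p.2 : ℝ))),
    continuous_fst.prodMk (continuous_projIcc.comp
      (continuous_const.mul (continuous_subtype_val.comp continuous_snd)))⟩

/-- second reparametrization -/
noncomputable def rho2 : C(X × unitInterval, X × unitInterval) :=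
  ⟨fun p => (p.1, Set.projIcc 0 1 zero_le_one (3 * (p.2 : ℝ) - 2)),
    continuous_fst.prodMk (continuous_projIcc.comp
      ((continuous_const.mul (continuous_subtype_val.comp continuous_snd)).sub
        continuous_const))⟩

theorem Concordant.trans {ξ η ζ : GammaStructure X} (h : Concordant ξ η)
    (h' : Concordant η ζ) : Concordant ξ ζ := by
  classical
  obtain ⟨Ξ, h0, h1⟩ := h
  obtain ⟨Ξ', h0', h1'⟩ := h'
  -- both pull-backs agree in the middle
  have hval : Continuous fun p : X × unitInterval => (p.2 : ℝ) :=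
    continuous_subtype_val.comp continuous_snd
  have hmid : ∀ p : X × unitInterval, (1 / 3 : ℝ) < p.2 → (p.2 : ℝ) < 2 / 3 →
      ∀ F, ((Ξ.pullback rho1).IsFI p F ↔ (Ξ'.pullback rho2).IsFI p F) := by
    intro p hp1 hp2 F
    have hlt : ∀ᶠ q in 𝓝 p, (1 / 3 : ℝ) < (q.2 : ℝ) :=
      hval.continuousAt.eventually (lt_mem_nhds hp1)
    have hgt : ∀ᶠ q in 𝓝 p, (q.2 : ℝ) < 2 / 3 := hval.continuousAt.eventually (gt_mem_nhds hp2)
    have e1 : ∀ᶠ q in 𝓝 p, rho1 q =
        ((⟨fun x => (x, 1), by fun_prop⟩ : C(X, X × unitInterval)).comp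
          (⟨fun q => q.1, by fun_prop⟩ : C(X × unitInterval, X))) q := by
      filter_upwards [hlt] with q hq
      show (q.1, Set.projIcc (0 : ℝ) 1 zero_le_one (3 * (q.2 : ℝ))) = (q.1, (1 : unitInterval))
      rw [Set.projIcc_of_right_le _ (by linarith)]
      rfl
    have e2 : ∀ᶠ q in 𝓝 p, rho2 q =
        ((⟨fun x => (x, 0), by fun_prop⟩ : C(X, X × unitInterval)).comp
          (⟨fun q => q.1, by fun_prop⟩ : C(X × unitInterval, X))) q := by
      filter_upwards [hgt] with q hq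
      show (q.1, Set.projIcc (0 : ℝ) 1 zero_le_one (3 * (q.2 : ℝ) - 2)) = (q.1, (0 : unitInterval))
      rw [Set.projIcc_of_le_left _ (by linarith)]
      rfl
    rw [pullback_congr_near Ξ e1 F, pullback_congr_near Ξ' e2 F, ← pullback_comp, ← pullback_comp,
      h1, h0']
  set D : X × unitInterval → ((X × unitInterval) × ℝ → ℝ) → Prop := fun p F =>
    if (p.2 : ℝ) < 1 / 2 then (Ξ.pullback rho1).IsFI p F else (Ξ'.pullback rho2).IsFI p F with hD
  have hDlt : ∀ p : X × unitInterval, (p.2 : ℝ) < 2 / 3 → ∀ F,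
      (D p F ↔ (Ξ.pullback rho1).IsFI p F) := by
    intro p hp F
    simp only [hD]
    split_ifs with h
    · exact Iff.rfl
    · exact (hmid p (by linarith) hp F).symm
  have hDgt : ∀ p : X × unitInterval, (1 / 3 : ℝ) < p.2 → ∀ F,
      (D p F ↔ (Ξ'.pullback rho2).IsFI p F) := by
    intro p hp F
    simp only [hD]
    split_ifs with h
    · exact hmid p hp (by linarith) F
    · exact Iff.rfl
  have hcase : ∀ p : X × unitInterval, (p.2 : ℝ) < 2 / 3 ∨ (1 / 3 : ℝ) < p.2 := by
    intro p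
    rcases lt_or_ge (p.2 : ℝ) (2 / 3) with h | h
    · exact Or.inl h
    · exact Or.inr (by linarith)
  refine ⟨⟨D, ?_, ?_, ?_, ?_⟩, ?_, ?_⟩
  · intro p
    rcases hcase p with h | h
    · obtain ⟨F, hF⟩ := (Ξ.pullback rho1).exists_fi p
      exact ⟨F, (hDlt p h F).2 hF⟩
    · obtain ⟨F, hF⟩ := (Ξ'.pullback rho2).exists_fi p
      exact ⟨F, (hDgt p h F).2 hF⟩
  · intro p F hF
    rcases hcase p with h | h
    · exact (Ξ.pullback rho1).regular p F ((hDlt p h F).1 hF)
    · exact (Ξ'.pullback rho2).regular p F ((hDgt p h F).1 hF)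
  · intro p F hF
    rcases hcase p with h | h
    · filter_upwards [(Ξ.pullback rho1).locality p F ((hDlt p h F).1 hF),
        hval.continuousAt.eventually (gt_mem_nhds h)] with q a1 a2
      exact (hDlt q a2 F).2 a1
    · filter_upwards [(Ξ'.pullback rho2).locality p F ((hDgt p h F).1 hF),
        hval.continuousAt.eventually (lt_mem_nhds h)] with q a1 a2
      exact (hDgt q a2 F).2 a1
  · intro p F G hF
    rcases hcase p with h | h
    · rw [hDlt p h G]
      exact (Ξ.pullback rho1).compat p F G ((hDlt p h F).1 hF)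
    · rw [hDgt p h G]
      exact (Ξ'.pullback rho2).compat p F G ((hDgt p h F).1 hF)
  · ext x G
    have e1 : (Ξ.pullback rho1).pullback ⟨fun x => (x, 0), by fun_prop⟩ = ξ := by
      rw [pullback_comp, ← h0]
      congr 1
      ext x
      · rfl
      · show ((Set.projIcc (0 : ℝ) 1 zero_le_one (3 * ((0 : unitInterval) : ℝ)) : unitInterval) :
          ℝ) = ((0 : unitInterval) : ℝ)
        rw [Set.projIcc_of_le_left _ (by simp)]
        rfl
    rw [← e1, pullback_isFI_iff, pullback_isFI_iff]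
    have : ∀ F, (D (x, 0) F ↔ (Ξ.pullback rho1).IsFI (x, 0) F) :=
      hDlt (x, 0) (by norm_num)
    constructor
    · rintro ⟨F, hF, e⟩
      exact ⟨F, (this F).1 hF, e⟩
    · rintro ⟨F, hF, e⟩
      exact ⟨F, (this F).2 hF, e⟩
  · ext x G
    have e1 : (Ξ'.pullback rho2).pullback ⟨fun x => (x, 1), by fun_prop⟩ = ζ := by
      rw [pullback_comp, ← h1']
      congr 1
      ext x
      · rfl
      · show ((Set.projIcc (0 : ℝ) 1 zero_le_one (3 * ((1 : unitInterval) : ℝ) - 2) :
          unitInterval) : ℝ) = ((1 : unitInterval) : ℝ)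
        rw [Set.projIcc_of_right_le _ (by norm_num)]
        rfl
    rw [← e1, pullback_isFI_iff, pullback_isFI_iff]
    have : ∀ F, (D (x, 1) F ↔ (Ξ'.pullback rho2).IsFI (x, 1) F) :=
      hDgt (x, 1) (by norm_num)
    constructor
    · rintro ⟨F, hF, e⟩
      exact ⟨F, (this F).1 hF, e⟩
    · rintro ⟨F, hF, e⟩
      exact ⟨F, (this F).2 hF, e⟩

/-- Homotopic maps pull a structure back to concordant structures. -/
theorem concordant_of_homotopic (Ω : GammaStructure X) {f g : C(Y, X)} (h : f.Homotopic g) :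
    Concordant (Ω.pullback f) (Ω.pullback g) := by
  obtain ⟨H⟩ := h
  refine ⟨Ω.pullback (H.toContinuousMap.comp ⟨fun p : Y × unitInterval => (p.2, p.1),
    by fun_prop⟩), ?_, ?_⟩
  · rw [pullback_comp]
    congr 1
    ext y
    exact H.apply_zero y
  · rw [pullback_comp]
    congr 1
    ext y
    exact H.apply_one y

end GammaStructure
end Pool.Agent.helper68
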