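import Pool.Agent.helper23.HB.Stmts

/-! Module E2A of MP_435341_pr (plan of helper23): from the moments to the success event. -/

open MeasureTheory ProbabilityTheory Set Filter Topology
open scoped ENNReal NNReal

namespace Pool.Agent.helper68.HB

open Pool.Agent.helper23.HB

/-- pointwise form of the second moment method -/
private theorem amgm (m : ℝ≥0∞) {c : ℝ≥0} (hc : c ≠ 0) :
    m ≤ m ^ 2 * ((4 * c : ℝ≥0) : ℝ≥0∞)⁻¹ + c := by
  induction m with
  | top =>
    have h4 : (4 * c : ℝ≥0) ≠ 0 := mul_ne_zero (by norm_num) hc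
    rw [← ENNReal.coe_inv h4]
    simp [ENNReal.top_mul, hc]
  | coe x =>
    have h4 : (4 * c : ℝ≥0) ≠ 0 := mul_ne_zero (by norm_num) hc
    rw [← ENNReal.coe_inv h4]
    norm_cast
    rw [← NNReal.coe_le_coe]
    push_cast
    have hc' : (0 : ℝ) < c := by
      have := pos_iff_ne_zero.2 hc
      exact_mod_cast this
    have h5 : (x : ℝ) ^ 2 * (4 * (c : ℝ))⁻¹ + c - x = (x - 2 * c) ^ 2 * (4 * (c : ℝ))⁻¹ := by
      field_simp
      ring
    have h6 : 0 ≤ ((x : ℝ) - 2 * c) ^ 2 * (4 * (c : ℝ))⁻¹ := by positivity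
    linarith

theorem mE2A : St_E2A := by
  intro Ω _ P _ κ C M H N hκ hC hM hH hN hmom
  constructor
  · -- the constant
    set c : ℝ≥0 := C.toNNReal + 1 with hcdef
    have hc : c ≠ 0 := by positivity
    have hCc : C ≤ c := by
      rw [hcdef, ENNReal.coe_add, ENNReal.coe_toNNReal hC]
      exact le_self_add
    have h4 : ((4 * c : ℝ≥0) : ℝ≥0∞) ≠ 0 := by
      have : (4 * c : ℝ≥0) ≠ 0 := mul_ne_zero (by norm_num) hc
      exact_mod_cast this
    have h8 : ((8 * c : ℝ≥0) : ℝ≥0∞) ≠ 0 := by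
      have : (8 * c : ℝ≥0) ≠ 0 := mul_ne_zero (by norm_num) hc
      exact_mod_cast this
    -- lower bound for the probability
    have hPZ : ∀ n, ((4 * c : ℝ≥0) : ℝ≥0∞)⁻¹ ≤ P {ω | 1 / 2 ≤ M n ω} := by
      intro n
      have hA : MeasurableSet {ω | 1 / 2 ≤ M n ω} := measurableSet_le measurable_const (hM n)
      have e1 : (1 : ℝ≥0∞) ≤ 1 / 2 + (1 / 4 + c * P {ω | 1 / 2 ≤ M n ω}) := by
        calc (1 : ℝ≥0∞) = ∫⁻ ω, M n ω ∂P := (hmom n).1.symm
          _ ≤ ∫⁻ ω, (1 / 2 + (M n ω ^ 2 * ((4 * c : ℝ≥0) : ℝ≥0∞)⁻¹ +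
              {ω | 1 / 2 ≤ M n ω}.indicator (fun _ => (c : ℝ≥0∞)) ω)) ∂P := by
                refine lintegral_mono fun ω => ?_
                by_cases h : 1 / 2 ≤ M n ω
                · have : ω ∈ {ω | 1 / 2 ≤ M n ω} := h
                  rw [Set.indicator_of_mem this]
                  exact (amgm _ hc).trans le_add_self
                · exact (not_le.1 h).le.trans le_self_add
          _ = 1 / 2 + ((∫⁻ ω, M n ω ^ 2 ∂P) * ((4 * c : ℝ≥0) : ℝ≥0∞)⁻¹ +
              c * P {ω | 1 / 2 ≤ M n ω}) := by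
                rw [lintegral_add_left measurable_const, lintegral_const, measure_univ, mul_one,
                  lintegral_add_left (((hM n).pow_const 2).mul_const _),
                  lintegral_mul_const _ ((hM n).pow_const 2), lintegral_indicator_const hA]
          _ ≤ _ := by
                gcongr
                calc (∫⁻ ω, M n ω ^ 2 ∂P) * ((4 * c : ℝ≥0) : ℝ≥0∞)⁻¹
                    ≤ c * ((4 * c : ℝ≥0) : ℝ≥0∞)⁻¹ := by
                      gcongr
                      exact (hmom n).2.1.trans hCc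
                  _ = 1 / 4 := by
                      have hc0 : (c : ℝ≥0∞) ≠ 0 := by exact_mod_cast hc
                      rw [ENNReal.coe_mul, ENNReal.mul_inv (Or.inr ENNReal.coe_ne_top)
                        (Or.inr hc0), mul_left_comm, ENNReal.mul_inv_cancel hc0
                        ENNReal.coe_ne_top, mul_one, one_div]
                      norm_num
      -- real arithmetic
      obtain ⟨p, hp⟩ : ∃ p : ℝ≥0, (p : ℝ≥0∞) = P {ω | 1 / 2 ≤ M n ω} :=
        ⟨_, ENNReal.coe_toNNReal (measure_ne_top _ _)⟩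
      rw [← hp] at e1 ⊢
      have e2 : (1 : ℝ) ≤ 1 / 2 + (1 / 4 + c * p) := by
        have h1 : (1 : ℝ≥0∞) = ((1 : ℝ≥0) : ℝ≥0∞) := by simp
        have h2 : (1 / 2 + (1 / 4 + c * p) : ℝ≥0∞) = ((1 / 2 + (1 / 4 + c * p) : ℝ≥0) : ℝ≥0∞) := by
          simp
        rw [h2, h1, ENNReal.coe_le_coe] at e1
        have := NNReal.coe_le_coe.2 e1
        push_cast at this
        exact this
      have h4' : (4 * c : ℝ≥0) ≠ 0 := mul_ne_zero (by norm_num) hc
      rw [← ENNReal.coe_inv h4', ENNReal.coe_le_coe, ← NNReal.coe_le_coe]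
      push_cast
      have hc' : (0 : ℝ) < c := by
        have := pos_iff_ne_zero.2 hc
        exact_mod_cast this
      rw [inv_le_iff_one_le_mul₀ (by positivity)]
      nlinarith
    -- the choice of K0
    obtain ⟨K0, hK0⟩ : ∃ K0 : ℕ, 8 * (c : ℝ) * c < K0 := exists_nat_gt _
    have hK0pos : (0 : ℝ) < K0 := lt_of_le_of_lt (by positivity) hK0
    have hMk : ∀ n, P {ω | (K0 : ℝ≥0∞) < H n ω} ≤ ((8 * c : ℝ≥0) : ℝ≥0∞)⁻¹ := by
      intro n
      have h1 : (K0 : ℝ≥0∞) * P {ω | (K0 : ℝ≥0∞) < H n ω} ≤ c := by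
        calc (K0 : ℝ≥0∞) * P {ω | (K0 : ℝ≥0∞) < H n ω} ≤ (K0 : ℝ≥0∞) * P {ω | (K0 : ℝ≥0∞) ≤ H n ω} := by
              gcongr
              intro h
              exact h.le
          _ ≤ ∫⁻ ω, H n ω ∂P := mul_meas_ge_le_lintegral (hH n) _
          _ ≤ c := (hmom n).2.2.1.trans hCc
      obtain ⟨p, hp⟩ : ∃ p : ℝ≥0, (p : ℝ≥0∞) = P {ω | (K0 : ℝ≥0∞) < H n ω} :=
        ⟨_, ENNReal.coe_toNNReal (measure_ne_top _ _)⟩
      rw [← hp] at h1 ⊢
      have h2 : (K0 : ℝ) * p ≤ c := by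
        have : ((K0 : ℝ≥0) : ℝ≥0∞) * p ≤ c := by simpa using h1
        rw [← ENNReal.coe_mul, ENNReal.coe_le_coe] at this
        have := NNReal.coe_le_coe.2 this
        push_cast at this
        exact this
      have h8' : (8 * c : ℝ≥0) ≠ 0 := mul_ne_zero (by norm_num) hc
      rw [← ENNReal.coe_inv h8', ENNReal.coe_le_coe, ← NNReal.coe_le_coe]
      push_cast
      have hc' : (0 : ℝ) < c := by
        have := pos_iff_ne_zero.2 hc
        exact_mod_cast this
      rw [← one_div, le_div_iff₀ (by positivity)]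
      have h3 : (p : ℝ) * (8 * c * c) ≤ c := by
        calc (p : ℝ) * (8 * c * c) ≤ p * K0 := mul_le_mul_of_nonneg_left hK0.le p.2
          _ = K0 * p := mul_comm _ _
          _ ≤ c := h2
      have h5 : ((p : ℝ) * (8 * c)) * c ≤ 1 * c := by linarith
      exact le_of_mul_le_mul_right h5 hc'
    refine ⟨K0, ?_⟩
    have hAm : ∀ n, MeasurableSet {ω | 1 / 2 ≤ M n ω ∧ H n ω ≤ (K0 : ℝ≥0∞)} := fun n =>
      (measurableSet_le measurable_const (hM n)).inter (measurableSet_le (hH n) measurable_const)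
    have hAn : ∀ n, ((8 * c : ℝ≥0) : ℝ≥0∞)⁻¹ ≤ P {ω | 1 / 2 ≤ M n ω ∧ H n ω ≤ (K0 : ℝ≥0∞)} := by
      intro n
      have h1 : ((4 * c : ℝ≥0) : ℝ≥0∞)⁻¹ ≤ P {ω | 1 / 2 ≤ M n ω ∧ H n ω ≤ (K0 : ℝ≥0∞)} +
          ((8 * c : ℝ≥0) : ℝ≥0∞)⁻¹ := by
        refine (hPZ n).trans (le_trans ?_ (add_le_add le_rfl (hMk n)))
        refine (measure_mono ?_).trans (measure_union_le _ _)
        intro ω hω
        by_cases h : H n ω ≤ (K0 : ℝ≥0∞)
        · exact Or.inl ⟨hω, h⟩
        · exact Or.inr (not_le.1 h)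
      obtain ⟨p, hp⟩ : ∃ p : ℝ≥0, (p : ℝ≥0∞) = P {ω | 1 / 2 ≤ M n ω ∧ H n ω ≤ (K0 : ℝ≥0∞)} :=
        ⟨_, ENNReal.coe_toNNReal (measure_ne_top _ _)⟩
      rw [← hp] at h1 ⊢
      have h4' : (4 * c : ℝ≥0) ≠ 0 := mul_ne_zero (by norm_num) hc
      have h8' : (8 * c : ℝ≥0) ≠ 0 := mul_ne_zero (by norm_num) hc
      rw [← ENNReal.coe_inv h4', ← ENNReal.coe_inv h8', ← ENNReal.coe_add, ENNReal.coe_le_coe,
        ← NNReal.coe_le_coe] at h1
      rw [← ENNReal.coe_inv h8', ENNReal.coe_le_coe, ← NNReal.coe_le_coe]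
      push_cast at h1 ⊢
      have hc' : (0 : ℝ) < c := by
        have := pos_iff_ne_zero.2 hc
        exact_mod_cast this
      have h5 : (4 * (c : ℝ))⁻¹ = 2 * (8 * (c : ℝ))⁻¹ := by
        field_simp
        norm_num
      linarith
    have hset : {ω | ∃ᶠ n in atTop, 1 / 2 ≤ M n ω ∧ H n ω ≤ (K0 : ℝ≥0∞)} =
        ⋂ m : ℕ, ⋃ n : ℕ, ⋃ (_ : m ≤ n), {ω | 1 / 2 ≤ M n ω ∧ H n ω ≤ (K0 : ℝ≥0∞)} := by
      ext ω
      simp only [Set.mem_ofPred_eq, Set.mem_iInter, Set.mem_iUnion, frequently_atTop, exists_prop]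
    rw [hset]
    have hanti : Antitone fun m : ℕ =>
        ⋃ n : ℕ, ⋃ (_ : m ≤ n), {ω | 1 / 2 ≤ M n ω ∧ H n ω ≤ (K0 : ℝ≥0∞)} := by
      intro m m' hmm
      apply Set.iUnion_mono
      intro n
      apply Set.iUnion_subset
      intro hn
      exact Set.subset_iUnion_of_subset (hmm.trans hn) (le_refl _)
    have hlim := tendsto_measure_iInter_atTop (μ := P)
      (fun m : ℕ => (MeasurableSet.iUnion fun n => MeasurableSet.iUnion fun _ =>
        hAm n).nullMeasurableSet) hanti ⟨0, measure_ne_top _ _⟩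
    have hge : ((8 * c : ℝ≥0) : ℝ≥0∞)⁻¹ ≤ P (⋂ m : ℕ, ⋃ n : ℕ, ⋃ (_ : m ≤ n),
        {ω | 1 / 2 ≤ M n ω ∧ H n ω ≤ (K0 : ℝ≥0∞)}) := by
      refine ge_of_tendsto' hlim fun m => (hAn m).trans (measure_mono ?_)
      exact Set.subset_iUnion_of_subset m (Set.subset_iUnion_of_subset le_rfl (le_refl _))
    intro h0
    rw [h0] at hge
    exact (ENNReal.inv_ne_zero.2 ENNReal.coe_ne_top) (le_antisymm hge zero_le)
  · -- Borel-Cantelli
    have h1 : ∑' n, ∫⁻ ω, N n ω ∂P ≠ ∞ := by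
      have h2 : ∑' n, ∫⁻ ω, N n ω ∂P ≤ ∑' n : ℕ, C * ENNReal.ofReal ((κ ^ n)⁻¹) :=
        ENNReal.tsum_le_tsum fun n => (hmom n).2.2.2
      refine ne_top_of_le_ne_top ?_ h2
      rw [ENNReal.tsum_mul_left]
      refine ENNReal.mul_ne_top hC ?_
      have h3 : Summable fun n : ℕ => (κ ^ n)⁻¹ := by
        have : (fun n : ℕ => (κ ^ n)⁻¹) = fun n : ℕ => (κ⁻¹) ^ n := by
          funext n
          rw [inv_pow]
        rw [this]
        exact summable_geometric_of_lt_one (by positivity) (inv_lt_one_of_one_lt₀ hκ)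
      rw [← ENNReal.ofReal_tsum_of_nonneg (fun n => by positivity) h3]
      exact ENNReal.ofReal_ne_top
    rw [← lintegral_tsum (fun n => (hN n).aemeasurable)] at h1
    have h2 := ae_lt_top (Measurable.tsum hN) h1
    filter_upwards [h2] with ω hω
    exact ENNReal.tendsto_atTop_zero_of_tsum_ne_top hω.ne

end Pool.Agent.helper68.HB
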