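import Mathlib

/-! Orientation-preserving real-analytic local diffeomorphism germs of the real line. -/

open Filter Topology Set

namespace Pool.Agent.helper68

/-- `IsADiffAt g a`: the function `g` is real-analytic at `a` and has positive derivative there,
i.e. its germ at `a` is the germ of an orientation-preserving real-analytic local diffeomorphism. -/
def IsADiffAt (g : ℝ → ℝ) (a : ℝ) : Prop := AnalyticAt ℝ g a ∧ 0 < deriv g a

theorem IsADiffAt.eventually {g : ℝ → ℝ} {a : ℝ} (h : IsADiffAt g a) :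
    ∀ᶠ x in 𝓝 a, IsADiffAt g x := by
  have h1 := h.1.eventually_analyticAt
  have h2 : ∀ᶠ x in 𝓝 a, 0 < deriv g x :=
    h.1.deriv.continuousAt.eventually (lt_mem_nhds h.2)
  filter_upwards [h1, h2] with x hx1 hx2 using ⟨hx1, hx2⟩

theorem IsADiffAt.congr {g k : ℝ → ℝ} {a : ℝ} (h : IsADiffAt g a) (e : g =ᶠ[𝓝 a] k) :
    IsADiffAt k a :=
  ⟨h.1.congr e, by rw [← e.deriv_eq]; exact h.2⟩

theorem IsADiffAt.comp {g f : ℝ → ℝ} {a : ℝ} (hg : IsADiffAt g (f a)) (hf : IsADiffAt f a) :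
    IsADiffAt (fun x => g (f x)) a := by
  refine ⟨hg.1.comp hf.1, ?_⟩
  have : deriv (fun x => g (f x)) a = deriv g (f a) * deriv f a :=
    deriv_comp a hg.1.differentiableAt hf.1.differentiableAt
  rw [this]
  exact mul_pos hg.2 hf.2

theorem isADiffAt_id (a : ℝ) : IsADiffAt (fun x => x) a :=
  ⟨analyticAt_id, by simp⟩

theorem IsADiffAt.continuousAt {g : ℝ → ℝ} {a : ℝ} (h : IsADiffAt g a) : ContinuousAt g a :=
  h.1.continuousAt

/-- Local inverse. -/
theorem IsADiffAt.exists_inv {h : ℝ → ℝ} {x : ℝ} (hh : IsADiffAt h x) :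
    ∃ k : ℝ → ℝ, IsADiffAt k (h x) ∧ k (h x) = x ∧ (∀ᶠ y in 𝓝 x, k (h y) = y) ∧
      (∀ᶠ z in 𝓝 (h x), h (k z) = z) := by
  have hne : deriv h x ≠ 0 := hh.2.ne'
  refine ⟨hh.1.hasStrictDerivAt.localInverse _ _ _ hne, ⟨hh.1.analyticAt_localInverse hne, ?_⟩,
    ?_, HasStrictDerivAt.eventually_left_inverse .., HasStrictDerivAt.eventually_right_inverse ..⟩
  · have := (hh.1.hasStrictDerivAt.to_localInverse hne).hasDerivAt.deriv
    rw [this]
    exact inv_pos.2 hh.2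
  · exact (HasStrictDerivAt.eventually_left_inverse hh.1.hasStrictDerivAt hne).self_of_nhds

theorem IsADiffAt.map_nhds {h : ℝ → ℝ} {x : ℝ} (hh : IsADiffAt h x) :
    map h (𝓝 x) = 𝓝 (h x) :=
  hh.1.hasStrictDerivAt.map_nhds_eq hh.2.ne'

theorem strictMonoOn_of_isADiff {h : ℝ → ℝ} {s : Set ℝ} (hs : Convex ℝ s)
    (hh : ∀ y ∈ s, IsADiffAt h y) : StrictMonoOn h s :=
  strictMonoOn_of_deriv_pos hs (fun y hy => (hh y hy).continuousAt.continuousWithinAt)
    (fun y hy => (hh y (interior_subset hy)).2)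

/-- Near any point, an `IsADiffAt` function compares with its value like the identity. -/
theorem IsADiffAt.eventually_sign {h : ℝ → ℝ} {x : ℝ} (hh : IsADiffAt h x) :
    ∀ᶠ y in 𝓝 x, SignType.sign (h y - h x) = SignType.sign (y - x) := by
  obtain ⟨ε, hε, hb⟩ := Metric.eventually_nhds_iff_ball.1 hh.eventually
  have hm : StrictMonoOn h (Metric.ball x ε) := strictMonoOn_of_isADiff (convex_ball x ε) hb
  filter_upwards [Metric.ball_mem_nhds x hε] with y hy
  rcases lt_trichotomy y x with h1 | h1 | h1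
  · have := hm hy (Metric.mem_ball_self hε) h1
    rw [sign_neg (by linarith), sign_neg (by linarith)]
  · subst h1; simp
  · have := hm (Metric.mem_ball_self hε) hy h1
    rw [sign_pos (by linarith), sign_pos (by linarith)]

/-- Inverse on an interval. -/
theorem exists_inv_on {h : ℝ → ℝ} {a b : ℝ} (hab : a < b) (hh : ∀ y ∈ Icc a b, IsADiffAt h y) :
    ∃ k : ℝ → ℝ, (∀ z ∈ Ioo (h a) (h b), IsADiffAt k z ∧ k z ∈ Ioo a b ∧ h (k z) = z) ∧
      (∀ y ∈ Ioo a b, h y ∈ Ioo (h a) (h b) ∧ k (h y) = y) := by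
  have hm : StrictMonoOn h (Icc a b) := strictMonoOn_of_isADiff (convex_Icc a b) hh
  have hinj : InjOn h (Icc a b) := hm.injOn
  have hcont : ContinuousOn h (Icc a b) := fun y hy => (hh y hy).continuousAt.continuousWithinAt
  set k : ℝ → ℝ := Function.invFunOn h (Icc a b) with hk
  have ha : a ∈ Icc a b := left_mem_Icc.2 hab.le
  have hb : b ∈ Icc a b := right_mem_Icc.2 hab.le
  have hleft : ∀ y ∈ Icc a b, k (h y) = y := fun y hy => hinj.leftInvOn_invFunOn hy
  have hmaps : ∀ y ∈ Ioo a b, h y ∈ Ioo (h a) (h b) := fun y hy =>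
    ⟨hm ha (Ioo_subset_Icc_self hy) hy.1, hm (Ioo_subset_Icc_self hy) hb hy.2⟩
  refine ⟨k, ?_, fun y hy => ⟨hmaps y hy, hleft y (Ioo_subset_Icc_self hy)⟩⟩
  intro z hz
  obtain ⟨y, hy, rfl⟩ : z ∈ h '' Icc a b :=
    intermediate_value_Icc hab.le hcont (Ioo_subset_Icc_self hz)
  have hy' : y ∈ Ioo a b := by
    refine ⟨lt_of_le_of_ne hy.1 ?_, lt_of_le_of_ne hy.2 ?_⟩
    · rintro rfl; exact lt_irrefl _ hz.1
    · rintro rfl; exact lt_irrefl _ hz.2
  rw [hleft y hy]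
  refine ⟨?_, hy', rfl⟩
  obtain ⟨k', hk', hk'x, hl, hr⟩ := (hh y hy).exists_inv
  refine hk'.congr ?_
  -- k' = k near h y : every z near h y is h w with w near y
  rw [EventuallyEq, ← (hh y hy).map_nhds, eventually_map]
  filter_upwards [hl, Ioo_mem_nhds hy'.1 hy'.2] with w hw hw2
  rw [hw, hleft w (Ioo_subset_Icc_self hw2)]

/-- Identity theorem on an open interval. -/
theorem eqOn_Ioo_of_eventuallyEq {f g : ℝ → ℝ} {a b x : ℝ} (hx : x ∈ Ioo a b)
    (hf : ∀ y ∈ Ioo a b, AnalyticAt ℝ f y) (hg : ∀ y ∈ Ioo a b, AnalyticAt ℝ g y)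
    (e : f =ᶠ[𝓝 x] g) : ∀ y ∈ Ioo a b, f y = g y :=
  fun _ hy => AnalyticOnNhd.eqOn_of_preconnected_of_eventuallyEq (fun y hy => hf y hy)
    (fun y hy => hg y hy) isPreconnected_Ioo hx e hy

end Pool.Agent.helper68
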