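import Pool.Agent.helper68.ADiff

/-! Simply connected analytic (non-Hausdorff) one-manifolds, presented by complete charts
`ℝ → V` and side functions `σ u v` (on which side of the point `u` the point `v` lies). -/

open Filter Topology Set

namespace Pool.Agent.helper68

structure AnTree where
  V : Type
  C : Set (ℝ → V)
  σ : V → V → SignType
  sigma_zero : ∀ u v, σ u v = 0 ↔ u = v
  compat : ∀ c ∈ C, ∀ c' ∈ C, ∀ x x', c x = c' x' →
    ∃ g : ℝ → ℝ, IsADiffAt g x ∧ g x = x' ∧ ∀ᶠ y in 𝓝 x, c y = c' (g y)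
  line : ∀ c ∈ C, ∀ u, (∃ x, ∀ y, σ u (c y) = SignType.sign (y - x)) ∨
    (∃ s, s ≠ 0 ∧ ∀ y, σ u (c y) = s)
  cont : ∀ c ∈ C, ∀ c' ∈ C, ∀ (g : ℝ → ℝ) (a b x : ℝ), x ∈ Ioo a b →
    (∀ y ∈ Ioo a b, IsADiffAt g y) →
    (∀ᶠ y in 𝓝 x, c y = c' (g y)) → ∀ y ∈ Ioo a b, c y = c' (g y)
  tree : ∀ u v w, u ≠ v → σ v w ≠ σ v u → σ u w = σ u v

namespace AnTree

theorem line' (T : AnTree) {c : ℝ → T.V} (hc : c ∈ T.C) (u : T.V) :
    (∃ x, c x = u ∧ ∀ y, T.σ u (c y) = SignType.sign (y - x)) ∨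
    (∃ s, s ≠ 0 ∧ (∀ y, c y ≠ u) ∧ ∀ y, T.σ u (c y) = s) := by
  rcases T.line c hc u with ⟨x, hx⟩ | ⟨s, hs, h⟩
  · refine Or.inl ⟨x, ?_, hx⟩
    have := hx x
    rw [sub_self, sign_zero, T.sigma_zero] at this
    exact this.symm
  · refine Or.inr ⟨s, hs, ?_, h⟩
    intro y hy
    have := h y
    rw [hy, (T.sigma_zero u u).2 rfl] at this
    exact hs this.symm

theorem inj (T : AnTree) {c : ℝ → T.V} (hc : c ∈ T.C) {x x' : ℝ} (h : c x = c x') : x = x' := by
  rcases T.line' hc (c x) with ⟨z, hz, hz'⟩ | ⟨s, hs, h1, h2⟩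
  · have h1 := hz' x
    have h2 := hz' x'
    rw [(T.sigma_zero _ _).2 rfl] at h1
    rw [← h, (T.sigma_zero _ _).2 rfl] at h2
    have e1 : x - z = 0 := sign_eq_zero_iff.1 h1.symm
    have e2 : x' - z = 0 := sign_eq_zero_iff.1 h2.symm
    linarith
  · exact absurd rfl (h1 x)

theorem cont2 (T : AnTree) {c c' : ℝ → T.V} (hc : c ∈ T.C) (hc' : c' ∈ T.C) {h h' : ℝ → ℝ}
    {α β x : ℝ} (hx : x ∈ Ioo α β) (hh : ∀ y ∈ Ioo α β, IsADiffAt h y)
    (hh' : ∀ y ∈ Ioo α β, IsADiffAt h' y) (e : ∀ᶠ y in 𝓝 x, c (h y) = c' (h' y)) :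
    ∀ y ∈ Ioo α β, c (h y) = c' (h' y) := by
  intro y hy
  obtain ⟨p, hp1, hp2⟩ := exists_between (lt_min hx.1 hy.1)
  obtain ⟨q, hq1, hq2⟩ := exists_between (max_lt hx.2 hy.2)
  have hpx := lt_of_lt_of_le hp2 (min_le_left _ _)
  have hpy := lt_of_lt_of_le hp2 (min_le_right _ _)
  have hqx := lt_of_le_of_lt (le_max_left _ _) hq1
  have hqy := lt_of_le_of_lt (le_max_right _ _) hq1
  have hsub : ∀ z ∈ Icc p q, z ∈ Ioo α β := fun z hz =>
    ⟨lt_of_lt_of_le hp1 hz.1, lt_of_le_of_lt hz.2 hq2⟩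
  obtain ⟨k, hk1, hk2⟩ := exists_inv_on (hpx.trans hqx) (fun z hz => hh z (hsub z hz))
  have hxI := hk2 x ⟨hpx, hqx⟩
  have hyI := hk2 y ⟨hpy, hqy⟩
  have key := T.cont c hc c' hc' (fun z => h' (k z)) (h p) (h q) (h x) hxI.1 ?_ ?_ (h y) hyI.1
  · rw [key, hyI.2]
  · intro z hz
    have := hk1 z hz
    exact IsADiffAt.comp (hh' _ (hsub _ (Ioo_subset_Icc_self this.2.1))) this.1
  · have hkc : Tendsto k (𝓝 (h x)) (𝓝 x) := by
      have := (hk1 (h x) hxI.1).1.continuousAt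
      unfold ContinuousAt at this
      rwa [hxI.2] at this
    filter_upwards [hkc.eventually e, Ioo_mem_nhds hxI.1.1 hxI.1.2] with z hz hz2
    rw [(hk1 z hz2).2.2] at hz
    exact hz

/-- `ψ` is an analytic immersion into `T` near `y`. -/
def Imm (T : AnTree) (ψ : ℝ → T.V) (y : ℝ) : Prop :=
  ∃ c ∈ T.C, ∃ h : ℝ → ℝ, IsADiffAt h y ∧ ∀ᶠ y' in 𝓝 y, ψ y' = c (h y')

theorem Imm.eventually {T : AnTree} {ψ : ℝ → T.V} {y : ℝ} (h : T.Imm ψ y) :
    ∀ᶠ z in 𝓝 y, T.Imm ψ z := by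
  obtain ⟨c, hc, k, hk, e⟩ := h
  filter_upwards [hk.eventually, e.eventually_nhds] with z h1 h2 using ⟨c, hc, k, h1, h2⟩

theorem Imm.congr {T : AnTree} {ψ ψ' : ℝ → T.V} {y : ℝ} (h : T.Imm ψ y)
    (e : ∀ᶠ z in 𝓝 y, ψ z = ψ' z) : T.Imm ψ' y := by
  obtain ⟨c, hc, k, hk, e'⟩ := h
  refine ⟨c, hc, k, hk, ?_⟩
  filter_upwards [e, e'] with z h1 h2
  rw [← h1, h2]

theorem imm_unique (T : AnTree) {ψ ψ' : ℝ → T.V} {α β x : ℝ} (hx : x ∈ Ioo α β)
    (h1 : ∀ y ∈ Ioo α β, T.Imm ψ y) (h2 : ∀ y ∈ Ioo α β, T.Imm ψ' y)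
    (e : ∀ᶠ y in 𝓝 x, ψ y = ψ' y) : ∀ y ∈ Ioo α β, ψ y = ψ' y := by
  have key : Ioo α β ⊆ {y | ∀ᶠ z in 𝓝 y, ψ z = ψ' z} := by
    refine IsPreconnected.subset_left_of_subset_union (v := {y | ∀ᶠ z in 𝓝 y,
      ¬ ∀ᶠ w in 𝓝 z, ψ w = ψ' w}) isOpen_setOfPred_eventually_nhds isOpen_setOfPred_eventually_nhds ?_ ?_
      ⟨x, hx, e⟩ isPreconnected_Ioo
    · rw [Set.disjoint_left]
      intro y hy hy'
      exact hy'.self_of_nhds hy
    · intro y hy
      obtain ⟨c, hc, h, hh, eh⟩ := h1 y hy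
      obtain ⟨c', hc', h', hh', eh'⟩ := h2 y hy
      obtain ⟨ε, hε, hb⟩ := Metric.eventually_nhds_iff_ball.1
        ((hh.eventually.and hh'.eventually).and (eh.eventually_nhds.and eh'.eventually_nhds))
      rw [Real.ball_eq_Ioo] at hb
      by_cases hS : ∃ z ∈ Ioo (y - ε) (y + ε), ∀ᶠ w in 𝓝 z, ψ w = ψ' w
      · left
        obtain ⟨z, hz, hzw⟩ := hS
        have := T.cont2 hc hc' hz (fun w hw => (hb w hw).1.1) (fun w hw => (hb w hw).1.2) (by
          filter_upwards [(hb z hz).2.1, (hb z hz).2.2, hzw] with w a1 a2 a3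
          rw [← a1, ← a2, a3])
        have hyI : Ioo (y - ε) (y + ε) ∈ 𝓝 y := Ioo_mem_nhds (by linarith) (by linarith)
        filter_upwards [hyI, eh, eh'] with w hw e1 e2
        rw [e1, e2, this w hw]
      · right
        have hyI : Ioo (y - ε) (y + ε) ∈ 𝓝 y := Ioo_mem_nhds (by linarith) (by linarith)
        filter_upwards [hyI] with w hw
        intro hcon
        exact hS ⟨w, hw, hcon⟩
  intro y hy
  exact (key hy).self_of_nhds

theorem Imm.local_sign {T : AnTree} {ψ : ℝ → T.V} {y : ℝ} (h : T.Imm ψ y) (u : T.V) :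
    (∃ t : SignType, t ≠ 0 ∧ ∀ᶠ z in 𝓝 y, T.σ u (ψ z) = t) ∨
      (∀ᶠ z in 𝓝 y, T.σ u (ψ z) = SignType.sign (z - y)) := by
  obtain ⟨c, hc, k, hk, e⟩ := h
  rcases T.line c hc u with ⟨x, hx⟩ | ⟨s, hs, h⟩
  · rcases lt_trichotomy (k y) x with hlt | heq | hgt
    · left
      refine ⟨-1, by decide, ?_⟩
      filter_upwards [e, hk.continuousAt.eventually (gt_mem_nhds hlt)] with z h1 h2
      rw [h1, hx, sign_neg (by linarith)]
    · right
      filter_upwards [e, hk.eventually_sign] with z h1 h2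
      rw [h1, hx, ← heq, h2]
    · left
      refine ⟨1, by decide, ?_⟩
      filter_upwards [e, hk.continuousAt.eventually (lt_mem_nhds hgt)] with z h1 h2
      rw [h1, hx, sign_pos (by linarith)]
  · left
    refine ⟨s, hs, ?_⟩
    filter_upwards [e] with z h1
    rw [h1, h]

end AnTree

/-- after a zero, a local sign function is equal to one. -/
theorem sign_after {s : ℝ → SignType} {x y : ℝ} (hxy : x < y)
    (hloc : ∀ z ∈ Icc x y, (∃ t : SignType, t ≠ 0 ∧ ∀ᶠ w in 𝓝 z, s w = t) ∨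
      (∀ᶠ w in 𝓝 z, s w = SignType.sign (w - z))) (hx : s x = 0) : s y = 1 := by
  set S : Set ℝ := {z | z ∈ Icc x y ∧ ∀ w ∈ Ioc x z, s w = 1} with hS
  have hxS : x ∈ S := ⟨left_mem_Icc.2 hxy.le, fun w hw => absurd hw.1 (not_lt.2 hw.2)⟩
  have hbdd : BddAbove S := ⟨y, fun z hz => hz.1.2⟩
  set m := sSup S with hm
  have hxm : x ≤ m := le_csSup hbdd hxS
  have hmy : m ≤ y := csSup_le ⟨x, hxS⟩ (fun z hz => hz.1.2)
  have hlt : ∀ w, x < w → w < m → s w = 1 := by
    intro w hw hwm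
    obtain ⟨z, hz, hwz⟩ := exists_lt_of_lt_csSup ⟨x, hxS⟩ hwm
    exact hz.2 w ⟨hw, hwz.le⟩
  -- extension principle
  have hext : ∀ ε > 0, (∀ w, m < w → w < m + ε → s w = 1) → s m = 1 ∨ m = x → m = y := by
    intro ε hε h1 h2
    by_contra hne
    have hmy' : m < y := lt_of_le_of_ne hmy hne
    have hmem : min (m + ε / 2) y ∈ S := by
      refine ⟨⟨le_min (by linarith) hxy.le, min_le_right _ _⟩, ?_⟩
      intro w hw
      rcases lt_trichotomy w m with h | h | h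
      · exact hlt w hw.1 h
      · rcases h2 with h2 | h2
        · rw [h]; exact h2
        · exfalso; rw [h2] at h; exact absurd hw.1 (by rw [h]; exact lt_irrefl _)
      · exact h1 w h (by have := hw.2.trans (min_le_left _ _); linarith)
    have h3 := le_csSup hbdd hmem
    have h4 : m < min (m + ε / 2) y := lt_min (by linarith) hmy'
    exact absurd h3 (not_le.2 h4)
  rcases hloc m ⟨hxm, hmy⟩ with ⟨t, ht, he⟩ | he
  · obtain ⟨ε, hε, hb⟩ := Metric.eventually_nhds_iff_ball.1 he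
    rw [Real.ball_eq_Ioo] at hb
    have hsm : s m = t := hb m ⟨by linarith, by linarith⟩
    rcases eq_or_lt_of_le hxm with h | h
    · exfalso
      rw [← h, hx] at hsm
      exact ht hsm.symm
    · have ht1 : t = 1 := by
        obtain ⟨w, hw1, hw2⟩ := exists_between (max_lt h (show m - ε < m by linarith))
        rw [← hb w ⟨lt_of_le_of_lt (le_max_right _ _) hw1, by linarith⟩]
        exact hlt w (lt_of_le_of_lt (le_max_left _ _) hw1) hw2
      rw [ht1] at hsm hb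
      have := hext ε hε (fun w h1 h2 => hb w ⟨by linarith, h2⟩) (Or.inl hsm)
      rw [← this]; exact hsm
  · obtain ⟨ε, hε, hb⟩ := Metric.eventually_nhds_iff_ball.1 he
    rw [Real.ball_eq_Ioo] at hb
    rcases eq_or_lt_of_le hxm with h | h
    · have := hext ε hε (fun w h1 h2 => by
        rw [hb w ⟨by linarith, h2⟩, sign_pos (by linarith)]) (Or.inr h.symm)
      rw [this] at h
      exact absurd h (ne_of_lt hxy)
    · exfalso
      obtain ⟨w, hw1, hw2⟩ := exists_between (max_lt h (show m - ε < m by linarith))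
      have h1 := hb w ⟨lt_of_le_of_lt (le_max_right _ _) hw1, by linarith⟩
      have h2 := hlt w (lt_of_le_of_lt (le_max_left _ _) hw1) hw2
      rw [h2, sign_neg (by linarith)] at h1
      exact absurd h1 (by decide)

theorem sign_before {s : ℝ → SignType} {x y : ℝ} (hxy : y < x)
    (hloc : ∀ z ∈ Icc y x, (∃ t : SignType, t ≠ 0 ∧ ∀ᶠ w in 𝓝 z, s w = t) ∨
      (∀ᶠ w in 𝓝 z, s w = SignType.sign (w - z))) (hx : s x = 0) : s y = -1 := by
  have key := sign_after (s := fun w => - s (-w)) (x := -x) (y := -y) (by linarith) ?_ (by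
    simp [hx])
  · simp only [neg_neg] at key
    have : s y = - - s y := by simp
    rw [this, key]
  · intro z hz
    have hz' : -z ∈ Icc y x := ⟨by linarith [hz.2], by linarith [hz.1]⟩
    have hneg : Tendsto (fun w : ℝ => -w) (𝓝 z) (𝓝 (-z)) := (continuous_neg.tendsto z)
    rcases hloc (-z) hz' with ⟨t, ht, he⟩ | he
    · left
      refine ⟨-t, by simpa using ht, ?_⟩
      filter_upwards [hneg.eventually he] with w hw
      rw [hw]
    · right
      filter_upwards [hneg.eventually he] with w hw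
      rw [hw, show -w - -z = -(w - z) by ring, Left.sign_neg, neg_neg]

/-- Global form of a local sign function on an interval. -/
theorem sign_global {s : ℝ → SignType} {U : Set ℝ} (hU : U.OrdConnected) {a : ℝ} (ha : a ∈ U)
    (hloc : ∀ z ∈ U, (∃ t : SignType, t ≠ 0 ∧ ∀ᶠ w in 𝓝 z, s w = t) ∨
      (∀ᶠ w in 𝓝 z, s w = SignType.sign (w - z))) :
    (∃ x ∈ U, ∀ y ∈ U, s y = SignType.sign (y - x)) ∨ (s a ≠ 0 ∧ ∀ y ∈ U, s y = s a) := by
  by_cases hz : ∃ x ∈ U, s x = 0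
  · left
    obtain ⟨x, hxU, hx⟩ := hz
    refine ⟨x, hxU, fun y hy => ?_⟩
    rcases lt_trichotomy y x with h | h | h
    · rw [sign_before h (fun z hz => hloc z (hU.out hy hxU hz)) hx, sign_neg (by linarith)]
    · rw [h, hx]; simp
    · rw [sign_after h (fun z hz => hloc z (hU.out hxU hy hz)) hx, sign_pos (by linarith)]
  · right
    push Not at hz
    refine ⟨hz a ha, fun y hy => ?_⟩
    refine hU.isPreconnected.constant (f := s) ?_ hy ha
    intro z hz'
    rcases hloc z hz' with ⟨t, ht, he⟩ | he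
    · refine ContinuousAt.continuousWithinAt ?_
      have h0 : s z = t := he.self_of_nhds
      refine (continuousAt_const (y := t)).congr ?_
      filter_upwards [he] with w hw using hw.symm
    · exfalso
      have := he.self_of_nhds
      rw [sub_self, sign_zero] at this
      exact hz z hz' this

end Pool.Agent.helper68
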