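import Pool.Agent.helper68.AnTree

/-! Cusps in analytic trees and the counting argument. -/

open Filter Topology Set

namespace Pool.Agent.helper68
namespace AnTree

variable (T : AnTree)

/-- reverse the orientation. -/
def neg : AnTree where
  V := T.V
  C := {c | (fun x => c (-x)) ∈ T.C}
  σ u v := - T.σ u v
  sigma_zero u v := by
    rw [← T.sigma_zero]
    constructor
    · intro h
      have : T.σ u v = - - T.σ u v := by simp
      rw [this, h]; rfl
    · intro h; rw [h]; rfl
  compat := by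
    intro c hc c' hc' x x' h
    obtain ⟨g, hg, hgx, hge⟩ := T.compat _ hc _ hc' (-x) (-x') (by simpa using h)
    refine ⟨fun y => -g (-y), ?_, by simp [hgx], ?_⟩
    · refine ⟨?_, ?_⟩
      · have : AnalyticAt ℝ (fun y : ℝ => -y) x := analyticAt_id.neg
        exact (AnalyticAt.fun_comp (f := fun y : ℝ => -y) (g := g) hg.1 this).neg
      · have h1 : HasDerivAt g (deriv g (-x)) (-x) := hg.1.differentiableAt.hasDerivAt
        have h2 : HasDerivAt (fun y : ℝ => -y) (-1) x := (hasDerivAt_id x).neg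
        have h3 := (HasDerivAt.comp (h₂ := g) (h := fun y : ℝ => -y) x h1 h2).neg
        have h4 : HasDerivAt (fun y : ℝ => -g (-y)) (-(deriv g (-x) * -1)) x := h3
        rw [h4.deriv]
        have := hg.2
        linarith
    · have hneg : Tendsto (fun w : ℝ => -w) (𝓝 x) (𝓝 (-x)) := continuous_neg.tendsto x
      filter_upwards [hneg.eventually hge] with y hy
      simpa using hy
  line := by
    intro c hc u
    rcases T.line _ hc u with ⟨x, hx⟩ | ⟨s, hs, h⟩
    · refine Or.inl ⟨-x, fun y => ?_⟩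
      have := hx (-y)
      simp only [neg_neg] at this
      rw [this, ← Left.sign_neg]
      congr 1; ring
    · refine Or.inr ⟨-s, by simpa using hs, fun y => ?_⟩
      have := h (-y)
      simp only [neg_neg] at this
      rw [this]
  cont := by
    intro c hc c' hc' g a b x hx hg e y hy
    have key := T.cont _ hc _ hc' (fun y => -g (-y)) (-b) (-a) (-x)
      ⟨by linarith [hx.2], by linarith [hx.1]⟩ ?_ ?_ (-y) ⟨by linarith [hy.2], by linarith [hy.1]⟩
    · simpa using key
    · intro y hy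
      have hgy := hg (-y) ⟨by linarith [hy.2], by linarith [hy.1]⟩
      refine ⟨?_, ?_⟩
      · have : AnalyticAt ℝ (fun y : ℝ => -y) y := analyticAt_id.neg
        exact (AnalyticAt.fun_comp (f := fun y : ℝ => -y) (g := g) hgy.1 this).neg
      · have h1 : HasDerivAt g (deriv g (-y)) (-y) := hgy.1.differentiableAt.hasDerivAt
        have h2 : HasDerivAt (fun y : ℝ => -y) (-1) y := (hasDerivAt_id y).neg
        have h3 := (HasDerivAt.comp (h₂ := g) (h := fun y : ℝ => -y) y h1 h2).neg
        have h4 : HasDerivAt (fun y : ℝ => -g (-y)) (-(deriv g (-y) * -1)) y := h3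
        rw [h4.deriv]
        have := hgy.2
        linarith
    · have hneg : Tendsto (fun w : ℝ => -w) (𝓝 (-x)) (𝓝 x) := by
        have := continuous_neg.tendsto (-x)
        rwa [neg_neg] at this
      filter_upwards [hneg.eventually e] with y hy
      simpa using hy
  tree := by
    intro u v w hne h
    have : T.σ v w ≠ T.σ v u := fun h' => h (by rw [h'])
    rw [T.tree u v w hne this]

variable {T}

/-- A cusp: two charts `c`, `c'` with `c' x = c (x²)` for `x > 0`. -/
theorem cusp_pos_right {c c' : ℝ → T.V} (hc : c ∈ T.C) (hc' : c' ∈ T.C)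
    (h : ∀ x > 0, c' x = c (x ^ 2)) (y : ℝ) : T.σ (c 0) (c' y) = 1 := by
  rcases T.line' hc' (c 0) with ⟨x0, hx0, hs⟩ | ⟨s, hs, h1, h2⟩
  · exfalso
    obtain ⟨g, hg, hg0, hge⟩ := T.compat c' hc' c hc x0 0 hx0
    rcases lt_trichotomy x0 0 with hlt | heq | hgt
    · -- x0 < 0
      have h3 : ∀ᶠ y in 𝓝[>] x0, SignType.sign (g y - g x0) = SignType.sign (y - x0) :=
        mem_nhdsWithin_of_mem_nhds hg.eventually_sign
      have h4 : ∀ᶠ y in 𝓝[>] x0, c' y = c (g y) := mem_nhdsWithin_of_mem_nhds hge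
      have h5 : ∀ᶠ y in 𝓝[>] x0, y < 0 := mem_nhdsWithin_of_mem_nhds (gt_mem_nhds hlt)
      obtain ⟨z, hz1, hz2, hz3, hz4⟩ := (h3.and (h4.and (h5.and self_mem_nhdsWithin))).exists
      have hz4' : x0 < z := hz4
      rw [hg0, sub_zero, sign_pos (show (0:ℝ) < z - x0 by linarith)] at hz1
      have hgpos : 0 < g z := sign_eq_one_iff.1 hz1
      have h6 := h (√(g z)) (Real.sqrt_pos.2 hgpos)
      rw [Real.sq_sqrt hgpos.le, ← hz2] at h6
      have := T.inj hc' h6
      linarith [Real.sqrt_pos.2 hgpos]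
    · -- x0 = 0
      subst heq
      have hd : HasDerivAt g (deriv g 0) 0 := hg.1.differentiableAt.hasDerivAt
      have hd1 : HasDerivWithinAt g (deriv g 0) (Ioi 0) 0 := hd.hasDerivWithinAt
      have hd2 : HasDerivWithinAt (fun y : ℝ => y ^ 2) 0 (Ioi 0) 0 := by
        have := (hasDerivAt_pow 2 (0 : ℝ)).hasDerivWithinAt (s := Ioi 0)
        simpa using this
      have he : ∀ᶠ y in 𝓝[>] (0 : ℝ), g y = y ^ 2 := by
        filter_upwards [mem_nhdsWithin_of_mem_nhds hge, self_mem_nhdsWithin] with y hy hy0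
        have := h y hy0
        rw [hy] at this
        exact T.inj hc this
      have hd3 : HasDerivWithinAt g 0 (Ioi 0) 0 := hd2.congr_of_eventuallyEq he (by simp [hg0])
      have := (uniqueDiffWithinAt_Ioi (0 : ℝ)).eq_deriv _ hd1 hd3
      have := hg.2
      linarith
    · -- x0 > 0
      have := h x0 hgt
      rw [hx0] at this
      have := T.inj hc this
      have := pow_pos hgt 2
      linarith
  · rw [h2 y, ← h2 1, h 1 one_pos]
    rcases T.line' hc (c 0) with ⟨x0, hx0, hs'⟩ | ⟨s', hs', h1', h2'⟩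
    · have := T.inj hc hx0
      rw [hs', this, sign_pos]; norm_num
    · exact absurd rfl (h1' 0)

theorem cusp_pos_left {c c' : ℝ → T.V} (hc : c ∈ T.C) (hc' : c' ∈ T.C)
    (h : ∀ x > 0, c' x = c (x ^ 2)) (y : ℝ) : T.σ (c' 0) (c y) = 1 := by
  have hsq : ∀ x > 0, c x = c' (√x) := by
    intro x hx
    rw [h _ (Real.sqrt_pos.2 hx), Real.sq_sqrt hx.le]
  rcases T.line' hc (c' 0) with ⟨x0, hx0, hs⟩ | ⟨s, hs, h1, h2⟩
  · exfalso
    obtain ⟨g, hg, hg0, hge⟩ := T.compat c hc c' hc' x0 0 hx0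
    rcases lt_trichotomy x0 0 with hlt | heq | hgt
    · have h3 : ∀ᶠ y in 𝓝[>] x0, SignType.sign (g y - g x0) = SignType.sign (y - x0) :=
        mem_nhdsWithin_of_mem_nhds hg.eventually_sign
      have h4 : ∀ᶠ y in 𝓝[>] x0, c y = c' (g y) := mem_nhdsWithin_of_mem_nhds hge
      have h5 : ∀ᶠ y in 𝓝[>] x0, y < 0 := mem_nhdsWithin_of_mem_nhds (gt_mem_nhds hlt)
      obtain ⟨z, hz1, hz2, hz3, hz4⟩ := (h3.and (h4.and (h5.and self_mem_nhdsWithin))).exists
      have hz4' : x0 < z := hz4
      rw [hg0, sub_zero, sign_pos (show (0:ℝ) < z - x0 by linarith)] at hz1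
      have hgpos : 0 < g z := sign_eq_one_iff.1 hz1
      have h6 := h (g z) hgpos
      rw [← hz2] at h6
      have := T.inj hc h6
      have := pow_pos hgpos 2
      linarith
    · subst heq
      have hd : HasDerivAt g (deriv g 0) 0 := hg.1.differentiableAt.hasDerivAt
      have hd1 : HasDerivWithinAt (fun y => g y ^ 2) 0 (Ioi 0) 0 := by
        have h8 := (hd.mul hd).hasDerivWithinAt (s := Ioi 0)
        rw [hg0, mul_zero, zero_mul, add_zero] at h8
        refine h8.congr_of_eventuallyEq (Eventually.of_forall fun y => ?_) ?_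
        · simp [sq]
        · simp [sq]
      have hd2 : HasDerivWithinAt (fun y : ℝ => y) 1 (Ioi 0) 0 :=
        (hasDerivAt_id (0 : ℝ)).hasDerivWithinAt
      have he : ∀ᶠ y in 𝓝[>] (0 : ℝ), y = g y ^ 2 := by
        filter_upwards [mem_nhdsWithin_of_mem_nhds hge, self_mem_nhdsWithin] with y hy hy0
        have h7 := hsq y hy0
        rw [hy] at h7
        rw [T.inj hc' h7, Real.sq_sqrt (le_of_lt hy0)]
      have hd3 : HasDerivWithinAt (fun y : ℝ => y) 0 (Ioi 0) 0 :=
        hd1.congr_of_eventuallyEq he (by simp [hg0])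
      have := (uniqueDiffWithinAt_Ioi (0 : ℝ)).eq_deriv _ hd2 hd3
      norm_num at this
    · have := hsq x0 hgt
      rw [hx0] at this
      have := T.inj hc' this
      linarith [Real.sqrt_pos.2 hgt]
  · rw [h2 y, ← h2 1]
    have h11 := h 1 one_pos
    rw [one_pow] at h11
    rw [← h11]
    rcases T.line' hc' (c' 0) with ⟨x0, hx0, hs'⟩ | ⟨s', hs', h1', h2'⟩
    · have := T.inj hc' hx0
      rw [hs', this, sign_pos]; norm_num
    · exact absurd rfl (h1' 0)

theorem cusp_neg_right {c c' : ℝ → T.V} (hc : c ∈ T.C) (hc' : c' ∈ T.C)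
    (h : ∀ x < 0, c' x = c (-(x ^ 2))) (y : ℝ) : T.σ (c 0) (c' y) = -1 := by
  have key := cusp_pos_right (T := T.neg) (c := fun x => c (-x)) (c' := fun x => c' (-x))
    (by show (fun x => c (- -x)) ∈ T.C; simpa using hc)
    (by show (fun x => c' (- -x)) ∈ T.C; simpa using hc')
    (fun x hx => by
      show c' (-x) = c (-(x ^ 2))
      rw [h (-x) (by linarith), neg_sq]) (-y)
  have key' : - T.σ (c (-0)) (c' (- -y)) = 1 := key
  rw [neg_zero, neg_neg] at key'
  have : T.σ (c 0) (c' y) = - - T.σ (c 0) (c' y) := by simp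
  rw [this, key']

theorem cusp_neg_left {c c' : ℝ → T.V} (hc : c ∈ T.C) (hc' : c' ∈ T.C)
    (h : ∀ x < 0, c' x = c (-(x ^ 2))) (y : ℝ) : T.σ (c' 0) (c y) = -1 := by
  have key := cusp_pos_left (T := T.neg) (c := fun x => c (-x)) (c' := fun x => c' (-x))
    (by show (fun x => c (- -x)) ∈ T.C; simpa using hc)
    (by show (fun x => c' (- -x)) ∈ T.C; simpa using hc')
    (fun x hx => by
      show c' (-x) = c (-(x ^ 2))
      rw [h (-x) (by linarith), neg_sq]) (-y)
  have key' : - T.σ (c' (-0)) (c (- -y)) = 1 := key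
  rw [neg_zero, neg_neg] at key'
  have : T.σ (c' 0) (c y) = - - T.σ (c' 0) (c y) := by simp
  rw [this, key']

/-- monotone relation between two points -/
def Up (v v' : T.V) : Prop := ∀ u, T.σ u v ≤ T.σ u v'

def Step (v v' : T.V) : Prop := T.Up v v' ∨ T.Up v' v

theorem Up.trans {v v' v'' : T.V} (h : T.Up v v') (h' : T.Up v' v'') : T.Up v v'' :=
  fun u => (h u).trans (h' u)

theorem Up.refl (v : T.V) : T.Up v v := fun _ => le_rfl

theorem up_of_le {c : ℝ → T.V} (hc : c ∈ T.C) {x y : ℝ} (h : x ≤ y) : T.Up (c x) (c y) := by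
  intro u
  rcases T.line c hc u with ⟨z, hz⟩ | ⟨s, hs, h1⟩
  · rw [hz, hz]
    exact SignType.sign.monotone (by linarith)
  · rw [h1, h1]

theorem step_chart {c : ℝ → T.V} (hc : c ∈ T.C) (x y : ℝ) : T.Step (c x) (c y) := by
  rcases le_total x y with h | h
  · exact Or.inl (up_of_le hc h)
  · exact Or.inr (up_of_le hc h)

theorem sign_aux1 : ∀ s1 s2 s3 : SignType, s1 ≠ s3 → s2 ≠ -s3 → s3 ≠ 0 → s1 ≤ s3 → s2 ≤ -s3 →
    False := by
  intro s1 s2 s3
  cases s1 <;> cases s2 <;> cases s3 <;> simp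

theorem sign_aux2 : ∀ s1 s2 s3 : SignType, s1 ≠ s3 → s2 ≠ -s3 → s3 ≠ 0 → s3 ≤ s1 → -s3 ≤ s2 →
    False := by
  intro s1 s2 s3
  cases s1 <;> cases s2 <;> cases s3 <;> simp

/-- signs `(-1)^q` -/
def eps (q : ℕ) : SignType := if Even q then 1 else -1

theorem eps_succ (q : ℕ) : eps (q + 1) = - eps q := by
  unfold eps
  by_cases h : Even q
  · rw [if_pos h, if_neg (by rw [Nat.even_add_one]; exact fun h' => h' h)]
  · rw [if_neg h, if_pos (Nat.even_add_one.2 h)]; rfl

theorem eps_ne_zero (q : ℕ) : eps q ≠ 0 := by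
  unfold eps; split_ifs <;> decide

/-- The counting argument: along a zigzag `z 0, z 1, …` of genuine cusps, a monotone step passes
at most one cusp. -/
theorem zigzag_step {z : ℕ → T.V} {K : ℕ}
    (h1 : ∀ q < K, T.σ (z q) (z (q + 1)) = eps q)
    (h2 : ∀ q < K, T.σ (z (q + 1)) (z q) = eps q)
    {m : ℕ} (hm : m + 1 ≤ K) {v v' : T.V} (hs : T.Step v v')
    (hv : T.σ (z m) v ≠ eps m) : T.σ (z (m + 1)) v' ≠ eps (m + 1) := by
  have hprev : ∀ w, T.σ (z (m + 1)) w = eps (m + 1) → T.σ (z m) w = eps m := by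
    intro w hw
    rw [← h1 m (by omega)]
    refine T.tree (z m) (z (m + 1)) w ?_ ?_
    · intro h
      have := h1 m (by omega)
      rw [h, (T.sigma_zero _ _).2 rfl] at this
      exact eps_ne_zero m this.symm
    · rw [hw, h2 m (by omega), eps_succ]
      intro h
      have := eps_ne_zero m
      revert h this
      generalize eps m = s
      revert s; decide
  intro hv'
  have hv1 : T.σ (z (m + 1)) v ≠ eps (m + 1) := fun h => hv (hprev v h)
  have hv2 := hprev v' hv'
  rw [eps_succ] at hv' hv1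
  rcases hs with hs | hs
  · have a1 := hs (z m)
    have a2 := hs (z (m + 1))
    rw [hv2] at a1
    rw [hv'] at a2
    exact sign_aux1 _ _ _ hv hv1 (eps_ne_zero m) a1 a2
  · have a1 := hs (z m)
    have a2 := hs (z (m + 1))
    rw [hv2] at a1
    rw [hv'] at a2
    exact sign_aux2 _ _ _ hv hv1 (eps_ne_zero m) a1 a2

end AnTree
end Pool.Agent.helper68
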