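import Pool.Agent.helper68.AnTree

/-! Extension of an analytic tree by a new complete line glued maximally along a germ. -/

open Filter Topology Set

namespace Pool.Agent.helper68
namespace AnTree

variable (T : AnTree) (c0 : ℝ → T.V) (g0 : ℝ → ℝ) (a : ℝ)

def Good (α β : ℝ) (ψ : ℝ → T.V) : Prop :=
  a ∈ Ioo α β ∧ (∀ y ∈ Ioo α β, T.Imm ψ y) ∧ ∀ᶠ y in 𝓝 a, ψ y = c0 (g0 y)

def dom : Set ℝ := {y | ∃ α β ψ, T.Good c0 g0 a α β ψ ∧ y ∈ Ioo α β}

open Classical in
noncomputable def dev (y : ℝ) : T.V :=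
  if h : ∃ α β ψ, T.Good c0 g0 a α β ψ ∧ y ∈ Ioo α β then h.choose_spec.choose_spec.choose y
  else c0 0

variable {T c0 g0 a}

theorem good_unique {α β α' β' : ℝ} {ψ ψ' : ℝ → T.V} (h : T.Good c0 g0 a α β ψ)
    (h' : T.Good c0 g0 a α' β' ψ') {y : ℝ} (hy : y ∈ Ioo α β) (hy' : y ∈ Ioo α' β') :
    ψ y = ψ' y := by
  refine T.imm_unique (x := a) (α := max α α') (β := min β β')
    ⟨max_lt h.1.1 h'.1.1, lt_min h.1.2 h'.1.2⟩ ?_ ?_ ?_ y
    ⟨max_lt hy.1 hy'.1, lt_min hy.2 hy'.2⟩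
  · intro z hz
    exact h.2.1 z ⟨lt_of_le_of_lt (le_max_left _ _) hz.1, lt_of_lt_of_le hz.2 (min_le_left _ _)⟩
  · intro z hz
    exact h'.2.1 z ⟨lt_of_le_of_lt (le_max_right _ _) hz.1,
      lt_of_lt_of_le hz.2 (min_le_right _ _)⟩
  · filter_upwards [h.2.2, h'.2.2] with z h1 h2
    rw [h1, h2]

theorem dev_eq {α β : ℝ} {ψ : ℝ → T.V} (h : T.Good c0 g0 a α β ψ) {y : ℝ} (hy : y ∈ Ioo α β) :
    T.dev c0 g0 a y = ψ y := by
  have hex : ∃ α β ψ, T.Good c0 g0 a α β ψ ∧ y ∈ Ioo α β := ⟨α, β, ψ, h, hy⟩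
  unfold dev
  rw [dif_pos hex]
  have hs := hex.choose_spec.choose_spec.choose_spec
  exact good_unique hs.1 h hs.2 hy

theorem dom_open : IsOpen (T.dom c0 g0 a) := by
  rw [isOpen_iff_mem_nhds]
  rintro y ⟨α, β, ψ, h, hy⟩
  filter_upwards [Ioo_mem_nhds hy.1 hy.2] with z hz using ⟨α, β, ψ, h, hz⟩

theorem dom_ordConnected : (T.dom c0 g0 a).OrdConnected := by
  have hb : ∀ y ∈ T.dom c0 g0 a, ∀ z, (a ≤ z ∧ z ≤ y) ∨ (y ≤ z ∧ z ≤ a) → z ∈ T.dom c0 g0 a := by
    rintro y ⟨α, β, ψ, h, hy⟩ z hz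
    refine ⟨α, β, ψ, h, ?_⟩
    rcases hz with hz | hz
    · exact ⟨lt_of_lt_of_le h.1.1 hz.1, lt_of_le_of_lt hz.2 hy.2⟩
    · exact ⟨lt_of_lt_of_le hy.1 hz.1, lt_of_le_of_lt hz.2 h.1.2⟩
  refine ⟨fun x hx y hy z hz => ?_⟩
  rcases le_total a z with h | h
  · exact hb y hy z (Or.inl ⟨h, hz.2⟩)
  · exact hb x hx z (Or.inr ⟨hz.1, h⟩)

theorem mem_dom (hc0 : c0 ∈ T.C) (hg0 : IsADiffAt g0 a) : a ∈ T.dom c0 g0 a := by
  obtain ⟨ε, hε, hb⟩ := Metric.eventually_nhds_iff_ball.1 hg0.eventually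
  rw [Real.ball_eq_Ioo] at hb
  refine ⟨a - ε, a + ε, fun y => c0 (g0 y), ⟨⟨by linarith, by linarith⟩, ?_, ?_⟩,
    ⟨by linarith, by linarith⟩⟩
  · intro y hy
    exact ⟨c0, hc0, g0, hb y hy, Eventually.of_forall fun _ => rfl⟩
  · exact Eventually.of_forall fun _ => rfl

theorem dev_imm {y : ℝ} (hy : y ∈ T.dom c0 g0 a) : T.Imm (T.dev c0 g0 a) y := by
  obtain ⟨α, β, ψ, h, hy⟩ := hy
  refine (h.2.1 y hy).congr ?_
  filter_upwards [Ioo_mem_nhds hy.1 hy.2] with z hz
  rw [dev_eq h hz]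

theorem dev_near (hc0 : c0 ∈ T.C) (hg0 : IsADiffAt g0 a) :
    ∀ᶠ y in 𝓝 a, T.dev c0 g0 a y = c0 (g0 y) := by
  obtain ⟨α, β, ψ, h, hy⟩ := mem_dom hc0 hg0
  filter_upwards [Ioo_mem_nhds hy.1 hy.2, h.2.2] with z hz h2
  rw [dev_eq h hz, h2]

/-- maximality: an immersion on an interval that agrees with `dev` somewhere is part of it. -/
theorem dev_max {ψ : ℝ → T.V} {α β x : ℝ} (hx : x ∈ Ioo α β) (hxd : x ∈ T.dom c0 g0 a)
    (hψ : ∀ y ∈ Ioo α β, T.Imm ψ y) (e : ∀ᶠ y in 𝓝 x, T.dev c0 g0 a y = ψ y) :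
    ∀ y ∈ Ioo α β, y ∈ T.dom c0 g0 a ∧ T.dev c0 g0 a y = ψ y := by
  classical
  obtain ⟨α₁, β₁, ψ₁, h₁, hx₁⟩ := hxd
  -- agreement on the overlap
  have hov : ∀ y ∈ Ioo α β, y ∈ Ioo α₁ β₁ → ψ y = ψ₁ y := by
    intro y hy hy1
    refine T.imm_unique (x := x) (α := max α α₁) (β := min β β₁)
      ⟨max_lt hx.1 hx₁.1, lt_min hx.2 hx₁.2⟩ ?_ ?_ ?_ y
      ⟨max_lt hy.1 hy1.1, lt_min hy.2 hy1.2⟩
    · intro z hz
      exact hψ z ⟨lt_of_le_of_lt (le_max_left _ _) hz.1, lt_of_lt_of_le hz.2 (min_le_left _ _)⟩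
    · intro z hz
      exact h₁.2.1 z ⟨lt_of_le_of_lt (le_max_right _ _) hz.1,
        lt_of_lt_of_le hz.2 (min_le_right _ _)⟩
    · filter_upwards [e, Ioo_mem_nhds hx₁.1 hx₁.2] with z h1 h2
      rw [← h1, dev_eq h₁ h2]
  set ψ' : ℝ → T.V := fun y => if y ∈ Ioo α β then ψ y else ψ₁ y with hψ'
  have e1 : ∀ y ∈ Ioo α β, ∀ᶠ z in 𝓝 y, ψ z = ψ' z := by
    intro y hy
    filter_upwards [Ioo_mem_nhds hy.1 hy.2] with z hz
    simp only [hψ']
    rw [if_pos hz]
  have e2 : ∀ y ∈ Ioo α₁ β₁, ∀ᶠ z in 𝓝 y, ψ₁ z = ψ' z := by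
    intro y hy
    filter_upwards [Ioo_mem_nhds hy.1 hy.2] with z hz
    simp only [hψ']
    split_ifs with h
    · exact (hov z h hz).symm
    · rfl
  have hgood : T.Good c0 g0 a (min α α₁) (max β β₁) ψ' := by
    refine ⟨⟨lt_of_le_of_lt (min_le_right _ _) h₁.1.1, lt_of_lt_of_le h₁.1.2 (le_max_right _ _)⟩,
      ?_, ?_⟩
    · intro y hy
      by_cases hyI : y ∈ Ioo α β
      · exact (hψ y hyI).congr (e1 y hyI)
      · have hy1 : y ∈ Ioo α₁ β₁ := by
          rcases le_or_gt y α with h | h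
          · refine ⟨?_, by linarith [hx.1, hx₁.2]⟩
            rcases min_lt_iff.1 hy.1 with h2 | h2
            · linarith
            · exact h2
          · have hβ : β ≤ y := by
              by_contra hcon
              exact hyI ⟨h, not_le.1 hcon⟩
            refine ⟨by linarith [hx.2, hx₁.1], ?_⟩
            rcases lt_max_iff.1 hy.2 with h2 | h2
            · linarith
            · exact h2
        exact (h₁.2.1 y hy1).congr (e2 y hy1)
    · filter_upwards [e2 a h₁.1, h₁.2.2] with z h1 h2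
      rw [← h1, h2]
  intro y hy
  have hyI : y ∈ Ioo (min α α₁) (max β β₁) :=
    ⟨lt_of_le_of_lt (min_le_left _ _) hy.1, lt_of_lt_of_le hy.2 (le_max_left _ _)⟩
  refine ⟨⟨_, _, _, hgood, hyI⟩, ?_⟩
  rw [dev_eq hgood hyI]
  simp only [hψ']
  rw [if_pos hy]

variable (T c0 g0 a)

open Classical in
/-- sign function of the point `u` along the new line. -/
noncomputable def rho (u : T.V) (y : ℝ) : SignType :=
  if h : ∃ x ∈ T.dom c0 g0 a, ∀ y ∈ T.dom c0 g0 a,
      T.σ u (T.dev c0 g0 a y) = SignType.sign (y - x) then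
    SignType.sign (y - h.choose)
  else T.σ u (T.dev c0 g0 a a)

variable {T c0 g0 a}

theorem rho_spec (hc0 : c0 ∈ T.C) (hg0 : IsADiffAt g0 a) (u : T.V) :
    ((∃ x ∈ T.dom c0 g0 a, ∀ y, T.rho c0 g0 a u y = SignType.sign (y - x)) ∨
      (∃ t, t ≠ 0 ∧ ∀ y, T.rho c0 g0 a u y = t)) ∧
    ∀ y ∈ T.dom c0 g0 a, T.rho c0 g0 a u y = T.σ u (T.dev c0 g0 a y) := by
  by_cases h : ∃ x ∈ T.dom c0 g0 a, ∀ y ∈ T.dom c0 g0 a,
      T.σ u (T.dev c0 g0 a y) = SignType.sign (y - x)
  · have e : ∀ y, T.rho c0 g0 a u y = SignType.sign (y - h.choose) := by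
      intro y; unfold rho; rw [dif_pos h]
    refine ⟨Or.inl ⟨h.choose, h.choose_spec.1, e⟩, fun y hy => ?_⟩
    rw [e, h.choose_spec.2 y hy]
  · have e : ∀ y, T.rho c0 g0 a u y = T.σ u (T.dev c0 g0 a a) := by
      intro y; unfold rho; rw [dif_neg h]
    rcases sign_global (s := fun y => T.σ u (T.dev c0 g0 a y)) dom_ordConnected
      (mem_dom hc0 hg0) (fun z hz => (dev_imm hz).local_sign u) with h1 | h1
    · exact absurd h1 h
    · refine ⟨Or.inr ⟨_, h1.1, e⟩, fun y hy => ?_⟩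
      rw [e, h1.2 y hy]

theorem above_dom (ha : a ∈ T.dom c0 g0 a) {y : ℝ} (hy : y ∉ T.dom c0 g0 a) (h : a < y) :
    ∀ z ∈ T.dom c0 g0 a, z < y := by
  intro z hz
  by_contra hcon
  exact hy (dom_ordConnected.out ha hz ⟨h.le, not_lt.1 hcon⟩)

theorem below_dom (ha : a ∈ T.dom c0 g0 a) {y : ℝ} (hy : y ∉ T.dom c0 g0 a) (h : y < a) :
    ∀ z ∈ T.dom c0 g0 a, y < z := by
  intro z hz
  by_contra hcon
  exact hy (dom_ordConnected.out hz ha ⟨not_lt.1 hcon, h.le⟩)

theorem rho_side (hc0 : c0 ∈ T.C) (hg0 : IsADiffAt g0 a) (u : T.V) {x y : ℝ}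
    (h : (∀ z ∈ T.dom c0 g0 a, z < x ∧ z < y) ∨ (∀ z ∈ T.dom c0 g0 a, x < z ∧ y < z)) :
    T.rho c0 g0 a u x = T.rho c0 g0 a u y := by
  rcases (rho_spec hc0 hg0 u).1 with ⟨z, hz, e⟩ | ⟨t, ht, e⟩
  · rw [e, e]
    rcases h with h | h
    · rw [sign_pos (by linarith [(h z hz).1]), sign_pos (by linarith [(h z hz).2])]
    · rw [sign_neg (by linarith [(h z hz).1]), sign_neg (by linarith [(h z hz).2])]
  · rw [e, e]

/-- A point of the domain, common to two signs, standing for a point outside the domain. -/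
theorem rho_proxy (hc0 : c0 ∈ T.C) (hg0 : IsADiffAt g0 a) (u v : T.V) {y : ℝ}
    (hy : y ∉ T.dom c0 g0 a) :
    ∃ z ∈ T.dom c0 g0 a, T.rho c0 g0 a u y = T.σ u (T.dev c0 g0 a z) ∧
      T.rho c0 g0 a v y = T.σ v (T.dev c0 g0 a z) := by
  have ha := mem_dom hc0 hg0
  have hu := rho_spec hc0 hg0 u
  have hv := rho_spec hc0 hg0 v
  -- a point of the domain beyond a given one
  have hup : ∀ p ∈ T.dom c0 g0 a, ∃ z ∈ T.dom c0 g0 a, p < z := by
    intro p hp
    obtain ⟨ε, hε, hb⟩ := Metric.isOpen_iff.1 dom_open p hp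
    exact ⟨p + ε / 2, hb (by rw [Real.ball_eq_Ioo]; constructor <;> linarith), by linarith⟩
  have hdn : ∀ p ∈ T.dom c0 g0 a, ∃ z ∈ T.dom c0 g0 a, z < p := by
    intro p hp
    obtain ⟨ε, hε, hb⟩ := Metric.isOpen_iff.1 dom_open p hp
    exact ⟨p - ε / 2, hb (by rw [Real.ball_eq_Ioo]; constructor <;> linarith), by linarith⟩
  have hne : y ≠ a := fun h => hy (h ▸ ha)
  have hmax : ∀ p ∈ T.dom c0 g0 a, ∀ q ∈ T.dom c0 g0 a, max p q ∈ T.dom c0 g0 a := by
    intro p hp q hq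
    rcases max_choice p q with h | h <;> rw [h] <;> assumption
  have hmin : ∀ p ∈ T.dom c0 g0 a, ∀ q ∈ T.dom c0 g0 a, min p q ∈ T.dom c0 g0 a := by
    intro p hp q hq
    rcases min_choice p q with h | h <;> rw [h] <;> assumption
  -- threshold of u and of v
  obtain ⟨xu, hxu, hxu'⟩ : ∃ x ∈ T.dom c0 g0 a, ∀ z w, (x < z ∧ x < w) ∨ (z < x ∧ w < x) →
      T.rho c0 g0 a u z = T.rho c0 g0 a u w := by
    rcases hu.1 with ⟨x, hx, e⟩ | ⟨t, ht, e⟩
    · refine ⟨x, hx, fun z w h => ?_⟩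
      rw [e, e]
      rcases h with h | h
      · rw [sign_pos (by linarith), sign_pos (by linarith)]
      · rw [sign_neg (by linarith), sign_neg (by linarith)]
    · exact ⟨a, ha, fun z w _ => by rw [e, e]⟩
  obtain ⟨xv, hxv, hxv'⟩ : ∃ x ∈ T.dom c0 g0 a, ∀ z w, (x < z ∧ x < w) ∨ (z < x ∧ w < x) →
      T.rho c0 g0 a v z = T.rho c0 g0 a v w := by
    rcases hv.1 with ⟨x, hx, e⟩ | ⟨t, ht, e⟩
    · refine ⟨x, hx, fun z w h => ?_⟩
      rw [e, e]
      rcases h with h | h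
      · rw [sign_pos (by linarith), sign_pos (by linarith)]
      · rw [sign_neg (by linarith), sign_neg (by linarith)]
    · exact ⟨a, ha, fun z w _ => by rw [e, e]⟩
  rcases lt_or_gt_of_ne hne with h | h
  · obtain ⟨z, hz, hzl⟩ := hdn _ (hmin _ hxu _ hxv)
    have hb := below_dom ha hy h
    refine ⟨z, hz, ?_, ?_⟩
    · rw [← hu.2 z hz]
      exact hxu' _ _ (Or.inr ⟨hb _ hxu, lt_of_lt_of_le hzl (min_le_left _ _)⟩)
    · rw [← hv.2 z hz]
      exact hxv' _ _ (Or.inr ⟨hb _ hxv, lt_of_lt_of_le hzl (min_le_right _ _)⟩)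
  · obtain ⟨z, hz, hzl⟩ := hup _ (hmax _ hxu _ hxv)
    have hb := above_dom ha hy h
    refine ⟨z, hz, ?_, ?_⟩
    · rw [← hu.2 z hz]
      exact hxu' _ _ (Or.inl ⟨hb _ hxu, lt_of_le_of_lt (le_max_left _ _) hzl⟩)
    · rw [← hv.2 z hz]
      exact hxv' _ _ (Or.inl ⟨hb _ hxv, lt_of_le_of_lt (le_max_right _ _) hzl⟩)

variable (T c0 g0 a)

/-- side functions of the extended tree. -/
noncomputable def sigmaX : (T.V ⊕ {y : ℝ // y ∉ T.dom c0 g0 a}) →
    (T.V ⊕ {y : ℝ // y ∉ T.dom c0 g0 a}) → SignType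
  | Sum.inl u, Sum.inl v => T.σ u v
  | Sum.inl u, Sum.inr y => T.rho c0 g0 a u y
  | Sum.inr x, Sum.inl _ => SignType.sign (a - x)
  | Sum.inr x, Sum.inr y => SignType.sign ((y : ℝ) - x)

open Classical in
/-- the new line. -/
noncomputable def newLine (y : ℝ) : T.V ⊕ {y : ℝ // y ∉ T.dom c0 g0 a} :=
  if h : y ∈ T.dom c0 g0 a then Sum.inl (T.dev c0 g0 a y) else Sum.inr ⟨y, h⟩

variable {T c0 g0 a}

theorem newLine_pos {y : ℝ} (h : y ∈ T.dom c0 g0 a) :
    T.newLine c0 g0 a y = Sum.inl (T.dev c0 g0 a y) := by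
  unfold newLine; rw [dif_pos h]

theorem newLine_neg {y : ℝ} (h : y ∉ T.dom c0 g0 a) :
    T.newLine c0 g0 a y = Sum.inr ⟨y, h⟩ := by
  unfold newLine; rw [dif_neg h]

theorem newLine_eq_inl {y : ℝ} {v : T.V} (h : T.newLine c0 g0 a y = Sum.inl v) :
    y ∈ T.dom c0 g0 a ∧ T.dev c0 g0 a y = v := by
  by_cases hy : y ∈ T.dom c0 g0 a
  · rw [newLine_pos hy] at h
    exact ⟨hy, Sum.inl.inj h⟩
  · rw [newLine_neg hy] at h
    exact absurd h (by simp)

theorem sigma_newLine_inl (hc0 : c0 ∈ T.C) (hg0 : IsADiffAt g0 a) (u : T.V) (y : ℝ) :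
    T.sigmaX c0 g0 a (Sum.inl u) (T.newLine c0 g0 a y) = T.rho c0 g0 a u y := by
  by_cases hy : y ∈ T.dom c0 g0 a
  · rw [newLine_pos hy]
    exact ((rho_spec hc0 hg0 u).2 y hy).symm
  · rw [newLine_neg hy]; rfl

theorem sigma_newLine_inr (ha : a ∈ T.dom c0 g0 a) (x : {y : ℝ // y ∉ T.dom c0 g0 a}) (y : ℝ) :
    T.sigmaX c0 g0 a (Sum.inr x) (T.newLine c0 g0 a y) = SignType.sign (y - x) := by
  by_cases hy : y ∈ T.dom c0 g0 a
  · rw [newLine_pos hy]
    show SignType.sign (a - (x : ℝ)) = _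
    rcases lt_trichotomy a (x : ℝ) with h | h | h
    · have := above_dom ha x.2 h y hy
      rw [sign_neg (by linarith), sign_neg (by linarith)]
    · exact absurd (h ▸ ha) x.2
    · have := below_dom ha x.2 h y hy
      rw [sign_pos (by linarith), sign_pos (by linarith)]
  · rw [newLine_neg hy]; rfl

theorem newLine_inj (hc0 : c0 ∈ T.C) (hg0 : IsADiffAt g0 a) {x y : ℝ}
    (h : T.newLine c0 g0 a x = T.newLine c0 g0 a y) : x = y := by
  have ha := mem_dom hc0 hg0
  by_cases hx : x ∈ T.dom c0 g0 a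
  · have h2 := h
    rw [newLine_pos hx] at h2
    obtain ⟨hy, hy'⟩ := newLine_eq_inl h2.symm
    have e1 := (rho_spec hc0 hg0 (T.dev c0 g0 a x)).2 x hx
    have e2 := (rho_spec hc0 hg0 (T.dev c0 g0 a x)).2 y hy
    rw [(T.sigma_zero _ _).2 rfl] at e1
    rw [hy', (T.sigma_zero _ _).2 rfl] at e2
    rcases (rho_spec hc0 hg0 (T.dev c0 g0 a x)).1 with ⟨z, hz, e⟩ | ⟨t, ht, e⟩
    · rw [e] at e1 e2
      have e3 := sign_eq_zero_iff.1 e1
      have e4 := sign_eq_zero_iff.1 e2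
      linarith
    · rw [e] at e1
      exact absurd e1 ht
  · rw [newLine_neg hx] at h
    by_cases hy : y ∈ T.dom c0 g0 a
    · rw [newLine_pos hy] at h
      exact absurd h (by simp)
    · rw [newLine_neg hy] at h
      have := Sum.inr.inj h
      exact congrArg Subtype.val this

/-- **Extension.** -/
theorem exists_extend (T : AnTree) {c0 : ℝ → T.V} (hc0 : c0 ∈ T.C) {g0 : ℝ → ℝ} {a : ℝ}
    (hg0 : IsADiffAt g0 a) :
    ∃ (T' : AnTree) (ι : T.V → T'.V), (∀ c ∈ T.C, (fun x => ι (c x)) ∈ T'.C) ∧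
      ∃ l ∈ T'.C, ∀ᶠ y in 𝓝 a, l y = ι (c0 (g0 y)) := by
  have ha : a ∈ T.dom c0 g0 a := mem_dom hc0 hg0
  have hne : ∀ x : {y : ℝ // y ∉ T.dom c0 g0 a}, a ≠ x := fun x h => x.2 (h ▸ ha)
  -- the chart comparison used twice
  have hcontL : ∀ c ∈ T.C, ∀ (g : ℝ → ℝ) (α β x : ℝ), x ∈ Ioo α β →
      (∀ y ∈ Ioo α β, IsADiffAt g y) →
      (∀ᶠ y in 𝓝 x, T.newLine c0 g0 a y = Sum.inl (c (g y))) →
      ∀ y ∈ Ioo α β, T.newLine c0 g0 a y = Sum.inl (c (g y)) := by
    intro c hc g α β x hx hg e y hy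
    have hxd := (newLine_eq_inl e.self_of_nhds).1
    have := dev_max (ψ := fun y => c (g y)) hx hxd
      (fun y hy => ⟨c, hc, g, hg y hy, Eventually.of_forall fun _ => rfl⟩)
      (by filter_upwards [e] with z hz using (newLine_eq_inl hz).2) y hy
    rw [newLine_pos this.1, this.2]
  refine ⟨⟨T.V ⊕ {y : ℝ // y ∉ T.dom c0 g0 a},
    insert (T.newLine c0 g0 a) ((fun c : ℝ → T.V => fun x => Sum.inl (c x)) '' T.C),
    T.sigmaX c0 g0 a, ?_, ?_, ?_, ?_, ?_⟩, Sum.inl, ?_, T.newLine c0 g0 a, Or.inl rfl, ?_⟩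
  · -- sigma_zero
    rintro (u | x) (v | y)
    · show T.σ u v = 0 ↔ _
      rw [T.sigma_zero]; simp
    · show T.rho c0 g0 a u y = 0 ↔ _
      constructor
      · intro h
        rcases (rho_spec hc0 hg0 u).1 with ⟨z, hz, e⟩ | ⟨t, ht, e⟩
        · rw [e] at h
          have := sign_eq_zero_iff.1 h
          exact absurd (show (y : ℝ) ∈ T.dom c0 g0 a by
            rw [show (y : ℝ) = z by linarith]; exact hz) y.2
        · rw [e] at h; exact absurd h ht
      · intro h; exact absurd h (by simp)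
    · show SignType.sign (a - (x : ℝ)) = 0 ↔ _
      constructor
      · intro h
        have := sign_eq_zero_iff.1 h
        exact absurd (by linarith) (hne x)
      · intro h; exact absurd h (by simp)
    · show SignType.sign ((y : ℝ) - x) = 0 ↔ _
      rw [sign_eq_zero_iff, sub_eq_zero]
      constructor
      · intro h
        rw [Subtype.ext h.symm]
      · intro h
        have := Sum.inr.inj h
        rw [this]
  · -- compat
    rintro c hc c' hc' x x' h
    rcases hc with rfl | ⟨c, hc, rfl⟩ <;> rcases hc' with rfl | ⟨c', hc', rfl⟩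
    · have := newLine_inj hc0 hg0 h
      exact ⟨fun y => y, isADiffAt_id x, this, Eventually.of_forall fun _ => rfl⟩
    · obtain ⟨hx, hxv⟩ := newLine_eq_inl h
      obtain ⟨c1, hc1, k, hk, e⟩ := dev_imm hx
      have h1 : c1 (k x) = c' x' := by rw [← e.self_of_nhds, hxv]
      obtain ⟨g, hg, hgx, hge⟩ := T.compat c1 hc1 c' hc' _ _ h1
      refine ⟨fun y => g (k y), hg.comp hk, hgx, ?_⟩
      filter_upwards [e, hk.continuousAt.eventually hge, dom_open.mem_nhds hx] with y h1 h2 h3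
      rw [newLine_pos h3, h1, h2]
    · obtain ⟨hx, hxv⟩ := newLine_eq_inl h.symm
      obtain ⟨c1, hc1, k, hk, e⟩ := dev_imm hx
      have h1 : c1 (k x') = c x := by rw [← e.self_of_nhds, hxv]
      obtain ⟨g, hg, hgx, hge⟩ := T.compat c1 hc1 c hc _ _ h1
      -- dev = c ∘ (g ∘ k) near x'
      obtain ⟨i, hi, hix, hil, hir⟩ := (hg.comp hk).exists_inv
      simp only [hgx] at hi hix hir
      refine ⟨i, hi, hix, ?_⟩
      have hit : Tendsto i (𝓝 x) (𝓝 x') := by
        have := hi.continuousAt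
        unfold ContinuousAt at this
        rwa [hix] at this
      filter_upwards [hit.eventually e, hit.eventually (hk.continuousAt.eventually hge),
        hit.eventually (dom_open.mem_nhds hx), hir] with y h1 h2 h3 h4
      show Sum.inl (c y) = T.newLine c0 g0 a (i y)
      rw [newLine_pos h3, h1, h2, h4]
    · obtain ⟨g, hg, hgx, hge⟩ := T.compat c hc c' hc' x x' (Sum.inl.inj h)
      refine ⟨g, hg, hgx, ?_⟩
      filter_upwards [hge] with y hy
      show Sum.inl (c y) = Sum.inl (c' (g y))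
      rw [hy]
  · -- line
    rintro c hc (u | x)
    · rcases hc with rfl | ⟨c, hc, rfl⟩
      · rcases (rho_spec hc0 hg0 u).1 with ⟨z, hz, e⟩ | ⟨t, ht, e⟩
        · exact Or.inl ⟨z, fun y => by rw [sigma_newLine_inl hc0 hg0, e]⟩
        · exact Or.inr ⟨t, ht, fun y => by rw [sigma_newLine_inl hc0 hg0, e]⟩
      · exact T.line c hc u
    · rcases hc with rfl | ⟨c, hc, rfl⟩
      · exact Or.inl ⟨x, fun y => sigma_newLine_inr ha x y⟩
      · refine Or.inr ⟨SignType.sign (a - (x : ℝ)), ?_, fun y => rfl⟩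
        intro h
        exact hne x (by linarith [sign_eq_zero_iff.1 h])
  · -- cont
    rintro c hc c' hc' g α β x hx hg e
    rcases hc with rfl | ⟨c, hc, rfl⟩ <;> rcases hc' with rfl | ⟨c', hc', rfl⟩
    · have e' : (fun y => y) =ᶠ[𝓝 x] g := by
        filter_upwards [e] with y hy using newLine_inj hc0 hg0 hy
      intro y hy
      have h1 := eqOn_Ioo_of_eventuallyEq (f := fun y => y) hx (fun _ _ => analyticAt_id)
        (fun y hy => (hg y hy).1) e' y hy
      rw [← h1]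
    · exact hcontL c' hc' g α β x hx hg e
    · -- invert
      intro y hy
      obtain ⟨p, hp1, hp2⟩ := exists_between (lt_min hx.1 hy.1)
      obtain ⟨q, hq1, hq2⟩ := exists_between (max_lt hx.2 hy.2)
      have hpx := lt_of_lt_of_le hp2 (min_le_left _ _)
      have hpy := lt_of_lt_of_le hp2 (min_le_right _ _)
      have hqx := lt_of_le_of_lt (le_max_left _ _) hq1
      have hqy := lt_of_le_of_lt (le_max_right _ _) hq1
      have hsub : ∀ z ∈ Icc p q, z ∈ Ioo α β := fun z hz =>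
        ⟨lt_of_lt_of_le hp1 hz.1, lt_of_le_of_lt hz.2 hq2⟩
      obtain ⟨k, hk1, hk2⟩ := exists_inv_on (hpx.trans hqx) (fun z hz => hg z (hsub z hz))
      have hxI := hk2 x ⟨hpx, hqx⟩
      have hyI := hk2 y ⟨hpy, hqy⟩
      have key := hcontL c hc k (g p) (g q) (g x) hxI.1 (fun z hz => (hk1 z hz).1) ?_ (g y) hyI.1
      · show Sum.inl (c y) = T.newLine c0 g0 a (g y)
        rw [key, hyI.2]
      · have hkc : Tendsto k (𝓝 (g x)) (𝓝 x) := by
          have := (hk1 (g x) hxI.1).1.continuousAt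
          unfold ContinuousAt at this
          rwa [hxI.2] at this
        filter_upwards [hkc.eventually e, Ioo_mem_nhds hxI.1.1 hxI.1.2] with z hz hz2
        rw [(hk1 z hz2).2.2] at hz
        exact hz.symm
    · intro y hy
      have := T.cont c hc c' hc' g α β x hx hg
        (by filter_upwards [e] with z hz using Sum.inl.inj hz) y hy
      show Sum.inl (c y) = Sum.inl (c' (g y))
      rw [this]
  · -- tree
    have hsame : ∀ x y : {y : ℝ // y ∉ T.dom c0 g0 a}, ((a < x ∧ a < y) ∨ ((x : ℝ) < a ∧ (y : ℝ) < a)) →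
        ∀ u, T.rho c0 g0 a u x = T.rho c0 g0 a u y := by
      intro x y h u
      refine rho_side hc0 hg0 u ?_
      rcases h with h | h
      · exact Or.inl fun z hz => ⟨above_dom ha x.2 h.1 z hz, above_dom ha y.2 h.2 z hz⟩
      · exact Or.inr fun z hz => ⟨below_dom ha x.2 h.1 z hz, below_dom ha y.2 h.2 z hz⟩
    rintro (u | x) (v | x') (w | y) hne' h
    · exact T.tree u v w (fun h => hne' (by rw [h])) h
    · show T.rho c0 g0 a u y = T.σ u v
      obtain ⟨z, hz, e1, e2⟩ := rho_proxy hc0 hg0 u v y.2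
      rw [e1]
      refine T.tree u v _ (fun h => hne' (by rw [h])) ?_
      rw [← e2]; exact h
    · exact absurd rfl h
    · show T.rho c0 g0 a u y = T.rho c0 g0 a u x'
      have h' : SignType.sign ((y : ℝ) - x') ≠ SignType.sign (a - (x' : ℝ)) := h
      rcases lt_trichotomy a (x' : ℝ) with h1 | h1 | h1
      · have : (x' : ℝ) ≤ y := by
          by_contra hcon
          apply h'
          rw [sign_neg (by linarith), sign_neg (by linarith)]
        exact hsame _ _ (Or.inl ⟨by linarith, h1⟩) u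
      · exact absurd h1 (hne x')
      · have : (y : ℝ) ≤ x' := by
          by_contra hcon
          apply h'
          rw [sign_pos (by linarith), sign_pos (by linarith)]
        exact hsame _ _ (Or.inr ⟨by linarith, h1⟩) u
    · rfl
    · show SignType.sign ((y : ℝ) - x) = SignType.sign (a - (x : ℝ))
      have h' : T.rho c0 g0 a v y ≠ T.rho c0 g0 a v x := h
      rcases lt_trichotomy a (x : ℝ) with h1 | h1 | h1
      · rcases lt_trichotomy a (y : ℝ) with h2 | h2 | h2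
        · exact absurd (hsame _ _ (Or.inl ⟨h2, h1⟩) v) h'
        · exact absurd h2 (hne y)
        · rw [sign_neg (by linarith), sign_neg (by linarith)]
      · exact absurd h1 (hne x)
      · rcases lt_trichotomy a (y : ℝ) with h2 | h2 | h2
        · rw [sign_pos (by linarith), sign_pos (by linarith)]
        · exact absurd h2 (hne y)
        · exact absurd (hsame _ _ (Or.inr ⟨h2, h1⟩) v) h'
    · show SignType.sign (a - (x : ℝ)) = SignType.sign ((x' : ℝ) - x)
      have h' : SignType.sign (a - (x' : ℝ)) ≠ SignType.sign ((x : ℝ) - x') := h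
      have hxx : (x : ℝ) ≠ x' := fun h => hne' (by rw [Subtype.ext h])
      rcases lt_trichotomy a (x' : ℝ) with h1 | h1 | h1
      · have : (x' : ℝ) < x := by
          by_contra hcon
          apply h'
          have : (x : ℝ) < x' := lt_of_le_of_ne (not_lt.1 hcon) hxx
          rw [sign_neg (by linarith), sign_neg (by linarith)]
        rw [sign_neg (by linarith), sign_neg (by linarith)]
      · exact absurd h1 (hne x')
      · have : (x : ℝ) < x' := by
          by_contra hcon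
          apply h'
          have : (x' : ℝ) < x := lt_of_le_of_ne (not_lt.1 hcon) (Ne.symm hxx)
          rw [sign_pos (by linarith), sign_pos (by linarith)]
        rw [sign_pos (by linarith), sign_pos (by linarith)]
    · show SignType.sign ((y : ℝ) - x) = SignType.sign ((x' : ℝ) - x)
      have h' : SignType.sign ((y : ℝ) - x') ≠ SignType.sign ((x : ℝ) - x') := h
      have hxx : (x : ℝ) ≠ x' := fun h => hne' (by rw [Subtype.ext h])
      rcases lt_or_gt_of_ne hxx with h1 | h1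
      · have : (x' : ℝ) ≤ y := by
          by_contra hcon
          apply h'
          rw [sign_neg (by linarith), sign_neg (by linarith)]
        rw [sign_pos (by linarith), sign_pos (by linarith)]
      · have : (y : ℝ) ≤ x' := by
          by_contra hcon
          apply h'
          rw [sign_pos (by linarith), sign_pos (by linarith)]
        rw [sign_neg (by linarith), sign_neg (by linarith)]
  · intro c hc
    exact Or.inr ⟨c, hc, rfl⟩
  · filter_upwards [dev_near hc0 hg0, dom_open.mem_nhds ha] with y h1 h2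
    rw [newLine_pos h2, h1]

/-- The real line as an analytic tree. -/
noncomputable def base : AnTree where
  V := ℝ
  C := {fun x => x}
  σ u v := SignType.sign (v - u)
  sigma_zero u v := by
    rw [sign_eq_zero_iff, sub_eq_zero]
    exact eq_comm
  compat := by
    rintro c rfl c' rfl x x' h
    exact ⟨fun y => y, isADiffAt_id x, h, Eventually.of_forall fun _ => rfl⟩
  line := by
    rintro c rfl u
    exact Or.inl ⟨u, fun y => rfl⟩
  cont := by
    rintro c rfl c' rfl g a b x hx hg e y hy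
    exact eqOn_Ioo_of_eventuallyEq hx (fun _ _ => analyticAt_id) (fun y hy => (hg y hy).1) e y hy
  tree := by
    intro u v w hne h
    rcases lt_or_gt_of_ne hne with h1 | h1
    · have : v ≤ w := by
        by_contra hcon
        apply h
        rw [sign_neg (by linarith), sign_neg (by linarith)]
      rw [sign_pos (by linarith), sign_pos (by linarith)]
    · have : w ≤ v := by
        by_contra hcon
        apply h
        rw [sign_pos (by linarith), sign_pos (by linarith)]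
      rw [sign_neg (by linarith), sign_neg (by linarith)]

end AnTree
end Pool.Agent.helper68
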