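import Pool.Agent.helper68.Main

/-! Non-concordance of the saddle structure with monotone structures. -/

open Filter Topology Set

namespace Pool.Agent.helper68

open AnTree

/-- consecutive bottom charts form cusps -/
theorem bottom_cusps {h : ℝ} {Fc : ℕ × ℕ → (ℝ × ℝ) × ℝ → ℝ}
    {Ξ : GammaStructure (Circle × unitInterval)}
    (h0 : Ξ.pullback ⟨fun x => (x, 0), by fun_prop⟩ = saddle) {T : AnTree}
    {c : ℕ × ℕ → ℝ → T.V} {S : Set (ℕ × ℕ)} (hc : ∀ i ∈ S, c i ∈ T.C)
    (hcc : ∀ i ∈ S, ∀ j ∈ S, ∀ p, p ∈ cell h i → p ∈ cell h j →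
      ∀ᶠ z in 𝓝 (p, (0 : ℝ)), c i (cellF Fc i z) = c j (cellF Fc j z))
    {q : ℕ} (hq : (0, q) ∈ S) (hq' : (0, q + 1) ∈ S) :
    T.σ (c (0, q) 0) (c (0, q + 1) 0) = eps q ∧ T.σ (c (0, q + 1) 0) (c (0, q) 0) = eps q := by
  have hpi := Real.pi_pos
  set s0 : ℝ := q * (Real.pi / 2) + Real.pi / 4 with hs0
  have hp1 : ((s0, -1) : ℝ × ℝ) ∈ cell h (0, q) :=
    ⟨⟨by simp only; linarith, by simp only; linarith⟩, ⟨by norm_num, by norm_num⟩⟩
  have hp2 : ((s0, -1) : ℝ × ℝ) ∈ cell h (0, q + 1) :=
    ⟨⟨by simp only; push_cast; linarith, by simp only; push_cast; linarith⟩,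
      ⟨by norm_num, by norm_num⟩⟩
  have e := hcc _ hq _ hq' _ hp1 hp2
  have hFI1 := ((Ξ.pullback kap).regular _ _ (botF_isFI h0 q _ hp1))
  have hFI2 := ((Ξ.pullback kap).regular _ _ (botF_isFI h0 (q + 1) _ hp2))
  by_cases hev : Even q
  · have hodd : ¬ Even (q + 1) := by rw [Nat.even_add_one]; exact fun h' => h' hev
    have hb1 : ∀ z, cellF Fc (0, q) z = psi (cellF Fc (0, q + 1) z) := by
      intro z
      show botF q z = psi (botF (q + 1) z)
      unfold botF
      rw [if_pos hev, if_neg hodd, psi_sQ]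
    have e1 : ∀ᶠ z in 𝓝 (((s0, -1) : ℝ × ℝ), (0 : ℝ)),
        c (0, q + 1) (botF (q + 1) z) = c (0, q) (psi (botF (q + 1) z)) := by
      filter_upwards [e] with z hz
      rw [hb1] at hz
      exact hz.symm
    have e2 := eventually_of_firstIntegral (P := fun u => c (0, q + 1) u = c (0, q) (psi u))
      hFI2 e1
    have hx0 : 0 < botF (q + 1) ((s0, -1), 0) := by
      obtain ⟨r, hr⟩ := hev
      unfold botF
      rw [if_neg hodd]
      show 0 < sQ (Circle.exp s0, 0)
      have hs : s0 = Real.pi / 4 + (r : ℝ) * Real.pi := by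
        rw [hs0, hr]; push_cast; ring
      have hcos : Real.cos s0 = (-1) ^ r * Real.cos (Real.pi / 4) := by
        rw [hs, Real.cos_add_nat_mul_pi]
      have hsin : Real.sin s0 = (-1) ^ r * Real.sin (Real.pi / 4) := by
        rw [hs, Real.sin_add_nat_mul_pi]
      have hc4 : 0 < Real.cos (Real.pi / 4) := Real.cos_pos_of_mem_Ioo ⟨by linarith, by linarith⟩
      have hs4 : 0 < Real.sin (Real.pi / 4) := Real.sin_pos_of_pos_of_lt_pi (by linarith) (by linarith)
      unfold sQ
      rw [cX_exp, cY_exp, hcos, hsin]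
      rcases Nat.even_or_odd r with hr2 | hr2
      · rw [hr2.neg_one_pow]
        simp only [one_mul, mul_zero, zero_mul, add_zero]
        rw [phi_of_nonneg hs4.le]
        exact mul_pos hc4 (Real.sqrt_pos.2 hs4)
      · rw [hr2.neg_one_pow]
        simp only [mul_zero, zero_mul, add_zero]
        rw [phi_of_nonpos (by linarith), show -1 * Real.cos (Real.pi / 4) *
          -√(-(-1 * Real.sin (Real.pi / 4))) = Real.cos (Real.pi / 4) *
          √(Real.sin (Real.pi / 4)) by ring_nf]
        exact mul_pos hc4 (Real.sqrt_pos.2 hs4)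
    have e3 := extend_pos (hc _ hq) (hc _ hq') hx0 e2
    have heps : eps q = 1 := by unfold eps; rw [if_pos hev]
    rw [heps]
    exact ⟨cusp_pos_right (hc _ hq) (hc _ hq') e3 0, cusp_pos_left (hc _ hq) (hc _ hq') e3 0⟩
  · have hev' : Even (q + 1) := Nat.even_add_one.2 hev
    have hb1 : ∀ z, cellF Fc (0, q + 1) z = psi (cellF Fc (0, q) z) := by
      intro z
      show botF (q + 1) z = psi (botF q z)
      unfold botF
      rw [if_pos hev', if_neg hev, psi_sQ]
    have e1 : ∀ᶠ z in 𝓝 (((s0, -1) : ℝ × ℝ), (0 : ℝ)),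
        c (0, q) (botF q z) = c (0, q + 1) (psi (botF q z)) := by
      filter_upwards [e] with z hz
      rw [hb1] at hz
      exact hz
    have e2 := eventually_of_firstIntegral (P := fun u => c (0, q) u = c (0, q + 1) (psi u))
      hFI1 e1
    have hx0 : botF q ((s0, -1), 0) < 0 := by
      obtain ⟨r, hr⟩ := Nat.not_even_iff_odd.1 hev
      unfold botF
      rw [if_neg hev]
      show sQ (Circle.exp s0, 0) < 0
      have hs : s0 = (Real.pi / 4 + Real.pi / 2) + (r : ℝ) * Real.pi := by
        rw [hs0, hr]; push_cast; ring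
      have hcos : Real.cos s0 = (-1) ^ r * -Real.sin (Real.pi / 4) := by
        rw [hs, Real.cos_add_nat_mul_pi, Real.cos_add_pi_div_two]
      have hsin : Real.sin s0 = (-1) ^ r * Real.cos (Real.pi / 4) := by
        rw [hs, Real.sin_add_nat_mul_pi, Real.sin_add_pi_div_two]
      have hc4 : 0 < Real.cos (Real.pi / 4) := Real.cos_pos_of_mem_Ioo ⟨by linarith, by linarith⟩
      have hs4 : 0 < Real.sin (Real.pi / 4) := Real.sin_pos_of_pos_of_lt_pi (by linarith) (by linarith)
      unfold sQ
      rw [cX_exp, cY_exp, hcos, hsin]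
      rcases Nat.even_or_odd r with hr2 | hr2
      · rw [hr2.neg_one_pow]
        simp only [one_mul, mul_zero, zero_mul, add_zero]
        rw [phi_of_nonneg hc4.le]
        have := mul_pos hs4 (Real.sqrt_pos.2 hc4)
        linarith
      · rw [hr2.neg_one_pow]
        simp only [mul_zero, zero_mul, add_zero]
        rw [phi_of_nonpos (by linarith), show -1 * -Real.sin (Real.pi / 4) *
          -√(-(-1 * Real.cos (Real.pi / 4))) = -(Real.sin (Real.pi / 4) *
          √(Real.cos (Real.pi / 4))) by ring_nf]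
        have := mul_pos hs4 (Real.sqrt_pos.2 hc4)
        linarith
    have e3 := extend_neg (hc _ hq') (hc _ hq) hx0 e2
    have heps : eps q = -1 := by unfold eps; rw [if_neg hev]
    rw [heps]
    exact ⟨cusp_neg_left (hc _ hq') (hc _ hq) e3 0, cusp_neg_right (hc _ hq') (hc _ hq) e3 0⟩

theorem no_concordance {Ξ : GammaStructure (Circle × unitInterval)} {η : GammaStructure Circle}
    (h0 : Ξ.pullback ⟨fun x => (x, 0), by fun_prop⟩ = saddle)
    (h1 : Ξ.pullback ⟨fun x => (x, 1), by fun_prop⟩ = η) (hW : WM η) : False := by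
  have hpi := Real.pi_pos
  obtain ⟨δ, hδ, hleb⟩ := exists_lebesgue Ξ
  -- the mesh
  obtain ⟨m, hm⟩ := exists_nat_gt (2 * Real.pi / δ)
  have hm0 : (0 : ℝ) < m := lt_trans (by positivity) hm
  set h : ℝ := 2 * Real.pi / m with hh
  have hhpos : 0 < h := by positivity
  have hhδ : h < δ := by
    rw [hh, div_lt_iff₀ hm0]
    rw [div_lt_iff₀ hδ] at hm
    linarith
  obtain ⟨k', hk'⟩ := exists_nat_gt (2 / h)
  set k := k' + 1 with hk
  have hkh : 1 < -1 + (k : ℝ) * h := by
    rw [div_lt_iff₀ hhpos] at hk'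
    rw [hk]; push_cast
    nlinarith
  set N := k + 1 with hN
  set M := m * N with hM
  set Q := 4 * N with hQ
  have hMpos : 0 < M := by
    have : 0 < m := by exact_mod_cast hm0
    rw [hM]; positivity
  have hMh : (M : ℝ) * h = Q * (Real.pi / 2) := by
    rw [hM, hQ, hh]; push_cast; field_simp; ring
  -- first integrals on the cells
  choose Fl hFl using fun p : ℕ × ℕ => hleb ((p.2 : ℝ) * h, -1 + (p.1 : ℝ) * h)
  have hFc : ∀ j < k, ∀ i < M, ∀ p ∈ cell h (j + 1, i), (Ξ.pullback kap).IsFI p (Fl (j, i)) := by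
    rintro j _ i _ ⟨s, t⟩ ⟨hs, ht⟩
    simp only at hs ht
    apply hFl
    rw [Prod.dist_eq]
    refine lt_of_le_of_lt (max_le ?_ ?_) hhδ
    · rw [Real.dist_eq, abs_le]; constructor <;> simp only <;> nlinarith [hs.1, hs.2]
    · rw [Real.dist_eq, abs_le]; constructor <;> simp only <;> nlinarith [ht.1, ht.2]
  obtain ⟨T, c, hc, hcc⟩ := realizable_grid h Fl h0 hhpos hMh.le hFc
  -- zigzag
  set z : ℕ → T.V := fun q => c (0, q) 0 with hz
  have hmem0 : ∀ q ≤ Q, (0, q) ∈ idx Q M k 0 := fun q hq => Or.inl ⟨rfl, hq⟩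
  have hmem1 : ∀ j < k, ∀ i < M, (j + 1, i) ∈ idx Q M k 0 :=
    fun j hj i hi => Or.inr ⟨j, rfl, Or.inl ⟨hj, hi⟩⟩
  have hcusp : ∀ q < Q, T.σ (z q) (z (q + 1)) = eps q ∧ T.σ (z (q + 1)) (z q) = eps q := by
    intro q hq
    exact bottom_cusps h0 hc hcc (hmem0 q hq.le) (hmem0 (q + 1) hq)
  have hstep : ∀ {m : ℕ}, m + 1 ≤ Q → ∀ {v v' : T.V}, T.Step v v' → T.σ (z m) v ≠ eps m →
      T.σ (z (m + 1)) v' ≠ eps (m + 1) := by
    intro m hm v v' hs hv
    exact zigzag_step (fun q hq => (hcusp q hq).1) (fun q hq => (hcusp q hq).2) hm hs hv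
  have hend : ∀ i, i < Q → T.σ (z (Q - 1 - i)) (z Q) = eps (Q - 1 - i) := by
    intro i
    induction i with
    | zero =>
      intro hi
      have := (hcusp (Q - 1) (by omega)).1
      rw [show Q - 1 + 1 = Q by omega] at this
      simpa using this
    | succ i ih =>
      intro hi
      have ih' := ih (by omega)
      set r := Q - 1 - (i + 1) with hr
      rw [show Q - 1 - i = r + 1 by omega] at ih'
      by_contra hcon
      exact hstep (show r + 1 ≤ Q by omega) (Or.inl (Up.refl (z Q))) hcon ih'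
  -- value of a chart at a point of a cell
  set val : ℕ × ℕ → ℝ × ℝ → T.V := fun x p => c x (cellF Fl x (p, 0)) with hval
  have hvv : ∀ x ∈ idx Q M k 0, ∀ y ∈ idx Q M k 0, ∀ p, p ∈ cell h x → p ∈ cell h y →
      val x p = val y p := fun x hx y hy p hp hp' => (hcc x hx y hy p hp hp').self_of_nhds
  have hvstep : ∀ x ∈ idx Q M k 0, ∀ p p', T.Step (val x p) (val x p') :=
    fun x hx p p' => step_chart (hc x hx) _ _
  -- left side
  have hleft : ∀ j < k, T.σ (z (1 + j)) (val (j + 1, 0) (0, -1 + (j : ℝ) * h)) ≠ eps (1 + j) := by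
    intro j
    induction j with
    | zero =>
      intro hj
      have e1 : val (1, 0) (0, -1 + ((0 : ℕ) : ℝ) * h) = z 0 := by
        have hp : ((0 : ℝ), (-1 : ℝ) + ((0 : ℕ) : ℝ) * h) = (0, -1) := by simp
        rw [hp, hvv (1, 0) (hmem1 0 hj 0 hMpos) (0, 0) (hmem0 0 (by omega)) (0, -1) ?_ ?_]
        · show c (0, 0) (botF 0 ((0, -1), 0)) = c (0, 0) 0
          congr 1
          unfold botF
          rw [if_pos (by decide)]
          show sP (Circle.exp 0, 0) = 0
          unfold sP
          rw [cY_exp]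
          simp
        · exact ⟨⟨by simp, by simp [hhpos.le]⟩, ⟨by simp, by simp [hhpos.le]⟩⟩
        · exact ⟨⟨by simp only; push_cast; linarith, by simp only; push_cast; linarith⟩,
            ⟨by norm_num, by norm_num⟩⟩
      rw [e1]
      have := (hcusp 0 (by omega)).2
      rw [zero_add] at this
      simp only [add_zero]
      rw [this]
      decide
    | succ j ih =>
      intro hj
      have ih' := ih (by omega)
      have e1 : val (j + 1 + 1, 0) (0, -1 + ((j + 1 : ℕ) : ℝ) * h) =
          val (j + 1, 0) (0, -1 + ((j + 1 : ℕ) : ℝ) * h) := by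
        refine hvv _ (hmem1 (j + 1) hj 0 hMpos) _ (hmem1 j (by omega) 0 hMpos) _ ?_ ?_
        · exact ⟨⟨by simp, by simp [hhpos.le]⟩, ⟨le_rfl, by simp only; nlinarith⟩⟩
        · exact ⟨⟨by simp, by simp [hhpos.le]⟩,
            ⟨by simp only; push_cast; nlinarith, by simp only; push_cast; exact le_rfl⟩⟩
      rw [e1, show 1 + (j + 1) = (1 + j) + 1 by ring]
      exact hstep (by omega) (hvstep _ (hmem1 j (by omega) 0 hMpos) _ _) ih'
  -- top-left corner
  have htl : T.σ (z (1 + k)) (val (k' + 1, 0) (0, -1 + (k : ℝ) * h)) ≠ eps (1 + k) := by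
    have := hleft k' (by omega)
    rw [show 1 + k = (1 + k') + 1 by omega]
    exact hstep (by omega) (hvstep _ (hmem1 k' (by omega) 0 hMpos) _ _) this
  -- top side
  have htop : T.Step (val (k' + 1, 0) (0, -1 + (k : ℝ) * h))
      (val (k' + 1, M - 1) (((M : ℝ)) * h, -1 + (k : ℝ) * h)) := by
    have htopmem : ∀ i < M, ∀ s ∈ Icc ((i : ℝ) * h) ((i + 1) * h),
        ((s, -1 + (k : ℝ) * h) : ℝ × ℝ) ∈ cell h (k' + 1, i) := by
      intro i hi s hs
      refine ⟨hs, ⟨?_, ?_⟩⟩
      · simp only; rw [hk]; push_cast; nlinarith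
      · simp only; rw [hk]; push_cast; exact le_rfl
    have hcommon : ∀ i, i + 1 < M → val (k' + 1, i + 1) (((i + 1 : ℕ) : ℝ) * h, -1 + (k : ℝ) * h) =
        val (k' + 1, i) (((i + 1 : ℕ) : ℝ) * h, -1 + (k : ℝ) * h) := by
      intro i hi
      refine hvv _ (hmem1 k' (by omega) (i + 1) hi) _ (hmem1 k' (by omega) i (by omega)) _ ?_ ?_
      · exact htopmem (i + 1) hi _ ⟨le_rfl, by push_cast; nlinarith⟩
      · exact htopmem i (by omega) _ ⟨by push_cast; nlinarith, by push_cast; exact le_rfl⟩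
    rcases hW with hW | hW
    · left
      have hstep1 : ∀ i < M, T.Up (val (k' + 1, i) ((i : ℝ) * h, -1 + (k : ℝ) * h))
          (val (k' + 1, i) (((i + 1 : ℕ) : ℝ) * h, -1 + (k : ℝ) * h)) := by
        intro i hi
        refine up_of_le (hc _ (hmem1 k' (by omega) i hi)) ?_
        push_cast
        refine le_of_local (f := fun s => Fl (k', i) ((s, -1 + (k : ℝ) * h), 0)) (by nlinarith)
          (continuousOn_slice (fun s hs => hFc k' (by omega) i hi _ (htopmem i hi s hs))) ?_
        intro x hx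
        exact local_inc h1 hkh (hW x) (hFc k' (by omega) i hi _
          (htopmem i hi x (Ico_subset_Icc_self hx)))
      have hall : ∀ i < M, T.Up (val (k' + 1, 0) (0, -1 + (k : ℝ) * h))
          (val (k' + 1, i) (((i + 1 : ℕ) : ℝ) * h, -1 + (k : ℝ) * h)) := by
        intro i
        induction i with
        | zero =>
          intro hi
          have := hstep1 0 hi
          simpa using this
        | succ i ih =>
          intro hi
          refine (ih (by omega)).trans ?_
          rw [← hcommon i hi]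
          exact hstep1 (i + 1) hi
      have := hall (M - 1) (by omega)
      rwa [show M - 1 + 1 = M by omega] at this
    · right
      have hstep1 : ∀ i < M, T.Up (val (k' + 1, i) (((i + 1 : ℕ) : ℝ) * h, -1 + (k : ℝ) * h))
          (val (k' + 1, i) ((i : ℝ) * h, -1 + (k : ℝ) * h)) := by
        intro i hi
        refine up_of_le (hc _ (hmem1 k' (by omega) i hi)) ?_
        push_cast
        have := le_of_local (f := fun s => - Fl (k', i) ((s, -1 + (k : ℝ) * h), 0))
          (a := (i : ℝ) * h) (b := (i + 1) * h) (by nlinarith)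
          (continuousOn_slice (fun s hs => hFc k' (by omega) i hi _ (htopmem i hi s hs))).neg ?_
        · exact neg_le_neg_iff.1 this
        intro x hx
        exact local_dec h1 hkh (hW x) (hFc k' (by omega) i hi _
          (htopmem i hi x (Ico_subset_Icc_self hx)))
      have hall : ∀ i < M, T.Up (val (k' + 1, i) (((i + 1 : ℕ) : ℝ) * h, -1 + (k : ℝ) * h))
          (val (k' + 1, 0) (0, -1 + (k : ℝ) * h)) := by
        intro i
        induction i with
        | zero =>
          intro hi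
          have := hstep1 0 hi
          simpa using this
        | succ i ih =>
          intro hi
          refine Up.trans ?_ (ih (by omega))
          rw [← hcommon i hi]
          exact hstep1 (i + 1) hi
      have := hall (M - 1) (by omega)
      rwa [show M - 1 + 1 = M by omega] at this
  have htr : T.σ (z (2 + k)) (val (k' + 1, M - 1) ((M : ℝ) * h, -1 + (k : ℝ) * h)) ≠
      eps (2 + k) := by
    rw [show 2 + k = (1 + k) + 1 by ring]
    exact hstep (by omega) htop htl
  -- right side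
  have hM1 : ((M - 1 : ℕ) : ℝ) + 1 = M := by
    rw [Nat.cast_sub (by omega)]; push_cast; ring
  have hrmem : ∀ j < k, ∀ t ∈ Icc (-1 + (j : ℝ) * h) (-1 + (j + 1) * h),
      (((M : ℝ) * h, t) : ℝ × ℝ) ∈ cell h (j + 1, M - 1) := by
    intro j hj t ht
    refine ⟨⟨?_, ?_⟩, ht⟩
    · simp only; rw [← hM1]; nlinarith
    · simp only; rw [hM1]
  have hright : ∀ i < k, T.σ (z (3 + k + i))
      (val (k' - i + 1, M - 1) ((M : ℝ) * h, -1 + ((k' - i : ℕ) : ℝ) * h)) ≠ eps (3 + k + i) := by
    intro i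
    induction i with
    | zero =>
      intro hi
      rw [show 3 + k + 0 = (2 + k) + 1 by ring]
      exact hstep (by omega) (hvstep _ (hmem1 k' (by omega) (M - 1) (by omega)) _ _) htr
    | succ i ih =>
      intro hi
      have ih' := ih (by omega)
      set j := k' - (i + 1) with hj
      have hji : k' - i = j + 1 := by omega
      rw [hji] at ih'
      have e1 : val (j + 1 + 1, M - 1) ((M : ℝ) * h, -1 + ((j + 1 : ℕ) : ℝ) * h) =
          val (j + 1, M - 1) ((M : ℝ) * h, -1 + ((j + 1 : ℕ) : ℝ) * h) := by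
        refine hvv _ (hmem1 (j + 1) (by omega) (M - 1) (by omega)) _
          (hmem1 j (by omega) (M - 1) (by omega)) _ ?_ ?_
        · exact hrmem (j + 1) (by omega) _ ⟨le_rfl, by nlinarith⟩
        · exact hrmem j (by omega) _ ⟨by push_cast; nlinarith, by push_cast; exact le_rfl⟩
      rw [e1] at ih'
      rw [show 3 + k + (i + 1) = (3 + k + i) + 1 by ring]
      exact hstep (by omega) (hvstep _ (hmem1 j (by omega) (M - 1) (by omega)) _ _) ih'
  have hlast := hright k' (by omega)
  rw [Nat.sub_self] at hlast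
  have e2 : val (0 + 1, M - 1) ((M : ℝ) * h, -1 + ((0 : ℕ) : ℝ) * h) = z Q := by
    have hp : (((M : ℝ) * h, (-1 : ℝ) + ((0 : ℕ) : ℝ) * h) : ℝ × ℝ) = ((M : ℝ) * h, -1) := by simp
    rw [hp, hvv (0 + 1, M - 1) (hmem1 0 (by omega) (M - 1) (by omega)) (0, Q) (hmem0 Q le_rfl)
      ((M : ℝ) * h, -1) ?_ ?_]
    · show c (0, Q) (botF Q (((M : ℝ) * h, -1), 0)) = c (0, Q) 0
      congr 1
      unfold botF
      rw [if_pos (by rw [hQ]; exact ⟨2 * N, by ring⟩)]
      show sP (Circle.exp ((M : ℝ) * h), 0) = 0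
      unfold sP
      rw [cY_exp, hMh, hQ]
      have : (((4 * N : ℕ) : ℝ) * (Real.pi / 2)) = ((2 * N : ℕ) : ℝ) * Real.pi := by
        push_cast; ring
      rw [this, Real.sin_nat_mul_pi]
      simp
    · exact hrmem 0 (by omega) _ ⟨by simp, by simp [hhpos.le]⟩
    · refine ⟨⟨?_, ?_⟩, ⟨by norm_num, by norm_num⟩⟩
      · simp only; rw [hMh]; linarith
      · simp only; rw [hMh]; linarith
  rw [e2] at hlast
  have := hend (Q - 1 - (3 + k + k')) (by omega)
  rw [show Q - 1 - (Q - 1 - (3 + k + k')) = 3 + k + k' by omega] at this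
  exact hlast this

end Pool.Agent.helper68
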