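import Pool.Agent.helper68.HDefs

/-! The structure on the unit circle induced by the foliation `x² y = const` of the punctured
plane. -/

open Filter Topology Set

namespace Pool.Agent.helper68

/-- A structure from a compatible atlas. -/
def GammaStructure.ofAtlas {X : Type*} [TopologicalSpace X] {ι : Type*} (U : ι → Set X)
    (F : ι → X × ℝ → ℝ) (hU : ∀ i, IsOpen (U i)) (hcov : ∀ x, ∃ i, x ∈ U i)
    (hreg : ∀ i, ∀ x ∈ U i, IsFirstIntegralAt (F i) x)
    (hcomp : ∀ i j, ∀ x ∈ U i, x ∈ U j → ∃ g : ℝ → ℝ, IsADiffAt g (F i (x, 0)) ∧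
      ∀ᶠ z in 𝓝 (x, (0 : ℝ)), F j z = g (F i z)) : GammaStructure X where
  IsFI x G := ∃ i, x ∈ U i ∧ ∃ g : ℝ → ℝ, IsADiffAt g (F i (x, 0)) ∧
    ∀ᶠ z in 𝓝 (x, (0 : ℝ)), G z = g (F i z)
  exists_fi x := by
    obtain ⟨i, hi⟩ := hcov x
    exact ⟨F i, i, hi, fun t => t, isADiffAt_id _, Eventually.of_forall fun _ => rfl⟩
  regular := by
    rintro x G ⟨i, hi, g, hg, e⟩
    have hr := hreg i x hi
    have h0 : ContinuousAt (F i) (x, 0) := hr.self_of_nhds.1
    filter_upwards [hr, e.eventually_nhds, h0.eventually hg.eventually] with z hz he hgz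
    refine ⟨?_, ?_⟩
    · have : ContinuousAt (fun z => g (F i z)) z :=
        ContinuousAt.comp (f := F i) (g := g) hgz.continuousAt hz.1
      exact this.congr (by filter_upwards [he] with w hw using hw.symm)
    · refine (IsADiffAt.comp (g := g) (f := fun t => F i (z.1, t)) hgz hz.2).congr ?_
      have : Tendsto (fun t : ℝ => (z.1, t)) (𝓝 z.2) (𝓝 z) :=
        (continuous_const.prodMk continuous_id).tendsto z.2
      filter_upwards [this.eventually he] with t ht using ht.symm
  locality := by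
    rintro x G ⟨i, hi, g, hg, e⟩
    have h2 : Tendsto (fun y' : X => (y', (0 : ℝ))) (𝓝 x) (𝓝 (x, 0)) :=
      (continuous_id.prodMk continuous_const).tendsto x
    have h0 : ContinuousAt (F i) (x, 0) := (hreg i x hi).self_of_nhds.1
    filter_upwards [h2.eventually e.eventually_nhds, h2.eventually (h0.eventually hg.eventually),
      (hU i).mem_nhds hi] with x' a1 a2 a3
    exact ⟨i, a3, g, a2, a1⟩
  compat := by
    rintro x F' G' ⟨i, hi, f, hf, e⟩
    have h0 : ContinuousAt (F i) (x, 0) := (hreg i x hi).self_of_nhds.1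
    constructor
    · rintro ⟨j, hj, g, hg, e'⟩
      obtain ⟨k, hk, hke⟩ := hcomp i j x hi hj
      obtain ⟨f', hf', hf'0, hl, hr⟩ := hf.exists_inv
      have hk0 : F j (x, 0) = k (F i (x, 0)) := hke.self_of_nhds
      refine ⟨fun u => g (k (f' u)), ?_, ?_⟩
      · rw [e.self_of_nhds]
        refine IsADiffAt.comp (g := g) (f := fun u => k (f' u)) ?_ (IsADiffAt.comp (g := k) ?_ hf')
        · simp only [hf'0]
          rw [← hk0]; exact hg
        · rw [hf'0]; exact hk
      · filter_upwards [e, e', hke, h0.eventually hl] with z a1 a2 a3 a4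
        rw [a1, a2, a3, a4]
    · rintro ⟨g, hg, e'⟩
      rw [e.self_of_nhds] at hg
      refine ⟨i, hi, fun u => g (f u), IsADiffAt.comp hg hf, ?_⟩
      filter_upwards [e, e'] with z a1 a2
      rw [a2, a1]

/-- `u ↦ u |u|` -/
noncomputable def psi (u : ℝ) : ℝ := u * |u|

/-- its inverse `v ↦ sign v · √|v|` -/
noncomputable def phi (v : ℝ) : ℝ := √v - √(-v)

theorem phi_of_nonneg {v : ℝ} (h : 0 ≤ v) : phi v = √v := by
  unfold phi; rw [Real.sqrt_eq_zero_of_nonpos (by linarith : -v ≤ 0)]; ring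

theorem phi_of_nonpos {v : ℝ} (h : v ≤ 0) : phi v = -√(-v) := by
  unfold phi; rw [Real.sqrt_eq_zero_of_nonpos h]; ring

theorem psi_phi (v : ℝ) : psi (phi v) = v := by
  rcases le_total 0 v with h | h
  · rw [phi_of_nonneg h, psi, abs_of_nonneg (Real.sqrt_nonneg _), Real.mul_self_sqrt h]
  · rw [phi_of_nonpos h, psi, abs_neg, abs_of_nonneg (Real.sqrt_nonneg _), neg_mul,
      Real.mul_self_sqrt (by linarith)]
    ring

theorem phi_psi (u : ℝ) : phi (psi u) = u := by
  rcases le_total 0 u with h | h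
  · have : psi u = u * u := by rw [psi, abs_of_nonneg h]
    rw [phi_of_nonneg (by rw [this]; exact mul_self_nonneg u), this, Real.sqrt_mul_self h]
  · have : psi u = -(u * u) := by rw [psi, abs_of_nonpos h]; ring
    rw [phi_of_nonpos (by rw [this]; linarith [mul_self_nonneg u]), this, neg_neg,
      Real.sqrt_mul_self_eq_abs, abs_of_nonpos h, neg_neg]

theorem psi_mul (a b : ℝ) : psi (a * b) = psi a * psi b := by
  unfold psi; rw [abs_mul]; ring

theorem hasDerivAt_psi {u : ℝ} (hu : u ≠ 0) : HasDerivAt psi (2 * |u|) u := by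
  rcases lt_or_gt_of_ne hu with h | h
  · have h1 : HasDerivAt (fun u : ℝ => -(u * u)) (-(1 * u + u * 1)) u :=
      ((hasDerivAt_id u).mul (hasDerivAt_id u)).neg
    rw [abs_of_neg h]
    have h2 : HasDerivAt (fun u : ℝ => -(u * u)) (2 * -u) u := by
      convert h1 using 1; ring
    refine h2.congr_of_eventuallyEq ?_
    filter_upwards [gt_mem_nhds h] with w hw
    rw [psi, abs_of_neg hw]; ring
  · have h1 : HasDerivAt (fun u : ℝ => u * u) (1 * u + u * 1) u :=
      (hasDerivAt_id u).mul (hasDerivAt_id u)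
    rw [abs_of_pos h]
    have h2 : HasDerivAt (fun u : ℝ => u * u) (2 * u) u := by
      convert h1 using 1; ring
    refine h2.congr_of_eventuallyEq ?_
    filter_upwards [lt_mem_nhds h] with w hw
    rw [psi, abs_of_pos hw]

theorem analyticAt_abs {u : ℝ} (hu : u ≠ 0) : AnalyticAt ℝ (fun x : ℝ => |x|) u := by
  rcases lt_or_gt_of_ne hu with h | h
  · refine (analyticAt_id (𝕜 := ℝ) (z := u)).neg.congr ?_
    filter_upwards [gt_mem_nhds h] with w hw
    simp [abs_of_neg hw]
  · refine (analyticAt_id (𝕜 := ℝ) (z := u)).congr ?_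
    filter_upwards [lt_mem_nhds h] with w hw
    simp [abs_of_pos hw]

theorem analyticAt_psi {u : ℝ} (hu : u ≠ 0) : AnalyticAt ℝ psi u :=
  (analyticAt_id (𝕜 := ℝ) (z := u)).mul (analyticAt_abs hu)

theorem isADiffAt_psi {u : ℝ} (hu : u ≠ 0) : IsADiffAt psi u :=
  ⟨analyticAt_psi hu, by rw [(hasDerivAt_psi hu).deriv]; positivity⟩

theorem phi_ne_zero {v : ℝ} (hv : v ≠ 0) : phi v ≠ 0 := by
  intro h
  have := psi_phi v
  rw [h, psi, zero_mul] at this
  exact hv this.symm

theorem psi_ne_zero {v : ℝ} (hv : v ≠ 0) : psi v ≠ 0 := by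
  intro h
  have := phi_psi v
  rw [h, phi_of_nonneg le_rfl, Real.sqrt_zero] at this
  exact hv this.symm

theorem isADiffAt_phi {v : ℝ} (hv : v ≠ 0) : IsADiffAt phi v := by
  obtain ⟨k, hk, hk0, hl, hr⟩ := (isADiffAt_psi (phi_ne_zero hv)).exists_inv
  rw [psi_phi] at hk hk0 hr
  refine hk.congr ?_
  filter_upwards [hr] with z hz
  rw [← hz, phi_psi, hz]

theorem hasDerivAt_phi {v : ℝ} (hv : v ≠ 0) : HasDerivAt phi (1 / (2 * |phi v|)) v := by
  have h1 := (isADiffAt_phi hv).1.differentiableAt.hasDerivAt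
  have h2 := hasDerivAt_psi (phi_ne_zero hv)
  have h3 : HasDerivAt (fun x => psi (phi x)) (2 * |phi v| * deriv phi v) v :=
    HasDerivAt.comp v h2 h1
  have h4 : HasDerivAt (fun x => psi (phi x)) 1 v := by
    have : (fun x => psi (phi x)) = fun x => x := funext psi_phi
    rw [this]; exact hasDerivAt_id v
  have h5 := h3.unique h4
  have h6 : |phi v| ≠ 0 := abs_ne_zero.2 (phi_ne_zero hv)
  have : deriv phi v = 1 / (2 * |phi v|) := by
    field_simp
    linarith
  rw [← this]; exact h1

/-- the first coordinate of the tubular map `S¹ × ℝ → ℝ²` -/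
noncomputable def cX (z : Circle × ℝ) : ℝ := (z.1 : ℂ).re + 2 * z.2 * (z.1 : ℂ).im

/-- the second coordinate of the tubular map `S¹ × ℝ → ℝ²` -/
noncomputable def cY (z : Circle × ℝ) : ℝ := (z.1 : ℂ).im + z.2 * (z.1 : ℂ).re

/-- the transversality form `4 im Y + X re` -/
noncomputable def cD (z : Circle × ℝ) : ℝ :=
  4 * (z.1 : ℂ).im * cY z + cX z * (z.1 : ℂ).re

theorem continuous_coeC : Continuous fun x : Circle => (x : ℂ) := continuous_subtype_val

theorem continuous_re : Continuous fun z : Circle × ℝ => (z.1 : ℂ).re :=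
  Complex.continuous_re.comp (continuous_coeC.comp continuous_fst)

theorem continuous_im : Continuous fun z : Circle × ℝ => (z.1 : ℂ).im :=
  Complex.continuous_im.comp (continuous_coeC.comp continuous_fst)

theorem continuous_cX : Continuous cX :=
  continuous_re.add ((continuous_const.mul continuous_snd).mul continuous_im)

theorem continuous_cY : Continuous cY :=
  continuous_im.add (continuous_snd.mul continuous_re)

theorem continuous_cD : Continuous cD :=
  ((continuous_const.mul continuous_im).mul continuous_cY).add (continuous_cX.mul continuous_re)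

theorem circle_sq (x : Circle) : (x : ℂ).re ^ 2 + (x : ℂ).im ^ 2 = 1 := by
  have h1 := Circle.normSq_coe x
  rw [Complex.normSq_apply] at h1
  nlinarith [h1]

theorem cD_pos (x : Circle) : 0 < cD (x, 0) := by
  have := circle_sq x
  simp only [cD, cX, cY]
  nlinarith [sq_nonneg (x : ℂ).im, sq_nonneg (x : ℂ).re]

theorem hasDerivAt_cX (x : Circle) (t : ℝ) :
    HasDerivAt (fun t => cX (x, t)) (2 * (x : ℂ).im) t := by
  have h := (((hasDerivAt_id t).const_mul (2 * (x : ℂ).im)).const_add (x : ℂ).re)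
  have e : (fun t => cX (x, t)) = fun t => (x : ℂ).re + 2 * (x : ℂ).im * id t := by
    funext t; simp only [cX, id]; ring
  rw [e]
  simpa using h

theorem hasDerivAt_cY (x : Circle) (t : ℝ) :
    HasDerivAt (fun t => cY (x, t)) ((x : ℂ).re) t := by
  have h := (((hasDerivAt_id t).const_mul ((x : ℂ).re)).const_add (x : ℂ).im)
  have e : (fun t => cY (x, t)) = fun t => (x : ℂ).im + (x : ℂ).re * id t := by
    funext t; simp only [cY, id]; ring
  rw [e]
  simpa using h

theorem analyticAt_cX (x : Circle) (t : ℝ) : AnalyticAt ℝ (fun t => cX (x, t)) t := by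
  have h : AnalyticAt ℝ (fun t : ℝ => (x : ℂ).re + 2 * t * (x : ℂ).im) t := by fun_prop
  exact h

theorem analyticAt_cY (x : Circle) (t : ℝ) : AnalyticAt ℝ (fun t => cY (x, t)) t := by
  have h : AnalyticAt ℝ (fun t : ℝ => (x : ℂ).im + t * (x : ℂ).re) t := by fun_prop
  exact h

/-- First integral `X |X| Y` (where `X ≠ 0`) -/
noncomputable def sP (z : Circle × ℝ) : ℝ := psi (cX z) * cY z

/-- First integral `X · sign Y · √|Y|` (where `Y ≠ 0`) -/
noncomputable def sQ (z : Circle × ℝ) : ℝ := cX z * phi (cY z)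

theorem psi_sQ (z : Circle × ℝ) : psi (sQ z) = sP z := by
  unfold sQ sP; rw [psi_mul, psi_phi]

theorem phi_sP (z : Circle × ℝ) : phi (sP z) = sQ z := by
  rw [← psi_sQ, phi_psi]

theorem sP_regular (x : Circle) (hx : (x : ℂ).re ≠ 0) : IsFirstIntegralAt sP x := by
  have h1 : cX (x, 0) ≠ 0 := by simpa [cX] using hx
  have h2 : ∀ᶠ z in 𝓝 (x, (0 : ℝ)), cX z ≠ 0 :=
    continuous_cX.continuousAt.eventually_ne h1
  have h3 : ∀ᶠ z in 𝓝 (x, (0 : ℝ)), 0 < cD z :=
    continuous_cD.continuousAt.eventually (lt_mem_nhds (cD_pos x))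
  filter_upwards [h2, h3] with z hz1 hz2
  refine ⟨?_, ?_, ?_⟩
  · exact (ContinuousAt.comp (f := cX) (g := psi) (analyticAt_psi hz1).continuousAt
      continuous_cX.continuousAt).mul continuous_cY.continuousAt
  · exact (AnalyticAt.fun_comp (f := fun t => cX (z.1, t)) (g := psi) (analyticAt_psi hz1)
      (analyticAt_cX z.1 z.2)).mul (analyticAt_cY z.1 z.2)
  · have h4 : HasDerivAt (fun t => psi (cX (z.1, t))) (2 * |cX z| * (2 * (z.1 : ℂ).im)) z.2 :=
      HasDerivAt.comp (h₂ := psi) (h := fun t => cX (z.1, t)) z.2 (hasDerivAt_psi hz1)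
        (hasDerivAt_cX z.1 z.2)
    have h5 : HasDerivAt (fun t => sP (z.1, t))
        (2 * |cX z| * (2 * (z.1 : ℂ).im) * cY z + psi (cX z) * (z.1 : ℂ).re) z.2 :=
      h4.mul (hasDerivAt_cY z.1 z.2)
    rw [h5.deriv]
    have : 2 * |cX z| * (2 * (z.1 : ℂ).im) * cY z + psi (cX z) * (z.1 : ℂ).re =
        |cX z| * cD z := by
      unfold psi cD; ring
    rw [this]
    exact mul_pos (abs_pos.2 hz1) hz2

theorem sQ_regular (x : Circle) (hx : (x : ℂ).im ≠ 0) : IsFirstIntegralAt sQ x := by
  have h1 : cY (x, 0) ≠ 0 := by simpa [cY] using hx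
  have h2 : ∀ᶠ z in 𝓝 (x, (0 : ℝ)), cY z ≠ 0 :=
    continuous_cY.continuousAt.eventually_ne h1
  have h3 : ∀ᶠ z in 𝓝 (x, (0 : ℝ)), 0 < cD z :=
    continuous_cD.continuousAt.eventually (lt_mem_nhds (cD_pos x))
  filter_upwards [h2, h3] with z hz1 hz2
  refine ⟨?_, ?_, ?_⟩
  · exact continuous_cX.continuousAt.mul (ContinuousAt.comp (f := cY) (g := phi)
      (isADiffAt_phi hz1).continuousAt continuous_cY.continuousAt)
  · exact (analyticAt_cX z.1 z.2).mul (AnalyticAt.fun_comp (f := fun t => cY (z.1, t)) (g := phi)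
      (isADiffAt_phi hz1).1 (analyticAt_cY z.1 z.2))
  · have h4 : HasDerivAt (fun t => phi (cY (z.1, t))) (1 / (2 * |phi (cY z)|) * (z.1 : ℂ).re) z.2 :=
      HasDerivAt.comp (h₂ := phi) (h := fun t => cY (z.1, t)) z.2 (hasDerivAt_phi hz1)
        (hasDerivAt_cY z.1 z.2)
    have h5 : HasDerivAt (fun t => sQ (z.1, t))
        (2 * (z.1 : ℂ).im * phi (cY z) + cX z * (1 / (2 * |phi (cY z)|) * (z.1 : ℂ).re)) z.2 :=
      (hasDerivAt_cX z.1 z.2).mul h4
    rw [h5.deriv]
    have h6 : 0 < |phi (cY z)| := abs_pos.2 (phi_ne_zero hz1)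
    have h7 : phi (cY z) * |phi (cY z)| = cY z := psi_phi (cY z)
    have : 2 * (z.1 : ℂ).im * phi (cY z) + cX z * (1 / (2 * |phi (cY z)|) * (z.1 : ℂ).re) =
        cD z / (2 * |phi (cY z)|) := by
      have h8 : cD z = 4 * (z.1 : ℂ).im * (phi (cY z) * |phi (cY z)|) + cX z * (z.1 : ℂ).re := by
        rw [h7, cD]
      rw [h8]
      generalize phi (cY z) = w at h6
      field_simp
      ring
    rw [this]
    positivity

/-- The structure on the unit circle induced by the foliation `x² y = const` of the punctured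
plane through the tubular map `(θ, t) ↦ (cos θ + 2 t sin θ, sin θ + t cos θ)`. -/
noncomputable def saddle : GammaStructure Circle :=
  GammaStructure.ofAtlas (ι := Bool)
    (fun b => match b with
      | true => {x : Circle | (x : ℂ).re ≠ 0}
      | false => {x : Circle | (x : ℂ).im ≠ 0})
    (fun b => match b with
      | true => sP
      | false => sQ)
    (by
      rintro (_ | _)
      · exact isOpen_ne_fun (Complex.continuous_im.comp continuous_coeC) continuous_const
      · exact isOpen_ne_fun (Complex.continuous_re.comp continuous_coeC) continuous_const)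
    (by
      intro x
      by_cases h : (x : ℂ).re = 0
      · refine ⟨false, ?_⟩
        have := circle_sq x
        intro h'
        rw [h, h'] at this
        norm_num at this
      · exact ⟨true, h⟩)
    (by
      rintro (_ | _) x hx
      · exact sQ_regular x hx
      · exact sP_regular x hx)
    (by
      rintro (_ | _) (_ | _) x hx hx'
      · exact ⟨fun t => t, isADiffAt_id _, Eventually.of_forall fun _ => rfl⟩
      · refine ⟨psi, isADiffAt_psi ?_, Eventually.of_forall fun z => (psi_sQ z).symm⟩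
        have h1 : cX (x, 0) ≠ 0 := by simpa [cX] using hx'
        have h2 : cY (x, 0) ≠ 0 := by simpa [cY] using hx
        exact mul_ne_zero h1 (phi_ne_zero h2)
      · refine ⟨phi, isADiffAt_phi ?_, Eventually.of_forall fun z => (phi_sP z).symm⟩
        have h1 : cX (x, 0) ≠ 0 := by simpa [cX] using hx
        have h2 : cY (x, 0) ≠ 0 := by simpa [cY] using hx'
        exact mul_ne_zero (psi_ne_zero h1) h2
      · exact ⟨fun t => t, isADiffAt_id _, Eventually.of_forall fun _ => rfl⟩)

theorem saddle_P {x : Circle} (hx : (x : ℂ).re ≠ 0) : saddle.IsFI x sP :=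
  ⟨true, hx, fun t => t, isADiffAt_id _, Eventually.of_forall fun _ => rfl⟩

theorem saddle_Q {x : Circle} (hx : (x : ℂ).im ≠ 0) : saddle.IsFI x sQ :=
  ⟨false, hx, fun t => t, isADiffAt_id _, Eventually.of_forall fun _ => rfl⟩

theorem cX_exp (s t : ℝ) : cX (Circle.exp s, t) = Real.cos s + 2 * t * Real.sin s := by
  simp [cX, Circle.coe_exp, Complex.exp_ofReal_mul_I_re, Complex.exp_ofReal_mul_I_im]

theorem cY_exp (s t : ℝ) : cY (Circle.exp s, t) = Real.sin s + t * Real.cos s := by
  simp [cY, Circle.coe_exp, Complex.exp_ofReal_mul_I_re, Complex.exp_ofReal_mul_I_im]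

theorem re_exp (s : ℝ) : ((Circle.exp s : Circle) : ℂ).re = Real.cos s := by
  rw [Circle.coe_exp, Complex.exp_ofReal_mul_I_re]

theorem im_exp (s : ℝ) : ((Circle.exp s : Circle) : ℂ).im = Real.sin s := by
  rw [Circle.coe_exp, Complex.exp_ofReal_mul_I_im]

theorem saddle_realAnalytic : saddle.IsRealAnalytic := by
  intro s
  have hcos : AnalyticAt ℝ (fun p : ℝ × ℝ => Real.cos p.1) (s, 0) :=
    AnalyticAt.fun_comp (f := fun p : ℝ × ℝ => p.1) (g := Real.cos)
      (Real.contDiff_cos (n := ⊤)).contDiffAt.analyticAt analyticAt_fst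
  have hsin : AnalyticAt ℝ (fun p : ℝ × ℝ => Real.sin p.1) (s, 0) :=
    AnalyticAt.fun_comp (f := fun p : ℝ × ℝ => p.1) (g := Real.sin)
      (Real.contDiff_sin (n := ⊤)).contDiffAt.analyticAt analyticAt_fst
  have hX : AnalyticAt ℝ (fun p : ℝ × ℝ => cX (Circle.exp p.1, p.2)) (s, 0) := by
    simp only [cX_exp]
    exact hcos.add ((analyticAt_const.mul analyticAt_snd).mul hsin)
  have hY : AnalyticAt ℝ (fun p : ℝ × ℝ => cY (Circle.exp p.1, p.2)) (s, 0) := by
    simp only [cY_exp]
    exact hsin.add (analyticAt_snd.mul hcos)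
  by_cases hc : Real.cos s = 0
  · have hs : Real.sin s ≠ 0 := by
      intro h
      have := Real.sin_sq_add_cos_sq s
      rw [h, hc] at this
      norm_num at this
    refine ⟨sQ, saddle_Q (by rw [im_exp]; exact hs), ?_⟩
    refine hX.mul (AnalyticAt.fun_comp (f := fun p : ℝ × ℝ => cY (Circle.exp p.1, p.2)) (g := phi)
      (isADiffAt_phi ?_).1 hY)
    simpa [cY_exp] using hs
  · refine ⟨sP, saddle_P (by rw [re_exp]; exact hc), ?_⟩
    refine (AnalyticAt.fun_comp (f := fun p : ℝ × ℝ => cX (Circle.exp p.1, p.2)) (g := psi)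
      (analyticAt_psi ?_) hX).mul hY
    simpa [cX_exp] using hc

end Pool.Agent.helper68
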