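import Pool.Agent.helper68.Realize
import Pool.Agent.helper68.Saddle

/-! The grid argument: the pull-back to a long rectangle of a structure on `S¹ × [0,1]` whose
bottom is the saddle structure is realized in an analytic tree. -/

open Filter Topology Set

namespace Pool.Agent.helper68

/-- the covering `ℝ × ℝ → S¹ × [0,1]` -/
noncomputable def kap : C(ℝ × ℝ, Circle × unitInterval) :=
  ⟨fun p => (Circle.exp p.1, Set.projIcc 0 1 zero_le_one p.2),
    (Circle.exp.continuous.comp continuous_fst).prodMk (continuous_projIcc.comp continuous_snd)⟩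

theorem kap_apply (p : ℝ × ℝ) :
    kap p = (Circle.exp p.1, Set.projIcc 0 1 zero_le_one p.2) := rfl

theorem dist_circle_exp (s s' : ℝ) : dist (Circle.exp s) (Circle.exp s') ≤ dist s s' := by
  have h1 : dist (Circle.exp s) (Circle.exp s') =
      ‖(Circle.exp s : ℂ) - (Circle.exp s' : ℂ)‖ := by
    rw [← dist_eq_norm]; rfl
  rw [h1, Circle.coe_exp, Circle.coe_exp]
  have h2 : Complex.exp (s * Complex.I) - Complex.exp (s' * Complex.I) =
      Complex.exp (s' * Complex.I) * (Complex.exp (Complex.I * ((s - s' : ℝ) : ℂ)) - 1) := by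
    rw [mul_sub, ← Complex.exp_add]
    congr 2
    · push_cast; ring
    · ring
  rw [h2, norm_mul, Complex.norm_exp_ofReal_mul_I, one_mul]
  exact Real.norm_exp_I_mul_ofReal_sub_one_le

theorem dist_kap (p p' : ℝ × ℝ) : dist (kap p) (kap p') ≤ dist p p' := by
  rw [kap_apply, kap_apply, Prod.dist_eq, Prod.dist_eq]
  refine max_le_max (dist_circle_exp _ _) ?_
  have := (LipschitzWith.projIcc (zero_le_one (α := ℝ))).dist_le_mul p.2 p'.2
  simpa using this

theorem exists_lebesgue (Ξ : GammaStructure (Circle × unitInterval)) :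
    ∃ δ > 0, ∀ p : ℝ × ℝ, ∃ F, ∀ p', dist p' p < δ → (Ξ.pullback kap).IsFI p' F := by
  obtain ⟨δ, hδ, h⟩ := lebesgue_number_lemma_of_metric (s := (univ : Set (Circle × unitInterval)))
    (c := fun F : (Circle × unitInterval) × ℝ → ℝ => interior {y | Ξ.IsFI y F}) isCompact_univ
    (fun F => isOpen_interior) (by
      intro y _
      obtain ⟨F, hF⟩ := Ξ.exists_fi y
      rw [mem_iUnion]
      exact ⟨F, mem_interior_iff_mem_nhds.2 (Ξ.locality y F hF)⟩)
  refine ⟨δ, hδ, fun p => ?_⟩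
  obtain ⟨F, hF⟩ := h (kap p) (mem_univ _)
  refine ⟨fun z => F (kap z.1, z.2), fun p' hp' => ⟨F, ?_, Eventually.of_forall fun _ => rfl⟩⟩
  have h3 : kap p' ∈ interior {y | Ξ.IsFI y F} := hF (lt_of_le_of_lt (dist_kap p' p) hp')
  have h4 : kap p' ∈ {y | Ξ.IsFI y F} := interior_subset h3
  exact h4

theorem projIcc_of_lt {t : ℝ} (h : t < 0) :
    Set.projIcc (0 : ℝ) 1 zero_le_one t = (0 : unitInterval) := by
  rw [Set.projIcc_of_le_left _ h.le]; rfl

theorem projIcc_of_gt {t : ℝ} (h : 1 < t) :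
    Set.projIcc (0 : ℝ) 1 zero_le_one t = (1 : unitInterval) := by
  rw [Set.projIcc_of_right_le _ h.le]; rfl

/-- first integrals at points below the bottom -/
theorem isFI_below {Ξ : GammaStructure (Circle × unitInterval)} {ξ : GammaStructure Circle}
    (h0 : Ξ.pullback ⟨fun x => (x, 0), by fun_prop⟩ = ξ) {s t : ℝ} (ht : t < 0)
    {G : Circle × ℝ → ℝ} (hG : ξ.IsFI (Circle.exp s) G) :
    (Ξ.pullback kap).IsFI (s, t) (fun z => G (Circle.exp z.1.1, z.2)) := by
  subst h0
  obtain ⟨F, hF, e⟩ := hG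
  refine ⟨F, ?_, ?_⟩
  · rw [kap_apply, projIcc_of_lt ht]; exact hF
  · have h1 : Tendsto (fun z : (ℝ × ℝ) × ℝ => ((Circle.exp z.1.1, z.2) : Circle × ℝ))
        (𝓝 ((s, t), 0)) (𝓝 (Circle.exp s, 0)) :=
      ((Circle.exp.continuous.comp (continuous_fst.comp continuous_fst)).prodMk
        continuous_snd).tendsto ((s, t), (0 : ℝ))
    have h2 : ∀ᶠ z in 𝓝 (((s, t), 0) : (ℝ × ℝ) × ℝ), z.1.2 < 0 :=
      (continuous_snd.comp continuous_fst).continuousAt.eventually (gt_mem_nhds ht)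
    filter_upwards [h1.eventually e, h2] with z hz1 hz2
    rw [hz1, kap_apply, projIcc_of_lt hz2]
    rfl

/-- first integrals at points above the top -/
theorem isFI_above {Ξ : GammaStructure (Circle × unitInterval)} {η : GammaStructure Circle}
    (h1 : Ξ.pullback ⟨fun x => (x, 1), by fun_prop⟩ = η) {s t : ℝ} (ht : 1 < t)
    {G : Circle × ℝ → ℝ} (hG : η.IsFI (Circle.exp s) G) :
    (Ξ.pullback kap).IsFI (s, t) (fun z => G (Circle.exp z.1.1, z.2)) := by
  subst h1
  obtain ⟨F, hF, e⟩ := hG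
  refine ⟨F, ?_, ?_⟩
  · rw [kap_apply, projIcc_of_gt ht]; exact hF
  · have h1 : Tendsto (fun z : (ℝ × ℝ) × ℝ => ((Circle.exp z.1.1, z.2) : Circle × ℝ))
        (𝓝 ((s, t), 0)) (𝓝 (Circle.exp s, 0)) :=
      ((Circle.exp.continuous.comp (continuous_fst.comp continuous_fst)).prodMk
        continuous_snd).tendsto ((s, t), (0 : ℝ))
    have h2 : ∀ᶠ z in 𝓝 (((s, t), 0) : (ℝ × ℝ) × ℝ), 1 < z.1.2 :=
      (continuous_snd.comp continuous_fst).continuousAt.eventually (lt_mem_nhds ht)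
    filter_upwards [h1.eventually e, h2] with z hz1 hz2
    rw [hz1, kap_apply, projIcc_of_gt hz2]
    rfl

/-- first integral on the bottom cell `q` -/
noncomputable def botF (q : ℕ) : (ℝ × ℝ) × ℝ → ℝ :=
  fun z => (if Even q then sP else sQ) (Circle.exp z.1.1, z.2)

theorem cos_ne_zero_near {r : ℕ} {s : ℝ}
    (h : s ∈ Icc ((r : ℝ) * Real.pi - 3 * Real.pi / 8) (r * Real.pi + 3 * Real.pi / 8)) :
    Real.cos s ≠ 0 := by
  have hpi := Real.pi_pos
  have h1 : 0 < Real.cos (s - r * Real.pi) := by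
    apply Real.cos_pos_of_mem_Ioo
    constructor <;> [linarith [h.1]; linarith [h.2]]
  have h2 : Real.cos (s - r * Real.pi) = (-1) ^ r * Real.cos s := Real.cos_sub_nat_mul_pi s r
  intro h0
  rw [h2, h0, mul_zero] at h1
  exact lt_irrefl _ h1

theorem sin_ne_zero_near {r : ℕ} {s : ℝ}
    (h : s ∈ Icc ((r : ℝ) * Real.pi + Real.pi / 2 - 3 * Real.pi / 8)
      (r * Real.pi + Real.pi / 2 + 3 * Real.pi / 8)) :
    Real.sin s ≠ 0 := by
  have hpi := Real.pi_pos
  have h1 : 0 < Real.sin (s - r * Real.pi) := by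
    apply Real.sin_pos_of_pos_of_lt_pi
    · linarith [h.1]
    · linarith [h.2]
  have h2 : Real.sin (s - r * Real.pi) = (-1) ^ r * Real.sin s := Real.sin_sub_nat_mul_pi s r
  intro h0
  rw [h2, h0, mul_zero] at h1
  exact lt_irrefl _ h1

/-- bottom cell -/
noncomputable def botR (q : ℕ) : Set (ℝ × ℝ) :=
  Icc ((q : ℝ) * (Real.pi / 2) - 3 * Real.pi / 8) (q * (Real.pi / 2) + 3 * Real.pi / 8) ×ˢ
    Icc (-2) (-1)

theorem botF_isFI {Ξ : GammaStructure (Circle × unitInterval)}
    (h0 : Ξ.pullback ⟨fun x => (x, 0), by fun_prop⟩ = saddle) (q : ℕ) (p : ℝ × ℝ)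
    (hp : p ∈ botR q) : (Ξ.pullback kap).IsFI p (botF q) := by
  obtain ⟨s, t⟩ := p
  obtain ⟨hs, ht⟩ := hp
  simp only at hs ht
  have ht' : t < 0 := by linarith [ht.2]
  unfold botF
  by_cases hq : Even q
  · obtain ⟨r, hr⟩ := hq
    have hr' : (q : ℝ) * (Real.pi / 2) = r * Real.pi := by
      rw [hr]; push_cast; ring
    rw [hr'] at hs
    rw [if_pos ⟨r, hr⟩]
    exact isFI_below h0 ht' (saddle_P (by rw [re_exp]; exact cos_ne_zero_near hs))
  · obtain ⟨r, hr⟩ := Nat.not_even_iff_odd.1 hq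
    have hr' : (q : ℝ) * (Real.pi / 2) = r * Real.pi + Real.pi / 2 := by
      rw [hr]; push_cast; ring
    rw [hr'] at hs
    rw [if_neg hq]
    exact isFI_below h0 ht' (saddle_Q (by rw [im_exp]; exact sin_ne_zero_near hs))

section grid

variable (h : ℝ) (Fc : ℕ × ℕ → (ℝ × ℝ) × ℝ → ℝ)

/-- cells -/
noncomputable def cell : ℕ × ℕ → Set (ℝ × ℝ)
  | (0, q) => botR q
  | (j + 1, i) => Icc ((i : ℝ) * h) ((i + 1) * h) ×ˢ Icc (-1 + (j : ℝ) * h) (-1 + (j + 1) * h)

/-- first integrals on cells -/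
noncomputable def cellF : ℕ × ℕ → (ℝ × ℝ) × ℝ → ℝ
  | (0, q) => botF q
  | (j + 1, i) => Fc (j, i)

/-- index sets -/
def idx (Q M J I : ℕ) : Set (ℕ × ℕ) :=
  {x | (x.1 = 0 ∧ x.2 ≤ Q) ∨ (∃ j, x.1 = j + 1 ∧ ((j < J ∧ x.2 < M) ∨ (j = J ∧ x.2 < I)))}

theorem cell_closed (x : ℕ × ℕ) : IsClosed (cell h x) := by
  obtain ⟨j, i⟩ := x
  cases j with
  | zero => exact isClosed_Icc.prod isClosed_Icc
  | succ j => exact isClosed_Icc.prod isClosed_Icc

theorem idx_finite (Q M J I : ℕ) : (idx Q M J I).Finite := by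
  refine Set.Finite.subset ((Set.finite_Iic (J + 1)).prod (Set.finite_Iic (Q + M + I))) ?_
  rintro ⟨x, y⟩ hxy
  simp only [mem_prod, mem_Iic]
  rcases hxy with ⟨h1, h2⟩ | ⟨j, h1, h2 | h2⟩ <;> simp only at h1 h2 <;> omega

theorem realizable_bottom {Ξ : GammaStructure (Circle × unitInterval)}
    (h0 : Ξ.pullback ⟨fun x => (x, 0), by fun_prop⟩ = saddle) (Q : ℕ) :
    Realizable (cell h) (cellF Fc) {x | x.1 = 0 ∧ x.2 ≤ Q} := by
  have hpi := Real.pi_pos
  induction Q with
  | zero =>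
    have : {x : ℕ × ℕ | x.1 = 0 ∧ x.2 ≤ 0} = {(0, 0)} := by
      ext ⟨a, b⟩; simp
    rw [this]
    exact realizable_singleton _ _ _
  | succ Q ih =>
    have hset : {x : ℕ × ℕ | x.1 = 0 ∧ x.2 ≤ Q + 1} =
        insert (0, Q + 1) {x | x.1 = 0 ∧ x.2 ≤ Q} := by
      ext ⟨a, b⟩
      simp only [mem_ofPred_eq, mem_insert_iff, Prod.mk.injEq]
      constructor
      · rintro ⟨h1, h2⟩
        rcases Nat.lt_or_ge Q b with h3 | h3
        · left; exact ⟨h1, by omega⟩
        · right; exact ⟨h1, h3⟩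
      · rintro (⟨h1, h2⟩ | ⟨h1, h2⟩)
        · exact ⟨h1, by omega⟩
        · exact ⟨h1, by omega⟩
    have hinter : cell h (0, Q + 1) ∩ ⋃ i ∈ {x : ℕ × ℕ | x.1 = 0 ∧ x.2 ≤ Q}, cell h i =
        Icc (((Q + 1 : ℕ) : ℝ) * (Real.pi / 2) - 3 * Real.pi / 8)
          (Q * (Real.pi / 2) + 3 * Real.pi / 8) ×ˢ Icc (-2) (-1) := by
      ext ⟨s, t⟩
      simp only [mem_inter_iff, mem_iUnion, exists_prop, mem_ofPred_eq]
      constructor
      · rintro ⟨⟨h1, h2⟩, ⟨a, b⟩, ⟨h3, h4⟩, h5⟩
        simp only at h3 h4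
        subst h3
        obtain ⟨h6, h7⟩ := h5
        refine ⟨⟨h1.1, ?_⟩, h2⟩
        have hb : (b : ℝ) ≤ Q := by exact_mod_cast h4
        have := h6.2
        simp only at this ⊢
        nlinarith
      · rintro ⟨h1, h2⟩
        refine ⟨⟨⟨h1.1, ?_⟩, h2⟩, (0, Q), ⟨rfl, le_rfl⟩, ⟨⟨?_, h1.2⟩, h2⟩⟩
        · have := h1.2
          simp only at this ⊢
          push_cast
          linarith
        · have := h1.1
          simp only at this ⊢
          push_cast at this
          linarith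
    rw [hset]
    refine realizable_insert (Ξ.pullback kap) (cell h) (cellF Fc) ?_ ?_ ?_ ?_ ?_ ?_ ?_ ih
    · refine Set.Finite.subset ((Set.finite_Iic 0).prod (Set.finite_Iic Q)) ?_
      rintro ⟨a, b⟩ ⟨h1, h2⟩
      simp only at h1 h2
      simp only [mem_prod, mem_Iic]
      omega
    · rintro ⟨_, h2⟩; simp only at h2; omega
    · intro i _; exact cell_closed h i
    · intro p hp; exact botF_isFI h0 (Q + 1) p hp
    · rintro ⟨a, b⟩ ⟨h1, _⟩ p hp
      simp only at h1; subst h1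
      exact botF_isFI h0 b p hp
    · rw [hinter]
      exact isPreconnected_Icc.prod isPreconnected_Icc
    · rw [hinter]
      refine ⟨(Q * (Real.pi / 2) + 3 * Real.pi / 8, -1), ⟨⟨?_, le_rfl⟩, by norm_num, le_rfl⟩⟩
      push_cast
      linarith

theorem realizable_step {Ξ : GammaStructure (Circle × unitInterval)}
    (h0 : Ξ.pullback ⟨fun x => (x, 0), by fun_prop⟩ = saddle) {Q M k : ℕ} (hh : 0 < h)
    (hQ : (M : ℝ) * h ≤ Q * (Real.pi / 2))
    (hFc : ∀ j < k, ∀ i < M, ∀ p ∈ cell h (j + 1, i), (Ξ.pullback kap).IsFI p (Fc (j, i)))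
    {J I : ℕ} (hJ : J < k) (hI : I < M) (ih : Realizable (cell h) (cellF Fc) (idx Q M J I)) :
    Realizable (cell h) (cellF Fc) (idx Q M J (I + 1)) := by
  have hpi := Real.pi_pos
  have hset : idx Q M J (I + 1) = insert (J + 1, I) (idx Q M J I) := by
    ext ⟨a, b⟩
    simp only [idx, mem_ofPred_eq, mem_insert_iff, Prod.mk.injEq]
    constructor
    · rintro (⟨h1, h2⟩ | ⟨j, h1, h2 | ⟨h2, h3⟩⟩)
      · exact Or.inr (Or.inl ⟨h1, h2⟩)
      · exact Or.inr (Or.inr ⟨j, h1, Or.inl h2⟩)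
      · rcases Nat.lt_or_ge b I with h4 | h4
        · exact Or.inr (Or.inr ⟨j, h1, Or.inr ⟨h2, h4⟩⟩)
        · left; exact ⟨by omega, by omega⟩
    · rintro (⟨h1, h2⟩ | ⟨h1, h2⟩ | ⟨j, h1, h2 | ⟨h2, h3⟩⟩)
      · exact Or.inr ⟨J, h1, Or.inr ⟨rfl, by omega⟩⟩
      · exact Or.inl ⟨h1, h2⟩
      · exact Or.inr ⟨j, h1, Or.inl h2⟩
      · exact Or.inr ⟨j, h1, Or.inr ⟨h2, by omega⟩⟩
  have hIM : ((I : ℝ) + 1) * h ≤ M * h := by
    have : ((I : ℝ) + 1) ≤ M := by exact_mod_cast hI
    nlinarith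
  have hinter : cell h (J + 1, I) ∩ ⋃ i ∈ idx Q M J I, cell h i =
      (Icc ((I : ℝ) * h) ((I + 1) * h) ×ˢ {-1 + (J : ℝ) * h}) ∪
      (if 0 < I then {(I : ℝ) * h} ×ˢ Icc (-1 + (J : ℝ) * h) (-1 + (J + 1) * h) else ∅) := by
    ext ⟨s, t⟩
    simp only [mem_inter_iff, mem_iUnion, exists_prop, mem_union]
    constructor
    · rintro ⟨⟨h1, h2⟩, ⟨a, b⟩, h3, h4⟩
      simp only at h1 h2
      rcases h3 with ⟨h3, h5⟩ | ⟨j, h3, ⟨h5, h6⟩ | ⟨h5, h6⟩⟩
      · simp only at h3; subst h3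
        obtain ⟨h6, h7⟩ := h4
        simp only at h6 h7
        left
        refine ⟨h1, ?_⟩
        have hJ0 : (0 : ℝ) ≤ (J : ℝ) * h := by positivity
        rw [mem_singleton_iff]
        have := h2.1
        have := h7.2
        linarith
      · simp only at h3 h5 h6; subst h3
        obtain ⟨h7, h8⟩ := h4
        simp only at h7 h8
        left
        refine ⟨h1, ?_⟩
        rw [mem_singleton_iff]
        have hj : ((j : ℝ) + 1) * h ≤ J * h := by
          have : ((j : ℝ) + 1) ≤ J := by exact_mod_cast h5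
          nlinarith
        have := h2.1
        have := h8.2
        linarith
      · simp only at h3 h5 h6; subst h3; subst h5
        obtain ⟨h7, h8⟩ := h4
        simp only at h7 h8
        right
        rw [if_pos (by omega)]
        refine ⟨?_, h2⟩
        rw [mem_singleton_iff]
        have hb : ((b : ℝ) + 1) * h ≤ I * h := by
          have : ((b : ℝ) + 1) ≤ I := by exact_mod_cast h6
          nlinarith
        have := h1.1
        have := h7.2
        simp only at *
        linarith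
    · rintro (⟨h1, h2⟩ | h1)
      · rw [mem_singleton_iff] at h2
        simp only at h1 h2
        subst h2
        refine ⟨⟨h1, ⟨le_rfl, by simp only; nlinarith⟩⟩, ?_⟩
        cases J with
        | zero =>
          -- choose q
          have hs0 : 0 ≤ s := le_trans (by positivity) h1.1
          have hsM : s ≤ Q * (Real.pi / 2) := h1.2.trans (hIM.trans hQ)
          set q : ℕ := ⌊s / (Real.pi / 2) + 1 / 2⌋₊ with hq
          have hd : 0 ≤ s / (Real.pi / 2) := by positivity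
          have hq1 : (q : ℝ) ≤ s / (Real.pi / 2) + 1 / 2 := Nat.floor_le (by positivity)
          have hq2 : s / (Real.pi / 2) + 1 / 2 < q + 1 := Nat.lt_floor_add_one _
          have hsd : s = s / (Real.pi / 2) * (Real.pi / 2) := by field_simp
          have hle : s / (Real.pi / 2) ≤ Q := by
            rw [div_le_iff₀ (by positivity)]; exact hsM
          refine ⟨(0, q), Or.inl ⟨rfl, ?_⟩, ⟨⟨?_, ?_⟩, ⟨by norm_num, by norm_num⟩⟩⟩
          · have : (q : ℝ) < Q + 1 := by linarith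
            have : q < Q + 1 := by exact_mod_cast this
            omega
          · simp only
            nlinarith
          · simp only
            nlinarith
        | succ J =>
          refine ⟨(J + 1, I), Or.inr ⟨J, rfl, Or.inl ⟨by omega, hI⟩⟩, ⟨h1, ⟨?_, ?_⟩⟩⟩
          · simp only; push_cast; nlinarith
          · simp only; push_cast; nlinarith
      · by_cases hI0 : 0 < I
        · rw [if_pos hI0] at h1
          obtain ⟨h1, h2⟩ := h1
          rw [mem_singleton_iff] at h1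
          simp only at h1 h2
          subst h1
          refine ⟨⟨⟨le_rfl, by simp only; nlinarith⟩, h2⟩, ?_⟩
          obtain ⟨I', rfl⟩ : ∃ I', I = I' + 1 := ⟨I - 1, by omega⟩
          refine ⟨(J + 1, I'), Or.inr ⟨J, rfl, Or.inr ⟨rfl, by simp⟩⟩, ⟨⟨?_, ?_⟩, h2⟩⟩
          · simp only; push_cast; nlinarith
          · simp only; push_cast; nlinarith
        · rw [if_neg hI0] at h1
          exact absurd h1 (by simp)
  rw [hset]
  refine realizable_insert (Ξ.pullback kap) (cell h) (cellF Fc) (idx_finite _ _ _ _) ?_ ?_ ?_ ?_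
    ?_ ?_ ih
  · rintro (⟨h1, h2⟩ | ⟨j, h1, ⟨h2, h3⟩ | ⟨h2, h3⟩⟩) <;> simp only at h1 <;> try simp only at h2
    all_goals try simp only at h3
    all_goals omega
  · intro i _; exact cell_closed h i
  · intro p hp; exact hFc J hJ I hI p hp
  · rintro ⟨a, b⟩ hab p hp
    rcases hab with ⟨h1, h2⟩ | ⟨j, h1, ⟨h2, h3⟩ | ⟨h2, h3⟩⟩
    · simp only at h1; subst h1
      exact botF_isFI h0 b p hp
    · simp only at h1 h3; subst h1
      exact hFc j (by omega) b h3 p hp
    · simp only at h1 h3; subst h1; subst h2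
      exact hFc j hJ b (by omega) p hp
  · rw [hinter]
    by_cases hI0 : 0 < I
    · rw [if_pos hI0]
      refine IsPreconnected.union ((I : ℝ) * h, -1 + (J : ℝ) * h) ?_ ?_
        (isPreconnected_Icc.prod isPreconnected_singleton)
        (isPreconnected_singleton.prod isPreconnected_Icc)
      · exact ⟨⟨le_rfl, by simp only; nlinarith⟩, rfl⟩
      · exact ⟨rfl, ⟨le_rfl, by simp only; nlinarith⟩⟩
    · rw [if_neg hI0, union_empty]
      exact isPreconnected_Icc.prod isPreconnected_singleton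
  · rw [hinter]
    exact ⟨((I : ℝ) * h, -1 + (J : ℝ) * h), Or.inl ⟨⟨le_rfl, by simp only; nlinarith⟩, rfl⟩⟩

theorem realizable_grid {Ξ : GammaStructure (Circle × unitInterval)}
    (h0 : Ξ.pullback ⟨fun x => (x, 0), by fun_prop⟩ = saddle) {Q M k : ℕ} (hh : 0 < h)
    (hQ : (M : ℝ) * h ≤ Q * (Real.pi / 2))
    (hFc : ∀ j < k, ∀ i < M, ∀ p ∈ cell h (j + 1, i), (Ξ.pullback kap).IsFI p (Fc (j, i))) :
    Realizable (cell h) (cellF Fc) (idx Q M k 0) := by
  have key : ∀ J ≤ k, Realizable (cell h) (cellF Fc) (idx Q M J 0) := by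
    intro J hJ
    induction J with
    | zero =>
      have : idx Q M 0 0 = {x | x.1 = 0 ∧ x.2 ≤ Q} := by
        ext ⟨a, b⟩
        simp [idx]
      rw [this]
      exact realizable_bottom h Fc h0 Q
    | succ J ih =>
      have hrow : ∀ I ≤ M, Realizable (cell h) (cellF Fc) (idx Q M J I) := by
        intro I hI
        induction I with
        | zero => exact ih (by omega)
        | succ I ihI => exact realizable_step h Fc h0 hh hQ hFc (by omega) (by omega) (ihI (by omega))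
      have : idx Q M (J + 1) 0 = idx Q M J M := by
        ext ⟨a, b⟩
        simp only [idx, mem_ofPred_eq]
        constructor
        · rintro (h1 | ⟨j, h1, ⟨h2, h3⟩ | ⟨h2, h3⟩⟩)
          · exact Or.inl h1
          · refine Or.inr ⟨j, h1, ?_⟩
            rcases Nat.lt_or_ge j J with h4 | h4
            · exact Or.inl ⟨h4, h3⟩
            · exact Or.inr ⟨by omega, h3⟩
          · omega
        · rintro (h1 | ⟨j, h1, ⟨h2, h3⟩ | ⟨h2, h3⟩⟩)
          · exact Or.inl h1
          · exact Or.inr ⟨j, h1, Or.inl ⟨by omega, h3⟩⟩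
          · exact Or.inr ⟨j, h1, Or.inl ⟨by omega, h3⟩⟩
      rw [this]
      exact hrow M le_rfl
  exact key k le_rfl

end grid

end Pool.Agent.helper68
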