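import Pool.Agent.helper68.ADiff

/-!
# Haefliger structures for the groupoid of real-analytic germs of the line

Definitions used in the statement of the result for problem MP_c87be1_gt.

For a topological space `X`, a `GammaStructure X` is the germ along the zero section `X × {0}`
of a codimension-one foliation of `X × ℝ` which is transverse to the fibres `{x} × ℝ` and
transversely real-analytic.  It is recorded by its local first integrals: functions `F (x, t)`
defined near a point `(x₀, 0)`, continuous, real-analytic with positive derivative in the fibre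
variable `t`, whose level sets are the leaves.  Two local first integrals at the same point differ
by left composition with the germ of an orientation-preserving real-analytic local diffeomorphism
of `ℝ`, so that changes of charts are cocycles with values in the groupoid `Γ₁^ω`.
-/

open Filter Topology Set

namespace Pool.Agent.helper68

/-- `IsFirstIntegralAt F x`: at every point `(x', t)` near `(x, 0)` the function `F` is continuous,
and it is real-analytic with positive derivative in the fibre variable `t`. Its level sets then
form a foliation of a neighbourhood of `(x, 0)`, transverse to the fibres. -/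
def IsFirstIntegralAt {X : Type*} [TopologicalSpace X] (F : X × ℝ → ℝ) (x : X) : Prop :=
  ∀ᶠ z in 𝓝 (x, (0 : ℝ)), ContinuousAt F z ∧ IsADiffAt (fun t => F (z.1, t)) z.2

/-- A `Γ̄₁^ω`-structure on the topological space `X`: the germ along `X × {0}` of a transversely
real-analytic codimension-one foliation of `X × ℝ` transverse to the fibres.
`IsFI x F` says that (the germ at `(x, 0)` of) `F` is a first integral of the foliation near
`(x, 0)`, increasing along the fibres. -/
@[ext]
structure GammaStructure (X : Type*) [TopologicalSpace X] where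
  /-- `F` is a local first integral of the foliation near `(x, 0)` -/
  IsFI : X → (X × ℝ → ℝ) → Prop
  /-- there is a local first integral near every point of the zero section -/
  exists_fi : ∀ x, ∃ F, IsFI x F
  /-- regularity of local first integrals -/
  regular : ∀ x F, IsFI x F → IsFirstIntegralAt F x
  /-- a local first integral near `(x, 0)` is one near `(x', 0)` for all `x'` close to `x` -/
  locality : ∀ x F, IsFI x F → ∀ᶠ x' in 𝓝 x, IsFI x' F
  /-- the local first integrals near `(x, 0)` are exactly the functions `g ∘ F` where `F` is one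
  of them and `g` is the germ of an orientation-preserving analytic local diffeomorphism -/
  compat : ∀ x F G, IsFI x F → (IsFI x G ↔
    ∃ g : ℝ → ℝ, IsADiffAt g (F (x, 0)) ∧ ∀ᶠ z in 𝓝 (x, (0 : ℝ)), G z = g (F z))

namespace GammaStructure

variable {X Y Z : Type*} [TopologicalSpace X] [TopologicalSpace Y] [TopologicalSpace Z]

theorem tendsto_map (φ : C(Y, X)) (y : Y) (t : ℝ) :
    Tendsto (fun z : Y × ℝ => (φ z.1, z.2)) (𝓝 (y, t)) (𝓝 (φ y, t)) :=
  ((φ.continuous.comp continuous_fst).prodMk continuous_snd).tendsto (y, t)

/-- Pull-back of a `Γ̄₁^ω`-structure by a continuous map `φ : Y → X`: the local first integrals are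
the functions `(y, t) ↦ F (φ y, t)`. -/
def pullback (Ω : GammaStructure X) (φ : C(Y, X)) : GammaStructure Y where
  IsFI y G := ∃ F, Ω.IsFI (φ y) F ∧ ∀ᶠ z in 𝓝 (y, (0 : ℝ)), G z = F (φ z.1, z.2)
  exists_fi y := by
    obtain ⟨F, hF⟩ := Ω.exists_fi (φ y)
    exact ⟨fun z => F (φ z.1, z.2), F, hF, Eventually.of_forall fun _ => rfl⟩
  regular := by
    rintro y G ⟨F, hF, e⟩
    have h1 := (tendsto_map φ y 0).eventually (Ω.regular _ _ hF)
    filter_upwards [h1, e.eventually_nhds] with z hz he
    refine ⟨?_, ?_⟩
    · have : ContinuousAt (fun z : Y × ℝ => F (φ z.1, z.2)) z :=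
        ContinuousAt.comp (f := fun z : Y × ℝ => (φ z.1, z.2)) hz.1 (tendsto_map φ z.1 z.2)
      exact this.congr (by filter_upwards [he] with w hw using hw.symm)
    · refine hz.2.congr ?_
      have : Tendsto (fun t : ℝ => (z.1, t)) (𝓝 z.2) (𝓝 z) :=
        (continuous_const.prodMk continuous_id).tendsto z.2
      filter_upwards [this.eventually he] with t ht using ht.symm
  locality := by
    rintro y G ⟨F, hF, e⟩
    have h1 := φ.continuous.continuousAt.eventually (Ω.locality _ _ hF)
    have h2 : Tendsto (fun y' : Y => (y', (0 : ℝ))) (𝓝 y) (𝓝 (y, 0)) :=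
      (continuous_id.prodMk continuous_const).tendsto y
    filter_upwards [h1, h2.eventually e.eventually_nhds] with y' a1 a2
    exact ⟨F, a1, a2⟩
  compat := by
    rintro y F' G' ⟨F, hF, e⟩
    constructor
    · rintro ⟨G, hG, e'⟩
      obtain ⟨g, hg, hge⟩ := (Ω.compat _ _ _ hF).1 hG
      refine ⟨g, ?_, ?_⟩
      · rw [e.self_of_nhds]; exact hg
      · filter_upwards [e, e', (tendsto_map φ y 0).eventually hge] with z h1 h2 h3
        rw [h1, h2, h3]
    · rintro ⟨g, hg, hge⟩
      refine ⟨fun z => g (F z), (Ω.compat _ _ _ hF).2 ⟨g, ?_, Eventually.of_forall fun _ => rfl⟩, ?_⟩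
      · rw [e.self_of_nhds] at hg; exact hg
      · filter_upwards [e, hge] with z h1 h2
        rw [h2, h1]

/-- The trivial `Γ̄₁^ω`-structure: the product foliation of `X × ℝ` with leaves `X × {t}`. It is
the structure induced by constant maps. -/
def trivial (X : Type*) [TopologicalSpace X] : GammaStructure X where
  IsFI x G := ∃ g : ℝ → ℝ, IsADiffAt g 0 ∧ ∀ᶠ z in 𝓝 (x, (0 : ℝ)), G z = g z.2
  exists_fi x := ⟨fun z => z.2, fun t => t, isADiffAt_id 0, Eventually.of_forall fun _ => rfl⟩
  regular := by
    rintro x G ⟨g, hg, e⟩
    have h1 : Tendsto (fun z : X × ℝ => z.2) (𝓝 (x, 0)) (𝓝 0) := continuous_snd.tendsto (x, (0:ℝ))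
    filter_upwards [h1.eventually hg.eventually, e.eventually_nhds] with z hz he
    refine ⟨?_, ?_⟩
    · have : ContinuousAt (fun z : X × ℝ => g z.2) z :=
        ContinuousAt.comp (f := fun z : X × ℝ => z.2) hz.continuousAt (continuous_snd.tendsto z)
      exact this.congr (by filter_upwards [he] with w hw using hw.symm)
    · refine hz.congr ?_
      have : Tendsto (fun t : ℝ => (z.1, t)) (𝓝 z.2) (𝓝 z) :=
        (continuous_const.prodMk continuous_id).tendsto z.2
      filter_upwards [this.eventually he] with t ht using ht.symm
  locality := by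
    rintro x G ⟨g, hg, e⟩
    have h2 : Tendsto (fun y' : X => (y', (0 : ℝ))) (𝓝 x) (𝓝 (x, 0)) :=
      (continuous_id.prodMk continuous_const).tendsto x
    filter_upwards [h2.eventually e.eventually_nhds] with y' a2
    exact ⟨g, hg, a2⟩
  compat := by
    rintro x F G ⟨f, hf, e⟩
    have h1 : Tendsto (fun z : X × ℝ => z.2) (𝓝 (x, 0)) (𝓝 0) := continuous_snd.tendsto (x, (0:ℝ))
    constructor
    · rintro ⟨g, hg, e'⟩
      obtain ⟨k, hk, hk0, hkl, hkr⟩ := hf.exists_inv
      refine ⟨fun u => g (k u), ?_, ?_⟩
      · rw [e.self_of_nhds]
        exact IsADiffAt.comp (by rw [hk0]; exact hg) hk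
      · filter_upwards [e, e', h1.eventually hkl] with z a1 a2 a3
        rw [a1, a2, a3]
    · rintro ⟨g, hg, e'⟩
      rw [e.self_of_nhds] at hg
      refine ⟨fun t => g (f t), hg.comp hf, ?_⟩
      filter_upwards [e, e'] with z a1 a2
      rw [a2, a1]

/-- Two `Γ̄₁^ω`-structures on `X` are concordant if they are the restrictions to the two ends of
a `Γ̄₁^ω`-structure on `X × [0, 1]`. -/
def Concordant (ξ η : GammaStructure X) : Prop :=
  ∃ Ξ : GammaStructure (X × unitInterval),
    Ξ.pullback ⟨fun x => (x, 0), by fun_prop⟩ = ξ ∧
    Ξ.pullback ⟨fun x => (x, 1), by fun_prop⟩ = η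

/-- A `Γ̄₁^ω`-structure on the circle is transverse if the zero section is transverse to the
leaves, in the (weak, topological) sense that the restriction to the zero section of every local
first integral is locally injective. -/
def IsTransverse (ξ : GammaStructure Circle) : Prop :=
  ∀ x F, ξ.IsFI x F → ∃ U ∈ 𝓝 x, InjOn (fun x' => F (x', 0)) U

/-- A `Γ̄₁^ω`-structure on the circle is real-analytic if its foliation of a neighbourhood of
`S¹ × {0}` in `S¹ × ℝ` is a real-analytic foliation: near each point of the zero section there is
a first integral which is real-analytic in both variables `(s, t) ↦ (exp (i s), t)`. -/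
def IsRealAnalytic (ξ : GammaStructure Circle) : Prop :=
  ∀ s : ℝ, ∃ F, ξ.IsFI (Circle.exp s) F ∧
    AnalyticAt ℝ (fun p : ℝ × ℝ => F (Circle.exp p.1, p.2)) (s, 0)

/-- A space `B` with a `Γ̄₁^ω`-structure `Ω` represents all loops if every `Γ̄₁^ω`-structure on
the circle is concordant to the structure induced from `Ω` by some loop `f : S¹ → B`. Haefliger's
classifying space with its universal structure has this property: homotopy classes of maps into it
correspond to concordance classes of `Γ̄₁^ω`-structures. -/
def RepresentsLoops {B : Type*} [TopologicalSpace B] (Ω : GammaStructure B) : Prop :=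
  ∀ ζ : GammaStructure Circle, ∃ f : C(Circle, B), (Ω.pullback f).Concordant ζ

end GammaStructure

end Pool.Agent.helper68
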