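import Pool.Agent.helper68.Grid
import Pool.Agent.helper68.Cusp

/-! The saddle structure is not concordant to a (weakly) monotone structure. -/

open Filter Topology Set

namespace Pool.Agent.helper68

def IncAt (η : GammaStructure Circle) (s : ℝ) : Prop :=
  ∃ G, η.IsFI (Circle.exp s) G ∧ ∃ ε > 0,
    MonotoneOn (fun s' => G (Circle.exp s', 0)) (Ioo (s - ε) (s + ε))

def DecAt (η : GammaStructure Circle) (s : ℝ) : Prop :=
  ∃ G, η.IsFI (Circle.exp s) G ∧ ∃ ε > 0,
    AntitoneOn (fun s' => G (Circle.exp s', 0)) (Ioo (s - ε) (s + ε))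

def WM (η : GammaStructure Circle) : Prop := (∀ s, IncAt η s) ∨ (∀ s, DecAt η s)

def SIncAt (η : GammaStructure Circle) (s : ℝ) : Prop :=
  ∃ G, η.IsFI (Circle.exp s) G ∧ ∃ ε > 0,
    StrictMonoOn (fun s' => G (Circle.exp s', 0)) (Ioo (s - ε) (s + ε))

def SDecAt (η : GammaStructure Circle) (s : ℝ) : Prop :=
  ∃ G, η.IsFI (Circle.exp s) G ∧ ∃ ε > 0,
    StrictAntiOn (fun s' => G (Circle.exp s', 0)) (Ioo (s - ε) (s + ε))

theorem tendsto_exp_slice (s : ℝ) :
    Tendsto (fun s' : ℝ => ((Circle.exp s', (0 : ℝ)) : Circle × ℝ)) (𝓝 s)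
      (𝓝 (Circle.exp s, 0)) :=
  (Circle.exp.continuous.prodMk continuous_const).tendsto s

theorem SIncAt.eventually {η : GammaStructure Circle} {s : ℝ} (h : SIncAt η s) :
    ∀ᶠ s' in 𝓝 s, SIncAt η s' := by
  obtain ⟨G, hG, ε, hε, hm⟩ := h
  filter_upwards [Circle.exp.continuous.continuousAt.eventually (η.locality _ _ hG),
    Ioo_mem_nhds (show s - ε / 2 < s by linarith) (show s < s + ε / 2 by linarith)] with s' h1 h2
  refine ⟨G, h1, ε / 2, by linarith, hm.mono ?_⟩
  intro x hx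
  exact ⟨by linarith [hx.1, h2.1], by linarith [hx.2, h2.2]⟩

theorem SDecAt.eventually {η : GammaStructure Circle} {s : ℝ} (h : SDecAt η s) :
    ∀ᶠ s' in 𝓝 s, SDecAt η s' := by
  obtain ⟨G, hG, ε, hε, hm⟩ := h
  filter_upwards [Circle.exp.continuous.continuousAt.eventually (η.locality _ _ hG),
    Ioo_mem_nhds (show s - ε / 2 < s by linarith) (show s < s + ε / 2 by linarith)] with s' h1 h2
  refine ⟨G, h1, ε / 2, by linarith, hm.mono ?_⟩
  intro x hx
  exact ⟨by linarith [hx.1, h2.1], by linarith [hx.2, h2.2]⟩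

theorem not_inc_and_dec {η : GammaStructure Circle} {s : ℝ} (h : SIncAt η s)
    (h' : SDecAt η s) : False := by
  obtain ⟨G, hG, ε, hε, hm⟩ := h
  obtain ⟨G', hG', ε', hε', hm'⟩ := h'
  obtain ⟨g, hg, hge⟩ := (η.compat _ G G' hG).1 hG'
  obtain ⟨r, hr, hb⟩ := Metric.eventually_nhds_iff_ball.1 hg.eventually
  have hgm : StrictMonoOn g (Metric.ball (G (Circle.exp s, 0)) r) :=
    strictMonoOn_of_isADiff (convex_ball _ _) hb
  have hcont : ContinuousAt G (Circle.exp s, 0) := (η.regular _ _ hG).self_of_nhds.1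
  have h1 : ∀ᶠ s' in 𝓝 s, G (Circle.exp s', 0) ∈ Metric.ball (G (Circle.exp s, 0)) r :=
    (tendsto_exp_slice s).eventually (hcont.eventually (Metric.ball_mem_nhds _ hr))
  have h2 : ∀ᶠ s' in 𝓝 s, G' (Circle.exp s', 0) = g (G (Circle.exp s', 0)) :=
    (tendsto_exp_slice s).eventually hge
  obtain ⟨ρ, hρ, hρb⟩ := Metric.eventually_nhds_iff_ball.1 (h1.and h2)
  rw [Real.ball_eq_Ioo] at hρb
  set d := min ρ (min ε ε') / 2 with hd
  have hmin : 0 < min ρ (min ε ε') := lt_min hρ (lt_min hε hε')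
  have hd0 : 0 < d := by positivity
  have hd1 : d < ρ := by
    have := min_le_left ρ (min ε ε'); linarith
  have hd2 : d < ε := by
    have := (min_le_right ρ (min ε ε')).trans (min_le_left ε ε'); linarith
  have hd3 : d < ε' := by
    have := (min_le_right ρ (min ε ε')).trans (min_le_right ε ε'); linarith
  have a1 := hρb s ⟨by linarith, by linarith⟩
  have a2 := hρb (s + d) ⟨by linarith, by linarith⟩
  have b1 := hm (show s ∈ Ioo (s - ε) (s + ε) from ⟨by linarith, by linarith⟩)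
    (show s + d ∈ Ioo (s - ε) (s + ε) from ⟨by linarith, by linarith⟩) (by linarith)
  have b2 := hm' (show s ∈ Ioo (s - ε') (s + ε') from ⟨by linarith, by linarith⟩)
    (show s + d ∈ Ioo (s - ε') (s + ε') from ⟨by linarith, by linarith⟩) (by linarith)
  simp only at b1 b2
  rw [a1.2, a2.2] at b2
  have b3 := hgm a1.1 a2.1 b1
  exact lt_irrefl _ (b2.trans b3)

theorem transverse_cases {η : GammaStructure Circle} (hη : η.IsTransverse) (s : ℝ) :
    SIncAt η s ∨ SDecAt η s := by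
  obtain ⟨G, hG⟩ := η.exists_fi (Circle.exp s)
  obtain ⟨U, hU, hinj⟩ := hη _ _ hG
  have h1 : ∀ᶠ s' in 𝓝 s, Circle.exp s' ∈ U := Circle.exp.continuous.continuousAt.eventually hU
  have h2 : ∀ᶠ s' in 𝓝 s, ContinuousAt G (Circle.exp s', 0) :=
    (tendsto_exp_slice s).eventually ((η.regular _ _ hG).mono fun z hz => hz.1)
  obtain ⟨ρ, hρ, hρb⟩ := Metric.eventually_nhds_iff_ball.1 (h1.and h2)
  rw [Real.ball_eq_Ioo] at hρb
  set ε := min ρ 1 with hε
  have hε0 : 0 < ε := lt_min hρ one_pos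
  have hερ : ε ≤ ρ := min_le_left _ _
  have hε1 : ε ≤ 1 := min_le_right _ _
  have hsub : ∀ x ∈ Ioo (s - ε) (s + ε), x ∈ Ioo (s - ρ) (s + ρ) := fun x hx =>
    ⟨by linarith [hx.1], by linarith [hx.2]⟩
  have hc : ContinuousOn (fun s' => G (Circle.exp s', 0)) (Ioo (s - ε) (s + ε)) := by
    intro x hx
    refine ContinuousAt.continuousWithinAt ?_
    exact ContinuousAt.comp (f := fun s' : ℝ => ((Circle.exp s', (0 : ℝ)) : Circle × ℝ))
      (g := G) (hρb x (hsub x hx)).2 (tendsto_exp_slice x)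
  have hi : InjOn (fun s' => G (Circle.exp s', 0)) (Ioo (s - ε) (s + ε)) := by
    intro x hx y hy hxy
    have h3 := hinj (hρb x (hsub x hx)).1 (hρb y (hsub y hy)).1 hxy
    obtain ⟨m, hm⟩ := Circle.exp_eq_exp.1 h3
    have hpi := Real.pi_gt_three
    have h4 : |(m : ℝ) * (2 * Real.pi)| < 2 := by
      rw [abs_lt]; constructor <;> linarith [hx.1, hx.2, hy.1, hy.2]
    have h5 : m = 0 := by
      by_contra hm0
      have h6 : (1 : ℝ) ≤ |(m : ℝ)| := by exact_mod_cast Int.one_le_abs hm0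
      rw [abs_mul, abs_of_pos (by positivity : (0 : ℝ) < 2 * Real.pi)] at h4
      nlinarith
    rw [h5] at hm
    simpa using hm
  rcases ContinuousOn.strictMonoOn_of_injOn_Ioo (by linarith) hc hi with h | h
  · exact Or.inl ⟨G, hG, ε, hε0, h⟩
  · exact Or.inr ⟨G, hG, ε, hε0, h⟩

theorem transverse_wm {η : GammaStructure Circle} (hη : η.IsTransverse) : WM η := by
  have hcases := transverse_cases hη
  by_cases h0 : ∃ s0, SIncAt η s0
  · left
    have key : (univ : Set ℝ) ⊆ {s | SIncAt η s} := by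
      refine IsPreconnected.subset_left_of_subset_union (v := {s | SDecAt η s}) ?_ ?_ ?_ ?_ ?_
        isPreconnected_univ
      · rw [isOpen_iff_mem_nhds]; intro s hs; exact SIncAt.eventually hs
      · rw [isOpen_iff_mem_nhds]; intro s hs; exact SDecAt.eventually hs
      · rw [Set.disjoint_left]; intro s hs hs'; exact not_inc_and_dec hs hs'
      · intro s _; exact hcases s
      · obtain ⟨s0, hs0⟩ := h0
        exact ⟨s0, mem_univ _, hs0⟩
    intro s
    obtain ⟨G, hG, ε, hε, hm⟩ := key (mem_univ s)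
    exact ⟨G, hG, ε, hε, hm.monotoneOn⟩
  · right
    intro s
    rcases hcases s with h | h
    · exact absurd ⟨s, h⟩ h0
    · obtain ⟨G, hG, ε, hε, hm⟩ := h
      exact ⟨G, hG, ε, hε, hm.antitoneOn⟩

theorem trivial_wm : WM (GammaStructure.trivial Circle) := by
  left
  intro s
  exact ⟨fun z => z.2, ⟨fun t => t, isADiffAt_id _, Eventually.of_forall fun _ => rfl⟩, 1, one_pos,
    fun x _ y _ _ => le_rfl⟩

theorem le_of_local {f : ℝ → ℝ} {a b : ℝ} (hab : a ≤ b) (hc : ContinuousOn f (Icc a b))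
    (h : ∀ x ∈ Ico a b, ∀ᶠ y in 𝓝[>] x, f x ≤ f y) : f a ≤ f b := by
  have hcl : IsClosed ({x | f a ≤ f x} ∩ Icc a b) := by
    have := hc.preimage_isClosed_of_isClosed isClosed_Icc (isClosed_Ici (a := f a))
    rwa [inter_comm] at this
  have := hcl.Icc_subset_of_forall_mem_nhdsWithin (show f a ≤ f a from le_rfl) (by
    rintro x ⟨hx, hx'⟩
    filter_upwards [h x hx'] with y hy
    exact le_trans hx hy)
  exact this (right_mem_Icc.2 hab)

/-- at height `t > 1`, first integrals are locally nondecreasing if `η` is -/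
theorem local_inc {Ξ : GammaStructure (Circle × unitInterval)} {η : GammaStructure Circle}
    (h1 : Ξ.pullback ⟨fun x => (x, 1), by fun_prop⟩ = η) {s t : ℝ} (ht : 1 < t)
    (hs : IncAt η s) {F : (ℝ × ℝ) × ℝ → ℝ} (hF : (Ξ.pullback kap).IsFI (s, t) F) :
    ∀ᶠ y in 𝓝[>] s, F ((s, t), 0) ≤ F ((y, t), 0) := by
  obtain ⟨G, hG, ε, hε, hm⟩ := hs
  have hG' := isFI_above h1 ht hG
  obtain ⟨g, hg, hge⟩ := ((Ξ.pullback kap).compat _ _ F hG').1 hF
  simp only at hg
  obtain ⟨r, hr, hb⟩ := Metric.eventually_nhds_iff_ball.1 hg.eventually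
  have hgm : MonotoneOn g (Metric.ball (G (Circle.exp s, 0)) r) :=
    (strictMonoOn_of_isADiff (convex_ball _ _) hb).monotoneOn
  have hcont : ContinuousAt G (Circle.exp s, 0) := (η.regular _ _ hG).self_of_nhds.1
  have e1 : ∀ᶠ s' in 𝓝 s, G (Circle.exp s', 0) ∈ Metric.ball (G (Circle.exp s, 0)) r :=
    (tendsto_exp_slice s).eventually (hcont.eventually (Metric.ball_mem_nhds _ hr))
  have hsl : Tendsto (fun y : ℝ => (((y, t), 0) : (ℝ × ℝ) × ℝ)) (𝓝 s) (𝓝 ((s, t), 0)) :=
    ((continuous_id.prodMk continuous_const).prodMk continuous_const).tendsto s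
  have e2 := hsl.eventually hge
  filter_upwards [mem_nhdsWithin_of_mem_nhds e1, mem_nhdsWithin_of_mem_nhds e2,
    mem_nhdsWithin_of_mem_nhds (Ioo_mem_nhds (show s - ε < s by linarith)
      (show s < s + ε by linarith)), self_mem_nhdsWithin] with y a1 a2 a3 a4
  rw [hge.self_of_nhds, a2]
  refine hgm (Metric.mem_ball_self hr) a1 ?_
  exact hm ⟨by linarith, by linarith⟩ a3 (le_of_lt a4)

theorem local_dec {Ξ : GammaStructure (Circle × unitInterval)} {η : GammaStructure Circle}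
    (h1 : Ξ.pullback ⟨fun x => (x, 1), by fun_prop⟩ = η) {s t : ℝ} (ht : 1 < t)
    (hs : DecAt η s) {F : (ℝ × ℝ) × ℝ → ℝ} (hF : (Ξ.pullback kap).IsFI (s, t) F) :
    ∀ᶠ y in 𝓝[>] s, - F ((s, t), 0) ≤ - F ((y, t), 0) := by
  obtain ⟨G, hG, ε, hε, hm⟩ := hs
  have hG' := isFI_above h1 ht hG
  obtain ⟨g, hg, hge⟩ := ((Ξ.pullback kap).compat _ _ F hG').1 hF
  simp only at hg
  obtain ⟨r, hr, hb⟩ := Metric.eventually_nhds_iff_ball.1 hg.eventually
  have hgm : MonotoneOn g (Metric.ball (G (Circle.exp s, 0)) r) :=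
    (strictMonoOn_of_isADiff (convex_ball _ _) hb).monotoneOn
  have hcont : ContinuousAt G (Circle.exp s, 0) := (η.regular _ _ hG).self_of_nhds.1
  have e1 : ∀ᶠ s' in 𝓝 s, G (Circle.exp s', 0) ∈ Metric.ball (G (Circle.exp s, 0)) r :=
    (tendsto_exp_slice s).eventually (hcont.eventually (Metric.ball_mem_nhds _ hr))
  have hsl : Tendsto (fun y : ℝ => (((y, t), 0) : (ℝ × ℝ) × ℝ)) (𝓝 s) (𝓝 ((s, t), 0)) :=
    ((continuous_id.prodMk continuous_const).prodMk continuous_const).tendsto s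
  have e2 := hsl.eventually hge
  filter_upwards [mem_nhdsWithin_of_mem_nhds e1, mem_nhdsWithin_of_mem_nhds e2,
    mem_nhdsWithin_of_mem_nhds (Ioo_mem_nhds (show s - ε < s by linarith)
      (show s < s + ε by linarith)), self_mem_nhdsWithin] with y a1 a2 a3 a4
  rw [hge.self_of_nhds, a2, neg_le_neg_iff]
  refine hgm a1 (Metric.mem_ball_self hr) ?_
  exact hm ⟨by linarith, by linarith⟩ a3 (le_of_lt a4)

/-- continuity of a first integral along a horizontal segment -/
theorem continuousOn_slice {Ω : GammaStructure (ℝ × ℝ)} {F : (ℝ × ℝ) × ℝ → ℝ} {a b t : ℝ}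
    (hF : ∀ s ∈ Icc a b, Ω.IsFI (s, t) F) : ContinuousOn (fun s => F ((s, t), 0)) (Icc a b) := by
  intro s hs
  refine ContinuousAt.continuousWithinAt ?_
  have hsl : ContinuousAt (fun y : ℝ => (((y, t), 0) : (ℝ × ℝ) × ℝ)) s :=
    ((continuous_id.prodMk continuous_const).prodMk continuous_const).continuousAt
  exact ContinuousAt.comp (f := fun y : ℝ => (((y, t), 0) : (ℝ × ℝ) × ℝ)) (g := F)
    (Ω.regular _ _ (hF s hs)).self_of_nhds.1 hsl

section cusps

open AnTree

variable {h : ℝ} {Fc : ℕ × ℕ → (ℝ × ℝ) × ℝ → ℝ}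

theorem extend_pos {T : AnTree} {c c' : ℝ → T.V} (hc : c ∈ T.C) (hc' : c' ∈ T.C) {x0 : ℝ}
    (hx0 : 0 < x0) (e : ∀ᶠ u in 𝓝 x0, c' u = c (psi u)) : ∀ x > 0, c' x = c (x ^ 2) := by
  intro x hx
  have h1 := T.cont c' hc' c hc psi (min x x0 / 2) (max x x0 + 1) x0
    ⟨by have := min_le_right x x0; have := lt_min hx hx0; linarith,
      by have := le_max_right x x0; linarith⟩ (fun y hy => isADiffAt_psi (by
        have := lt_min hx hx0; have := hy.1; intro h; linarith)) e x
    ⟨by have := min_le_left x x0; have := lt_min hx hx0; linarith,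
      by have := le_max_left x x0; linarith⟩
  rw [h1, psi, abs_of_pos hx, sq]

theorem extend_neg {T : AnTree} {c c' : ℝ → T.V} (hc : c ∈ T.C) (hc' : c' ∈ T.C) {x0 : ℝ}
    (hx0 : x0 < 0) (e : ∀ᶠ u in 𝓝 x0, c' u = c (psi u)) : ∀ x < 0, c' x = c (-(x ^ 2)) := by
  intro x hx
  have h1 := T.cont c' hc' c hc psi (min x x0 - 1) (max x x0 / 2) x0
    ⟨by have := min_le_right x x0; linarith,
      by have := le_max_right x x0; have := max_lt hx hx0; linarith⟩ (fun y hy => isADiffAt_psi (by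
        have := max_lt hx hx0; have := hy.2; intro h; linarith)) e x
    ⟨by have := min_le_left x x0; linarith,
      by have := le_max_left x x0; have := max_lt hx hx0; linarith⟩
  rw [h1, psi, abs_of_neg hx]
  congr 1; ring

end cusps

end Pool.Agent.helper68
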