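import Pool.Agent.helper68.Extend
import Pool.Agent.helper68.HDefs

/-! Realization of Haefliger structures over unions of cells by analytic trees. -/

open Filter Topology Set

namespace Pool.Agent.helper68

variable {X : Type*} [TopologicalSpace X] {ι : Type*}

/-- The cells `R i`, `i ∈ S`, with first integrals `F i`, are realized in an analytic tree. -/
def Realizable (R : ι → Set X) (F : ι → X × ℝ → ℝ) (S : Set ι) : Prop :=
  ∃ (T : AnTree) (c : ι → ℝ → T.V), (∀ i ∈ S, c i ∈ T.C) ∧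
    ∀ i ∈ S, ∀ j ∈ S, ∀ p, p ∈ R i → p ∈ R j →
      ∀ᶠ z in 𝓝 (p, (0 : ℝ)), c i (F i z) = c j (F j z)

theorem realizable_singleton (R : ι → Set X) (F : ι → X × ℝ → ℝ) (i : ι) :
    Realizable R F {i} := by
  refine ⟨AnTree.base, fun _ => fun x => x, fun j _ => rfl, ?_⟩
  intro j hj k hk p _ _
  rw [mem_singleton_iff] at hj hk
  subst hj; subst hk
  exact Eventually.of_forall fun _ => rfl

theorem tendsto_slice (p : X) : Tendsto (fun q : X => (q, (0 : ℝ))) (𝓝 p) (𝓝 (p, 0)) :=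
  (continuous_id.prodMk continuous_const).tendsto p

theorem tendsto_fibre (p : X) (t : ℝ) : Tendsto (fun s : ℝ => (p, s)) (𝓝 t) (𝓝 (p, t)) :=
  (continuous_const.prodMk continuous_id).tendsto t

/-- if a property holds of `F z` for `z` near `(q, 0)`, it holds near the value of `F`. -/
theorem eventually_of_firstIntegral {F : X × ℝ → ℝ} {q : X} (hF : IsFirstIntegralAt F q)
    {P : ℝ → Prop} (h : ∀ᶠ z in 𝓝 (q, (0 : ℝ)), P (F z)) : ∀ᶠ u in 𝓝 (F (q, 0)), P u := by
  have h1 := hF.self_of_nhds.2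
  have h2 := h1.map_nhds
  simp only at h2
  rw [← h2, eventually_map]
  exact (tendsto_fibre q 0).eventually h

theorem realizable_insert (Ω : GammaStructure X) (R : ι → Set X) (F : ι → X × ℝ → ℝ)
    {S : Set ι} (hS : S.Finite) {i0 : ι} (hi0 : i0 ∉ S) (hR : ∀ i ∈ S, IsClosed (R i))
    (hF0 : ∀ p ∈ R i0, Ω.IsFI p (F i0)) (hF : ∀ i ∈ S, ∀ p ∈ R i, Ω.IsFI p (F i))
    (hconn : IsPreconnected (R i0 ∩ ⋃ i ∈ S, R i)) (hne : (R i0 ∩ ⋃ i ∈ S, R i).Nonempty)
    (h : Realizable R F S) : Realizable R F (insert i0 S) := by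
  classical
  obtain ⟨T, c, hc, hcc⟩ := h
  obtain ⟨p0, hp0, hp0'⟩ := hne
  simp only [mem_iUnion, exists_prop] at hp0'
  obtain ⟨i1, hi1, hp1⟩ := hp0'
  obtain ⟨g, hg, hge⟩ := (Ω.compat p0 (F i0) (F i1) (hF0 p0 hp0)).1 (hF i1 hi1 p0 hp1)
  obtain ⟨T', e, he, l, hl, hle⟩ := T.exists_extend (hc i1 hi1) hg
  -- the property to be propagated
  set P : X → Prop := fun p => ∀ j ∈ S, p ∈ R j →
    ∀ᶠ z in 𝓝 (p, (0 : ℝ)), l (F i0 z) = e (c j (F j z)) with hP
  have hstart : P p0 := by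
    intro j hj hpj
    have h1 : ∀ᶠ z in 𝓝 (p0, (0 : ℝ)), l (F i0 z) = e (c i1 (g (F i0 z))) :=
      (Ω.regular _ _ (hF0 p0 hp0)).self_of_nhds.1.eventually hle
    filter_upwards [h1, hge, hcc i1 hi1 j hj p0 hp1 hpj] with z a1 a2 a3
    rw [a1, ← a2, a3]
  have hloc : ∀ p ∈ R i0 ∩ ⋃ i ∈ S, R i, ∀ᶠ q in 𝓝[R i0 ∩ ⋃ i ∈ S, R i] p, (P p ↔ P q) := by
    rintro p ⟨hp, hp'⟩
    simp only [mem_iUnion, exists_prop] at hp'
    obtain ⟨j, hj, hpj⟩ := hp'
    have hFp := hF0 p hp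
    obtain ⟨k, hk, hke⟩ := (Ω.compat p (F i0) (F j) hFp).1 (hF j hj p hpj)
    obtain ⟨ε, hε, hb⟩ := Metric.eventually_nhds_iff_ball.1 hk.eventually
    have ha : ∀ᶠ q in 𝓝 p, ∀ j' ∈ S, q ∈ R j' → p ∈ R j' := by
      rw [eventually_all_finite hS]
      intro j' hj'
      by_cases hpj' : p ∈ R j'
      · exact Eventually.of_forall fun _ _ => hpj'
      · filter_upwards [(hR j' hj').isOpen_compl.mem_nhds hpj'] with q hq hq'
        exact absurd hq' hq
    have hbb : ∀ᶠ q in 𝓝 p, ∀ j' ∈ S, p ∈ R j' →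
        ∀ᶠ z in 𝓝 (q, (0 : ℝ)), c j' (F j' z) = c j (F j z) := by
      rw [eventually_all_finite hS]
      intro j' hj'
      by_cases hpj' : p ∈ R j'
      · filter_upwards [(tendsto_slice p).eventually (hcc j' hj' j hj p hpj' hpj).eventually_nhds]
          with q hq _ using hq
      · exact Eventually.of_forall fun _ h => absurd h hpj'
    have hcc' : ∀ᶠ q in 𝓝 p, ∀ᶠ z in 𝓝 (q, (0 : ℝ)), F j z = k (F i0 z) :=
      (tendsto_slice p).eventually hke.eventually_nhds
    have hd : ∀ᶠ q in 𝓝 p, F i0 (q, 0) ∈ Metric.ball (F i0 (p, 0)) ε :=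
      (tendsto_slice p).eventually ((Ω.regular _ _ hFp).self_of_nhds.1.eventually
        (Metric.ball_mem_nhds _ hε))
    have hee : ∀ᶠ q in 𝓝 p, Ω.IsFI q (F i0) := Ω.locality _ _ hFp
    have hff : P p → ∀ᶠ q in 𝓝 p, ∀ᶠ z in 𝓝 (q, (0 : ℝ)), l (F i0 z) = e (c j (F j z)) :=
      fun hPp => (tendsto_slice p).eventually (hPp j hj hpj).eventually_nhds
    have hff' : ∀ᶠ q in 𝓝 p, P p → ∀ᶠ z in 𝓝 (q, (0 : ℝ)), l (F i0 z) = e (c j (F j z)) := by
      by_cases hPp : P p
      · filter_upwards [hff hPp] with q hq _ using hq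
      · exact Eventually.of_forall fun _ h => absurd h hPp
    filter_upwards [mem_nhdsWithin_of_mem_nhds ha, mem_nhdsWithin_of_mem_nhds hbb,
      mem_nhdsWithin_of_mem_nhds hcc', mem_nhdsWithin_of_mem_nhds hd,
      mem_nhdsWithin_of_mem_nhds hee, mem_nhdsWithin_of_mem_nhds hff',
      self_mem_nhdsWithin] with q qa qb qc qd qe qf qA
    constructor
    · intro hPp j' hj' hqj'
      filter_upwards [qf hPp, qb j' hj' (qa j' hj' hqj')] with z a1 a2
      rw [a1, a2]
    · intro hPq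
      obtain ⟨_, hq'⟩ := qA
      simp only [mem_iUnion, exists_prop] at hq'
      obtain ⟨j', hj', hqj'⟩ := hq'
      have hpj' := qa j' hj' hqj'
      have h1 : ∀ᶠ z in 𝓝 (q, (0 : ℝ)), l (F i0 z) = e (c j (k (F i0 z))) := by
        filter_upwards [hPq j' hj' hqj', qb j' hj' hpj', qc] with z a1 a2 a3
        rw [a1, a2, a3]
      have h2 := eventually_of_firstIntegral (P := fun u => l u = e (c j (k u)))
        (Ω.regular _ _ qe) h1
      rw [Real.ball_eq_Ioo] at qd hb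
      have h3 := T'.cont l hl _ (he _ (hc j hj)) k _ _ _ qd hb h2
      have h4 : ∀ᶠ z in 𝓝 (p, (0 : ℝ)), l (F i0 z) = e (c j (k (F i0 z))) := by
        filter_upwards [(Ω.regular _ _ hFp).self_of_nhds.1.eventually
          (Metric.ball_mem_nhds _ hε)] with z hz
        have hz' : F i0 z ∈ Metric.ball (F i0 (p, 0)) ε := hz
        rw [Real.ball_eq_Ioo] at hz'
        exact h3 _ hz'
      intro j'' hj'' hpj''
      filter_upwards [h4, hke, hcc j hj j'' hj'' p hpj hpj''] with z a1 a2 a3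
      rw [a1, ← a2, a3]
  have hall : ∀ p ∈ R i0 ∩ ⋃ i ∈ S, R i, P p := by
    intro p hp
    have := hconn.induction₂ (fun p q => (P p ↔ P q)) hloc
      (fun x y z _ _ _ h1 h2 => h1.trans h2) (fun x y _ _ h => h.symm)
      (x := p0) (y := p) ⟨hp0, by simp only [mem_iUnion, exists_prop]; exact ⟨i1, hi1, hp1⟩⟩ hp
    exact this.1 hstart
  refine ⟨T', fun i => if i = i0 then l else fun x => e (c i x), ?_, ?_⟩
  · rintro i (rfl | hi)
    · simp only [if_true]; exact hl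
    · have : i ≠ i0 := fun h => hi0 (h ▸ hi)
      simp only [if_neg this]
      exact he _ (hc i hi)
  · rintro i (rfl | hi) j (rfl | hj) p hpi hpj
    · exact Eventually.of_forall fun _ => rfl
    · have : j ≠ i := fun h => hi0 (h ▸ hj)
      simp only [if_true, if_neg this]
      exact hall p ⟨hpi, by simp only [mem_iUnion, exists_prop]; exact ⟨j, hj, hpj⟩⟩ j hj hpj
    · have : i ≠ j := fun h => hi0 (h ▸ hi)
      simp only [if_true, if_neg this]
      filter_upwards [hall p ⟨hpj, by simp only [mem_iUnion, exists_prop]; exact ⟨i, hi, hpi⟩⟩ i hi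
        hpi] with z hz using hz.symm
    · have h1 : i ≠ i0 := fun h => hi0 (h ▸ hi)
      have h2 : j ≠ i0 := fun h => hi0 (h ▸ hj)
      simp only [if_neg h1, if_neg h2]
      filter_upwards [hcc i hi j hj p hpi hpj] with z hz
      rw [hz]

end Pool.Agent.helper68
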